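import Pool.Agent.MP_434e52_an.TriB

/-! The angle between the two finite subgroups from the spectral gap of the graph. -/

namespace Pool.Agent.MP_434e52_an.H29

open Finset Pool.Agent.MP_434e52_an
open scoped Classical

noncomputable section

variable {E : Type*} [NormedAddCommGroup E] [InnerProductSpace ℂ E]

theorem ri_sum {ι : Type*} (s : Finset ι) (u : E) (f : ι → E) :
    ri u (∑ a ∈ s, f a) = ∑ a ∈ s, ri u (f a) := by
  simp [ri, inner_sum]

theorem sum_ri {ι : Type*} (s : Finset ι) (u : E) (f : ι → E) :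
    ri (∑ a ∈ s, f a) u = ∑ a ∈ s, ri (f a) u := by
  simp [ri, sum_inner]

theorem nsq_sub (x y : E) : ‖x - y‖ ^ 2 = ‖x‖ ^ 2 + ‖y‖ ^ 2 - 2 * ri x y := by
  simp only [← ri_self, ri_sub, sub_ri, ri_comm y x]
  ring

/-- the sum of all squared distances is at most twice the variance around any point -/
theorem pair_le {ι : Type*} [Fintype ι] (u : ι → E) (m : E) :
    ∑ i, ∑ j, ‖u i - u j‖ ^ 2 ≤ 2 * Fintype.card ι * ∑ i, ‖u i - m‖ ^ 2 := by
  have e : ∀ i j, ‖u i - u j‖ ^ 2 =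
      ‖u i - m‖ ^ 2 + ‖u j - m‖ ^ 2 - 2 * ri (u i - m) (u j - m) := fun i j => by
    rw [← nsq_sub, sub_sub_sub_cancel_right]
  have h := ri_nonneg (∑ i, (u i - m))
  rw [sum_ri] at h
  simp only [ri_sum] at h
  simp only [e, sum_sub_distrib, sum_add_distrib, sum_const, card_univ, nsmul_eq_mul, ← mul_sum]
  linarith

variable [CompleteSpace E]

theorem ang_core {p q : E →L[ℂ] E} (hp : IsStarProjection p) (hq : IsStarProjection q)
    (h : ∀ v, p v = v → 4 * ‖q v - p (q v)‖ ^ 2 ≤ ‖v - q v‖ ^ 2) : Ang (1 / 2) p q := by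
  let K : Submodule ℂ E := LinearMap.ker ((1 - p : E →L[ℂ] E) : E →ₗ[ℂ] E) ⊓
    LinearMap.ker ((1 - q : E →L[ℂ] E) : E →ₗ[ℂ] E)
  have mK : ∀ v, v ∈ K ↔ p v = v ∧ q v = v := fun v => by
    simp only [K, Submodule.mem_inf, LinearMap.mem_ker]
    exact and_congr (sub_eq_zero.trans eq_comm) (sub_eq_zero.trans eq_comm)
  have hc : IsClosed (K : Set E) :=
    (ContinuousLinearMap.isClosed_ker _).inter (ContinuousLinearMap.isClosed_ker _)
  have : CompleteSpace K := hc.completeSpace_coe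
  have hz : IsStarProjection K.starProjection := isStarProjection_starProjection
  have zp : Commute K.starProjection p := Kaz.comm_of_inv hp fun v hv => by
    rw [((mK v).1 hv).1]; exact hv
  have zq : Commute K.starProjection q := Kaz.comm_of_inv hq fun v hv => by
    rw [((mK v).1 hv).2]; exact hv
  refine Kaz.ang_of_le hp hq hz zp zq (fun v => ?_) (by norm_num) (by norm_num) fun w hw => ?_
  · obtain ⟨a, b⟩ := (mK _).1 (K.starProjection_apply_mem v)
    rw [b, a, b]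
  set T : E →L[ℂ] E := p - p * q * p with hT
  have Ta : ∀ u, T u = p u - p (q (p u)) := fun u => rfl
  have Q : ∀ u, ri (T u) u = ‖p u - q (p u)‖ ^ 2 := fun u => by
    rw [Ta, nsq_sub, sub_ri, pr_ri hp (q (p u)), ← ri_self, ← ri_self, pr_ri hp u (p u), pr_pr hp,
      pr_ri hp u u, pr_ri hq (p u) (q (p u)), pr_pr hq, pr_ri hq (p u) (p u)]
    ring
  have Ts : ∀ u w, ri (T u) w = ri u (T w) := fun u w => by
    simp only [Ta, ri_sub, sub_ri, pr_ri hp, pr_ri hq]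
  have T2 : ∀ u, 3 * ri (T u) u ≤ 4 * ‖T u‖ ^ 2 := fun u => by
    have a1 := h (p u) (pr_pr hp u)
    have a2 := pr_sq hp (p u - q (p u))
    rw [map_sub, pr_pr hp, ← Ta] at a2
    have a3 : p u - q (p u) - T u = -(q (p u) - p (q (p u))) := by rw [Ta]; abel
    rw [a3, norm_neg] at a2
    rw [Q]
    linarith
  let M : Submodule ℂ E := (LinearMap.range (T : E →ₗ[ℂ] E))ᗮ
  have g : ∀ w ∈ Mᗮ, 3 * ‖w‖ ^ 2 ≤ 4 * ri (T w) w := by
    intro w hw
    rw [Submodule.orthogonal_orthogonal_eq_closure] at hw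
    refine closure_minimal (t := {w | 3 * ‖w‖ ^ 2 ≤ 4 * ri (T w) w}) ?_
      (isClosed_le (by fun_prop) (by unfold ri; fun_prop)) hw
    rintro _ ⟨u, rfl⟩
    change 3 * ‖T u‖ ^ 2 ≤ 4 * ri (T (T u)) (T u)
    have a1 : 0 ≤ ri (T (T u - ((3 / 4 : ℝ) : ℂ) • u)) (T u - ((3 / 4 : ℝ) : ℂ) • u) := by
      rw [Q]; positivity
    have a2 := T2 u
    rw [map_sub, map_smul] at a1
    simp only [ri_sub, sub_ri, ri_smul, smul_ri, Ts (T u) u, ri_self] at a1
    linarith
  have hm : p w ∈ Mᗮ := by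
    intro u hu
    have f : ri (T u) u = 0 := congrArg Complex.re (hu _ ⟨u, rfl⟩)
    rw [Q] at f
    have f1 : q (p u) = p u :=
      (sub_eq_zero.1 (norm_eq_zero.1 (pow_eq_zero_iff two_ne_zero |>.1 f))).symm
    have f2 : p u ∈ K := (mK _).2 ⟨pr_pr hp u, f1⟩
    have f3 : w ∈ Kᗮ := by
      have := K.sub_starProjection_mem_orthogonal w
      rwa [hw, sub_zero] at this
    rw [← ContinuousLinearMap.adjoint_inner_left, ← ContinuousLinearMap.star_eq_adjoint,
      hp.isSelfAdjoint.star_eq]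
    exact f3 _ f2
  have b1 := g _ hm
  rw [Q, pr_pr hp] at b1
  have b2 := pr_sq hq (p w)
  refine (abs_le_of_sq_le_sq' ?_ (by positivity)).2
  nlinarith

variable {H Y Q : Type} [Group H] [Group Y] [Fintype Y] [Fintype Q] {π : H →* (E →L[ℂ] E)}
  (hu : ∀ g, π g ∈ unitary (E →L[ℂ] E))

include hu in
theorem sum_disp (ι : Y →* H) (u : E) :
    ∑ d, ‖u - π (ι d) u‖ ^ 2 = 2 * Fintype.card Y * ‖u - av π ι u‖ ^ 2 := by
  have hp := Kaz.avg_pr hu ι
  have n : (0 : ℝ) < Fintype.card Y := by exact_mod_cast Fintype.card_pos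
  have e1 : ri u (av π ι u) = (Fintype.card Y : ℝ)⁻¹ * ∑ d, ri u (π (ι d) u) := by
    rw [av, ContinuousLinearMap.smul_apply, ri_smul, ContinuousLinearMap.sum_apply, ri_sum]
  have e2 : ‖av π ι u‖ ^ 2 = ri u (av π ι u) := by rw [← ri_self, pr_ri hp, pr_pr hp]
  simp only [nsq_sub, un_norm hu, sum_sub_distrib, sum_add_distrib, sum_const, card_univ,
    nsmul_eq_mul, ← mul_sum]
  rw [e2, e1]
  field_simp
  ring

include hu in
theorem disp_le (ι : Y →* H) (u : E) (d : Y) :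
    ‖u - π (ι d) u‖ ^ 2 ≤ 4 * ‖u - av π ι u‖ ^ 2 := by
  have e : π (ι d) (av π ι u) = av π ι u :=
    congrArg (fun T : E →L[ℂ] E => T u) (Kaz.mul_avg (π := π) ι d)
  have : u - π (ι d) u = (u - av π ι u) - π (ι d) (u - av π ι u) := by
    rw [map_sub, e]; abel
  have h := norm_sub_le (u - av π ι u) (π (ι d) (u - av π ι u))
  rw [← this, un_norm hu] at h
  nlinarith [norm_nonneg (u - π (ι d) u), norm_nonneg (u - av π ι u)]

include hu in
/-- all quotients different and filling most of `Y`: the function spreads -/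
theorem spread {D : ℕ} (t : Fin D → Equiv.Perm Q) (lab : Q → Fin D → Y) (ι : Y →* H) (c : Q → H)
    (hl : ∀ x i j x' i' j', i ≠ j → (lab x i)⁻¹ * lab x j = (lab x' i')⁻¹ * lab x' j' →
      x = x' ∧ i = i' ∧ j = j')
    (fill : 19 * (Fintype.card Y : ℝ) ≤ 20 * (Fintype.card Q * (D * (D - 1))))
    (u m : E) (g : Q → E) (hg : ∀ x i, g (t i x) = π (c x * ι (lab x i)) u) :
    9 / 10 * (Fintype.card Q * (D * (D - 1))) * ‖u - av π ι u‖ ^ 2 ≤
      (D : ℝ) ^ 2 * ∑ y, ‖g y - m‖ ^ 2 := by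
  let A : Finset (Q × Fin D × Fin D) := univ ×ˢ (univ : Finset (Fin D)).offDiag
  let φ : Q × Fin D × Fin D → Y := fun a => (lab a.1 a.2.1)⁻¹ * lab a.1 a.2.2
  have inj : Set.InjOn φ A := fun a ha b _ e => by
    obtain ⟨h1, h2, h3⟩ := hl _ _ _ _ _ _ (mem_offDiag.1 (mem_product.1 ha).2).2.2 e
    exact Prod.ext h1 (Prod.ext h2 h3)
  have cA : (#(A.image φ) : ℝ) = Fintype.card Q * (D * (D - 1)) := by
    rw [card_image_of_injOn inj, card_product, offDiag_card, card_univ, card_univ,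
      Fintype.card_fin, Nat.cast_mul, Nat.cast_sub (Nat.le_mul_self D)]
    push_cast
    ring
  have d1 : ∀ x i j, ‖g (t i x) - g (t j x)‖ ^ 2 = ‖u - π (ι (φ (x, i, j))) u‖ ^ 2 := by
    intro x i j
    have : c x * ι (lab x j) = c x * ι (lab x i) * ι (φ (x, i, j)) := by
      simp only [φ, map_mul, map_inv]; group
    rw [hg, hg, this, map_mul π (c x * ι (lab x i)), ContinuousLinearMap.mul_apply, ← map_sub,
      un_norm hu]
  have s1 : ∑ d ∈ A.image φ, ‖u - π (ι d) u‖ ^ 2 ≤ 2 * (D : ℝ) ^ 2 * ∑ y, ‖g y - m‖ ^ 2 := by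
    rw [sum_image inj]
    calc _ ≤ ∑ a : Q × Fin D × Fin D, ‖u - π (ι (φ a)) u‖ ^ 2 :=
          sum_le_sum_of_subset_of_nonneg (subset_univ _) fun _ _ _ => sq_nonneg _
      _ = ∑ x, ∑ i, ∑ j, ‖g (t i x) - g (t j x)‖ ^ 2 := by
          simp only [Fintype.sum_prod_type, d1]
      _ ≤ ∑ x, 2 * (D : ℝ) * ∑ i, ‖g (t i x) - m‖ ^ 2 := sum_le_sum fun x _ => by
          simpa using pair_le (fun i => g (t i x)) m
      _ = _ := by
          rw [← mul_sum, Finset.sum_comm]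
          simp only [fun i => Equiv.sum_comp (t i) fun y => ‖g y - m‖ ^ 2]
          rw [sum_const, card_univ, Fintype.card_fin, nsmul_eq_mul]
          ring
  have s2 := sum_add_sum_compl (A.image φ) fun d => ‖u - π (ι d) u‖ ^ 2
  rw [sum_disp hu] at s2
  have s3 := sum_le_card_nsmul (A.image φ)ᶜ _ _ fun d _ => disp_le hu ι u d
  have s4 : (#(A.image φ)ᶜ : ℝ) = Fintype.card Y - #(A.image φ) := by
    rw [card_compl, Nat.cast_sub (card_le_univ _)]
  have s5 : (#(A.image φ) : ℝ) ≤ Fintype.card Y := by exact_mod_cast card_le_univ _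
  rw [nsmul_eq_mul, s4] at s3
  rw [← cA] at fill ⊢
  have b := sq_nonneg ‖u - av π ι u‖
  nlinarith [mul_le_mul_of_nonneg_right fill b]

include hu in
theorem ang_of_gap [Nonempty Q] {D : ℕ} (hD : 100 ≤ D) (t : Fin D → Equiv.Perm Q)
    (lab : Bool → Q → Fin D → Y) (ι : Bool → Y →* H) (c : Bool → Q → H)
    (hl : ∀ b x i j x' i' j', i ≠ j → (lab b x i)⁻¹ * lab b x j = (lab b x' i')⁻¹ * lab b x' j' →
      x = x' ∧ i = i' ∧ j = j')
    (fill : 19 * (Fintype.card Y : ℝ) ≤ 20 * (Fintype.card Q * (D * (D - 1))))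
    (rel : ∀ x i, c true x * ι true (lab true x i) =
      c false (t i x) * ι false (lab false (t i x) i))
    (gap : ∀ f : Q → E, ∑ x, f x = 0 →
      ∑ x, ‖∑ i, f (t i x)‖ ^ 2 ≤ (1 / 20 * (D : ℝ)) ^ 2 * ∑ x, ‖f x‖ ^ 2) :
    Ang (1 / 2) (av π (ι true)) (av π (ι false)) := by
  have hp := Kaz.avg_pr hu (ι true)
  have hq := Kaz.avg_pr hu (ι false)
  refine ang_core hp hq fun v hv => ?_
  set w := av π (ι false) v with hw
  have fv := Kaz.avg_fix (ι true) hv
  have fw := Kaz.avg_fix (ι false) (show av π (ι false) w = w from pr_pr hq v)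
  let g1 : Q → E := fun x => π (c true x) v
  let g2 : Q → E := fun x => π (c false x) w
  have e1 : ∀ x i, g1 x = π (c true x * ι true (lab true x i)) v := fun x i => by
    rw [map_mul, ContinuousLinearMap.mul_apply, fv]
  have e2 : ∀ x i, g2 (t i x) = π (c true x * ι true (lab true x i)) w := fun x i => by
    rw [rel, map_mul, ContinuousLinearMap.mul_apply, fw]
  have n : (0 : ℝ) < Fintype.card Q := by exact_mod_cast Fintype.card_pos
  have mean : ∀ g : Q → E, ∃ m, ∑ x, (g x - m) = 0 := fun g =>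
    ⟨(((Fintype.card Q : ℝ)⁻¹ : ℝ) : ℂ) • ∑ x, g x, by
      rw [sum_sub_distrib, sum_const, card_univ, ← Nat.cast_smul_eq_nsmul ℂ, smul_smul]
      simp⟩
  obtain ⟨m1, h1⟩ := mean g1
  obtain ⟨m2, h2⟩ := mean g2
  have a1 := spread hu (fun i => (t i)⁻¹) (lab false) (ι false) (c false) (hl false) fill v m1 g1
    fun x i => by
      rw [e1 _ i, rel]
      simp
  have a2 := spread hu t (lab true) (ι true) (c true) (hl true) fill w m2 g2 e2
  have a3 := gap _ h2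
  rw [← hw] at a1
  have ed : ∀ x i, ‖v - w‖ ^ 2 = ‖g1 x - m1‖ ^ 2 + ‖g2 (t i x) - m2‖ ^ 2 -
      2 * ri (g1 x - m1) (g2 (t i x) - m2) + ‖m2 - m1‖ ^ 2 -
      2 * ri (g1 x - m1) (m2 - m1) + 2 * ri (g2 (t i x) - m2) (m2 - m1) := fun x i => by
    have : ‖v - w‖ = ‖(g1 x - m1 - (g2 (t i x) - m2)) - (m2 - m1)‖ := by
      rw [← un_norm hu (c true x * ι true (lab true x i)), map_sub, ← e1, ← e2]
      congr 1
      abel
    rw [this, nsq_sub, nsq_sub (g1 x - m1) (g2 (t i x) - m2),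
      sub_ri (g1 x - m1) (g2 (t i x) - m2) (m2 - m1)]
    ring
  have z1 : ∑ x, ∑ _i : Fin D, ri (g1 x - m1) (m2 - m1) = 0 := by
    rw [Finset.sum_comm]
    refine sum_eq_zero fun i _ => ?_
    rw [← sum_ri, h1]
    simp [ri]
  have z2 : ∑ x, ∑ i : Fin D, ri (g2 (t i x) - m2) (m2 - m1) = 0 := by
    rw [Finset.sum_comm]
    refine sum_eq_zero fun i _ => ?_
    rw [← sum_ri, Equiv.sum_comp (t i) fun y => g2 y - m2, h2]
    simp [ri]
  have z3 : ∑ x, ∑ i : Fin D, ‖g2 (t i x) - m2‖ ^ 2 = D * ∑ y, ‖g2 y - m2‖ ^ 2 := by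
    rw [Finset.sum_comm]
    simp only [fun i => Equiv.sum_comp (t i) fun y => ‖g2 y - m2‖ ^ 2]
    rw [sum_const, card_univ, Fintype.card_fin, nsmul_eq_mul]
  have hD' : (100 : ℝ) ≤ D := by exact_mod_cast hD
  have z4 : 2 * (D / 20) * ∑ x, ∑ i : Fin D, ri (g1 x - m1) (g2 (t i x) - m2) ≤
      ((D : ℝ) / 20) ^ 2 * ∑ x, ‖g1 x - m1‖ ^ 2 + ∑ x, ‖∑ i, (g2 (t i x) - m2)‖ ^ 2 := by
    rw [mul_sum, mul_sum, ← sum_add_distrib]
    refine sum_le_sum fun x _ => ?_
    rw [← ri_sum]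
    have := ri_le (g1 x - m1) (∑ i, (g2 (t i x) - m2))
    nlinarith [sq_nonneg (D / 20 * ‖g1 x - m1‖ - ‖∑ i, (g2 (t i x) - m2)‖)]
  have tot : ∑ _x : Q, ∑ _i : Fin D, ‖v - w‖ ^ 2 = _ :=
    sum_congr rfl fun x _ => sum_congr rfl fun i _ => ed x i
  simp only [sum_add_distrib, sum_sub_distrib, ← mul_sum, z1, z2, z3] at tot
  simp only [sum_const, card_univ, Fintype.card_fin, nsmul_eq_mul, ← mul_sum] at tot
  generalize ∑ x, ∑ i : Fin D, ri (g1 x - m1) (g2 (t i x) - m2) = X at *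
  generalize ∑ x, ‖∑ i, (g2 (t i x) - m2)‖ ^ 2 = S at *
  generalize ∑ x, ‖g1 x - m1‖ ^ 2 = A at *
  generalize ∑ x, ‖g2 x - m2‖ ^ 2 = B at *
  have pa := sq_nonneg ‖v - w‖
  have pb := sq_nonneg ‖w - av π (ι true) w‖
  have pm : 0 ≤ (Fintype.card Q : ℝ) * (D * ‖m2 - m1‖ ^ 2) := by positivity
  generalize ‖v - w‖ ^ 2 = a at *
  generalize ‖w - av π (ι true) w‖ ^ 2 = b at *
  generalize (Fintype.card Q : ℝ) = N at *
  have k1 : 2 * X ≤ D / 20 * (A + B) := by
    refine le_of_mul_le_mul_left (a := (D : ℝ) / 20) ?_ (by positivity)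
    nlinarith
  have k2 : 19 / 20 * D * (A + B) ≤ N * (D * a) := by linarith
  have k3 : 19 / 20 * (9 / 10 * (N * (D * (D - 1))) * (a + b)) ≤ D * (N * (D * a)) := by
    nlinarith [mul_le_mul_of_nonneg_left k2 (show (0 : ℝ) ≤ D by positivity)]
  have k4 : 19 / 20 * (9 / 10 * (D - 1) * (a + b)) ≤ D * a := by
    refine le_of_mul_le_mul_left (a := N * D) ?_ (by positivity)
    nlinarith
  nlinarith [mul_le_mul_of_nonneg_right hD' (add_nonneg pa pb)]

end

end Pool.Agent.MP_434e52_an.H29
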