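import Pool.Agent.MP_434e52_an.HG.D1

/-! The linear isoperimetric inequality in Stokes form. -/

namespace Pool.Agent.MP_434e52_an.H29

open Equiv Finset Pool.Agent.MP_c6eade_gt.H41
open scoped Classical

variable {R E Kd K H : Type} [Group K] [Group H] {G : Gd R E Kd K H}

theorem iso_st {D : Type} (s : Finset D) (π : Perm D) (hs : ∀ x, x ∈ s ↔ π x ∈ s)
    (a c u v : D → ℤ) (M : ℤ) (h1 : ∀ x ∈ s, c (π x) = c x ∧ u (π x) = v x)
    (h2 : ∀ x ∈ s, |a x - 2 * c x| ≤ M ∧ |u x - v x| ≤ 1) :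
    |∑ x ∈ s, a x * (u x - v x)| ≤ #s * M := by
  have e1 : ∑ x ∈ s, c x * v x = ∑ x ∈ s, c x * u x :=
    sum_equiv π hs fun x hx => by rw [(h1 x hx).1, (h1 x hx).2]
  have e2 : ∑ x ∈ s, a x * (u x - v x) = ∑ x ∈ s, (a x - 2 * c x) * (u x - v x) +
      2 * (∑ x ∈ s, c x * u x - ∑ x ∈ s, c x * v x) := by
    rw [← sum_sub_distrib, mul_sum, ← sum_add_distrib]
    exact sum_congr rfl fun x _ => by ring
  rw [e2, e1, sub_self, mul_zero, add_zero, ← nsmul_eq_mul]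
  refine (abs_sum_le_sum_abs _ _).trans (sum_le_card_nsmul _ _ _ fun x hx => ?_)
  rw [abs_mul]
  exact (mul_le_of_le_one_right (abs_nonneg _) (h2 x hx).2).trans (h2 x hx).1

theorem iso_ev (ι : Kd → K →* H) (c : Kd × K) (w : List (Kd × K)) :
    ev ι (c :: w) = ι c.1 c.2 * ev ι w := by
  simp only [ev, List.map_cons, List.prod_cons]

theorem iso_lip (ι : Kd → K →* H) {F : H → ℤ} (hF : ∀ x a k, |F (x * ι a k) - F x| ≤ 1) :
    ∀ (w : List (Kd × K)) (x : H), |F (x * ev ι w) - F x| ≤ w.length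
  | [], x => by simp [ev]
  | c :: w, x => by
    have h1 := abs_le.1 (iso_lip ι hF w (x * ι c.1 c.2))
    have h2 := abs_le.1 (hF x c.1 c.2)
    rw [iso_ev, ← mul_assoc, List.length_cons, abs_le]
    push_cast
    constructor <;> linarith [h1.1, h1.2, h2.1, h2.2]

/-- The sum of a function of the steps along a word. -/
def isoW (ι : Kd → K →* H) (om : H → H → ℤ) : H → List (Kd × K) → ℤ
  | _, [] => 0
  | p, c :: w => om p (p * ι c.1 c.2) + isoW ι om (p * ι c.1 c.2) w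

theorem iso_word (ι : Kd → K →* H) (om : H → H → ℤ) : ∀ (n : ℕ) (γ : ℕ → H),
    (∀ i < n, ∃ a k, γ (i + 1) = γ i * ι a k) → ∃ w : List (Kd × K), w.length = n ∧
      γ 0 * ev ι w = γ n ∧ ∑ i ∈ range n, om (γ i) (γ (i + 1)) = isoW ι om (γ 0) w
  | 0, γ, _ => ⟨[], rfl, by simp [ev], by simp [isoW]⟩
  | n + 1, γ, h => by
    obtain ⟨a, k, h0⟩ := h 0 n.succ_pos
    obtain ⟨w, h1, h2, h3⟩ := iso_word ι om n (fun i => γ (i + 1)) fun i hi =>
      h (i + 1) (Nat.succ_lt_succ hi)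
    refine ⟨(a, k) :: w, by rw [List.length_cons, h1], ?_, ?_⟩
    · rw [iso_ev, ← mul_assoc, ← h0]
      exact h2
    · rw [sum_range_succ', h3, isoW, ← h0, add_comm]

theorem iso_lab {D : Type} (Z : Out Kd H D) (om : H → H → ℤ) :
    ∀ (l : List D) (w : List (Kd × K)) (p : H), Lab G Z p l w → l.length = w.length ∧
      (∀ x ∈ l, ∃ k, Z.B x = Z.A x * G.ι (Z.κ x) k) ∧
      (l.map fun x => om (Z.A x) (Z.B x)).sum = isoW G.ι om p w
  | [], [], _, _ => ⟨rfl, by simp, rfl⟩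
  | [], _ :: _, _, h => h.elim
  | _ :: _, [], _, h => h.elim
  | x :: l, c :: w, p, h => by
    obtain ⟨h1, h2, h3, h4⟩ := h
    obtain ⟨a1, a2, a3⟩ := iso_lab Z om l w _ h4
    refine ⟨by rw [List.length_cons, List.length_cons, a1], fun y hy => ?_, ?_⟩
    · rcases List.mem_cons.1 hy with rfl | hy
      · exact ⟨c.2, by rw [h1, h2, h3]⟩
      · exact a2 y hy
    · rw [List.map_cons, List.sum_cons, a3, isoW, h2, h3]

theorem iso_cos (ι : Kd → K →* H) {F : H → ℤ} (hF : ∀ x a k, |F (x * ι a k) - F x| ≤ 1) :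
    ∃ Φ : Kd → H → ℤ, (∀ a p k, Φ a (p * ι a k) = Φ a p) ∧ ∀ a p, |Φ a p - F p| ≤ 1 := by
  refine ⟨fun a p => F (Quotient.out (QuotientGroup.mk p : H ⧸ (ι a).range)), fun a p k => ?_,
    fun a p => ?_⟩
  · simp only [QuotientGroup.mk_mul_of_mem p (MonoidHom.mem_range.2 ⟨k, rfl⟩)]
  · obtain ⟨⟨_, k, rfl⟩, h⟩ := QuotientGroup.mk_out_eq_mul (ι a).range p
    simp only [h]
    exact hF p a k

theorem iso_dev {D : Type} [Fintype D] {Z : Out Kd H D} {m : (H → E → ZMod 2) → ZMod 2}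
    (Y : Dev G Z m) (hl : ∀ x ∈ Y.T, ∃ e, Y.lk x = some e)
    (hO : ∀ x ∈ Z.O, ∃ k, Z.B x = Z.A x * G.ι (Z.κ x) k) {F P : H → ℤ}
    (hF : ∀ x a k, |F (x * G.ι a k) - F x| ≤ 1) (hP : ∀ x a k, |P (x * G.ι a k) - P x| ≤ 1)
    {M : ℤ} (hM : ∀ g e, |F (g * G.pt e) - F g| ≤ M) :
    |∑ x ∈ Z.O, (F (Z.A x) + F (Z.B x)) * (P (Z.B x) - P (Z.A x))| ≤
      #Z.O * 2 + #Y.T * (2 * M + 3) := by
  obtain ⟨Φ, p1, p2⟩ := iso_cos G.ι hF
  have hAB : ∀ x, x ∈ Y.T ∨ x ∈ Z.O → ∃ k, Y.B x = Y.A x * G.ι (Z.κ x) k := fun x hx => by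
    rcases hx with hx | hx
    · obtain ⟨a1, ⟨k, a2⟩, ⟨k', a3⟩, -⟩ := Y.inn x hx
      refine ⟨k⁻¹ * k', ?_⟩
      rw [a2, a3, a1, map_mul, map_inv]
      group
    · rw [(Y.out x hx).2.1, (Y.out x hx).2.2]
      exact hO x hx
  have hd : Disjoint Y.T Z.O := disjoint_left.2 Y.disj
  have s1 := iso_st (Y.T ∪ Z.O) Y.h (fun x => by rw [mem_union, mem_union, Y.h_live])
    (fun x => F (Y.A x) + F (Y.B x)) (fun x => Φ (Z.κ x) (Y.B x)) (fun x => P (Y.B x))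
    (fun x => P (Y.A x)) 2 (fun x hx => by
      obtain ⟨a1, a2⟩ := Y.hub x (mem_union.1 hx)
      obtain ⟨k, a3⟩ := hAB x (mem_union.1 hx)
      simp only [a1, ← a2, and_true]
      rw [a3, p1]) fun x hx => by
      obtain ⟨k, a3⟩ := hAB x (mem_union.1 hx)
      have b1 := abs_le.1 (p2 (Z.κ x) (Y.A x))
      have b2 := abs_le.1 (p2 (Z.κ x) (Y.B x))
      have b3 : Φ (Z.κ x) (Y.B x) = Φ (Z.κ x) (Y.A x) := by rw [a3, p1]
      refine ⟨abs_le.2 ⟨by linarith [b1.2, b2.2], by linarith [b1.1, b2.1]⟩, ?_⟩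
      rw [a3]
      exact hP _ _ _
  have s2 := iso_st Y.T Y.f (fun x => (Y.f_iff x).symm)
    (fun x => F (Y.A x) + F (Y.B x)) (fun x => F (Y.γ x)) (fun x => P (Y.A x))
    (fun x => P (Y.B x)) (2 * M + 1) (fun x hx => by
      obtain ⟨-, -, -, a1, a2⟩ := Y.inn x hx
      simp only [a1, a2, and_self]) fun x hx => by
      obtain ⟨k, a3⟩ := hAB x (Or.inl hx)
      obtain ⟨e, he⟩ := hl x hx
      have b1 := hM (Y.γ x) e
      have b2 := hF (Y.A x) (Z.κ x) k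
      rw [← (Y.cross x hx e he).2.2.2, abs_le] at b1
      rw [← a3, abs_le] at b2
      refine ⟨abs_le.2 ⟨by linarith [b1.1, b2.2], by linarith [b1.2, b2.1]⟩, ?_⟩
      rw [abs_sub_comm, a3]
      exact hP _ _ _
  have e1 : ∑ x ∈ Z.O, (F (Z.A x) + F (Z.B x)) * (P (Z.B x) - P (Z.A x)) =
      ∑ x ∈ Z.O, (F (Y.A x) + F (Y.B x)) * (P (Y.B x) - P (Y.A x)) :=
    sum_congr rfl fun x hx => by rw [(Y.out x hx).2.1, (Y.out x hx).2.2]
  have e2 : ∑ x ∈ Y.T, (F (Y.A x) + F (Y.B x)) * (P (Y.A x) - P (Y.B x)) =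
      -∑ x ∈ Y.T, (F (Y.A x) + F (Y.B x)) * (P (Y.B x) - P (Y.A x)) := by
    rw [← sum_neg_distrib]
    exact sum_congr rfl fun x _ => by ring
  rw [sum_union hd, card_union_of_disjoint hd, abs_le] at s1
  rw [e2, abs_le] at s2
  rw [e1, abs_le]
  push_cast at s1
  constructor <;> linarith [s1.1, s1.2, s2.1, s2.2]

/-- Row ISO. -/
theorem iso_row [Finite E] (hV : VK G) {C m0 : ℕ} (hL : Lin G.row G.kind G.σ G.pos C m0) :
    ∃ C', IsoS (⋃ a, ((G.ι a).range : Set H)) C' := by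
  choose w0 hw0 using hV.gen
  obtain ⟨M, hM⟩ := (Set.finite_range fun e => (w0 (G.pt e)).length).bddAbove
  refine ⟨2 + C * (2 * M + 3), fun F P hF hP n γ h0 hs => ?_⟩
  have mem : ∀ a k, G.ι a k ∈ ⋃ a, ((G.ι a).range : Set H) := fun a k =>
    Set.mem_iUnion.2 ⟨a, k, rfl⟩
  have hF' : ∀ x a k, |F (x * G.ι a k) - F x| ≤ 1 := fun x a k => hF x _ (mem a k)
  have hP' : ∀ x a k, |P (x * G.ι a k) - P x| ≤ 1 := fun x a k => hP x _ (mem a k)
  obtain ⟨w, w1, w2, w3⟩ := iso_word G.ι (fun p q => (F p + F q) * (P q - P p)) n γ fun i hi => by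
    rcases hs i hi with h | h
    · obtain ⟨a, k, h⟩ := Set.mem_iUnion.1 h
      exact ⟨a, k, by rw [h, mul_inv_cancel_left]⟩
    · obtain ⟨a, k, h⟩ := Set.mem_iUnion.1 h
      exact ⟨a, k⁻¹, by rw [map_inv, h, mul_inv_rev, inv_inv, mul_inv_cancel_left]⟩
  obtain ⟨m, D, _, Z, l, ⟨X⟩, l1, l2, -, l3, -⟩ :=
    hV.ex w (γ 0) (mul_left_cancel (w2.trans (h0.trans (mul_one _).symm)))
  obtain ⟨Y, y1, y2, -⟩ := X.reduce hL hV.inj
  obtain ⟨a1, a2, a3⟩ := iso_lab Z (fun p q => (F p + F q) * (P q - P p)) l w _ l3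
  have hO : Z.O = l.toFinset := by
    ext x
    rw [l2, List.mem_toFinset]
  have hn : #Z.O = n := by rw [hO, List.toFinset_card_of_nodup l1, a1, w1]
  have key := iso_dev Y y1 (fun x hx => a2 x ((l2 x).1 hx)) hF' hP' (M := M) fun g e => by
    have h1 := iso_lip G.ι hF' (w0 (G.pt e)) g
    rw [hw0] at h1
    exact h1.trans (Nat.cast_le.2 (hM ⟨e, rfl⟩))
  rw [hn] at y2 key
  rw [hO, List.sum_toFinset _ l1, a3, ← w3] at key
  refine key.trans ?_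
  have y3 : (#Y.T : ℤ) ≤ C * n := by exact_mod_cast y2
  have y4 : (#Y.T : ℤ) * (2 * M + 3) ≤ C * n * (2 * M + 3) :=
    mul_le_mul_of_nonneg_right y3 (by positivity)
  push_cast
  linarith

end Pool.Agent.MP_434e52_an.H29
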