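import Pool.Agent.MP_434e52_an.HG.D1

/-! The universal group has no involution when the vertex group has odd order. -/

namespace Pool.Agent.MP_434e52_an.H29

open Equiv Finset Pool.Agent.MP_c6eade_gt.H41
open scoped Classical

variable {R E Kd K H : Type} [Group K] [Group H] {G : Gd R E Kd K H}

namespace Ni

theorem sel {X : Type} (T : X → X) (h1 : ∀ x, T (T x) = x) (h2 : ∀ x, T x ≠ x) :
    ∃ s : X → ZMod 2, ∀ x, s (T x) = s x + 1 := by
  obtain ⟨_, -⟩ := exists_wellFoundedLT X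
  refine ⟨fun x => if x < T x then 0 else 1, fun x => ?_⟩
  simp only [h1]
  rcases lt_or_gt_of_ne (h2 x) with h | h
  · rw [if_pos h, if_neg (not_lt.2 h.le)]
    decide
  · rw [if_neg (not_lt.2 h.le), if_pos h]
    decide

theorem sel_coset (ι : K →* H) (hK : Odd (Nat.card K)) {τ : H} (hτ : τ * τ = 1) (h1 : τ ≠ 1) :
    ∃ t : H → ZMod 2, (∀ p k, t (p * ι k) = t p) ∧ ∀ p, t (τ * p) = t p + 1 := by
  obtain ⟨s, hs⟩ := sel (X := H ⧸ ι.range) (fun q => τ • q)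
    (fun q => by simp only [smul_smul, hτ, one_smul]) (fun q => by
      induction q using QuotientGroup.induction_on with | H p => ?_
      intro h
      change ((τ * p : H) : H ⧸ ι.range) = (p : H ⧸ ι.range) at h
      obtain ⟨k, hk⟩ := QuotientGroup.eq.1 h.symm
      obtain ⟨j, hj⟩ := hK
      have e1 : ι k ^ 2 = 1 := by
        rw [hk, sq]
        calc p⁻¹ * (τ * p) * (p⁻¹ * (τ * p)) = p⁻¹ * (τ * τ) * p := by group
          _ = 1 := by rw [hτ]; group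
      have e2 : ι k ^ Nat.card K = 1 := by rw [← map_pow, pow_card_eq_one', map_one]
      rw [hj, pow_succ, pow_mul, e1, one_pow, one_mul, hk] at e2
      apply h1
      calc τ = p * (p⁻¹ * (τ * p)) * p⁻¹ := by group
        _ = 1 := by rw [e2]; group)
  refine ⟨fun p => s (p : H ⧸ ι.range), fun p k => ?_, fun p => hs (p : H ⧸ ι.range)⟩
  exact congrArg s (QuotientGroup.eq.2 ⟨k⁻¹, by simp⟩)

theorem bd_nil {C m0 : ℕ} (hL : Lin G.row G.kind G.σ G.pos C m0)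
    (hi : ∀ a, Function.Injective (G.ι a)) {b : H} {m : (H → E → ZMod 2) → ZMod 2}
    (h : Bd G b [] m) (ψ : H → E → ZMod 2) : m ψ = 0 := by
  obtain ⟨D, _, Z, l, ⟨X⟩, -, hO, -, hl, -⟩ := h
  obtain ⟨Y, -, h1, -⟩ := X.reduce hL hi
  cases l with
  | cons x l => exact hl.elim
  | nil =>
    have h2 : Z.O = ∅ := eq_empty_of_forall_notMem fun x hx => by simpa using (hO x).1 hx
    rw [h2, card_empty, mul_zero, Nat.le_zero, card_eq_zero] at h1
    rw [← Y.ch ψ, h1, sum_empty]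

/-- The boundary sum of a family of functions along a word. -/
def Ph (ι : Kd → K →* H) (φ : Kd → H → ZMod 2) : H → List (Kd × K) → ZMod 2
  | _, [] => 0
  | p, c :: w => φ c.1 p + φ c.1 (p * ι c.1 c.2) + Ph ι φ (p * ι c.1 c.2) w

theorem ev_cons (ι : Kd → K →* H) (c : Kd × K) (w : List (Kd × K)) :
    ev ι (c :: w) = ι c.1 c.2 * ev ι w := by simp [ev]

theorem ev_append (ι : Kd → K →* H) (v w : List (Kd × K)) :
    ev ι (v ++ w) = ev ι v * ev ι w := by simp [ev]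

theorem ph_append (ι : Kd → K →* H) (φ : Kd → H → ZMod 2) : ∀ (v w : List (Kd × K)) (p : H),
    Ph ι φ p (v ++ w) = Ph ι φ p v + Ph ι φ (p * ev ι v) w
  | [], w, p => by simp [Ph, ev]
  | c :: v, w, p => by
    rw [List.cons_append, Ph, Ph, ph_append ι φ v w, ev_cons, ← mul_assoc]
    ring

theorem ph_tau (ι : Kd → K →* H) {φ t : Kd → H → ZMod 2} {s : H → ZMod 2} {τ : H}
    (ht : ∀ a p k, t a (p * ι a k) = t a p)
    (hφ : ∀ a p, φ a (τ * p) = φ a p + (s p + t a p)) : ∀ (w : List (Kd × K)) (p : H),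
    Ph ι φ p w + Ph ι φ (τ * p) w = s p + s (p * ev ι w)
  | [], p => by
    simp only [Ph, ev, List.map_nil, List.prod_nil, mul_one]
    generalize s p = u
    revert u
    decide
  | c :: w, p => by
    have ih := ph_tau ι ht hφ w (p * ι c.1 c.2)
    rw [Ph, Ph, ev_cons, mul_assoc τ, hφ, hφ, ht, ← mul_assoc p]
    have h2 : (2 : ZMod 2) = 0 := rfl
    linear_combination ih + (φ c.1 p + φ c.1 (p * ι c.1 c.2) + t c.1 p + s (p * ι c.1 c.2)) * h2

theorem ph_lab {D : Type} {Z : Out Kd H D} (φ : Kd → H → ZMod 2) :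
    ∀ (l : List D) (w : List (Kd × K)) (p : H), Lab G Z p l w →
      (l.map fun x => φ (Z.κ x) (Z.A x) + φ (Z.κ x) (Z.B x)).sum = Ph G.ι φ p w
  | [], [], _, _ => rfl
  | [], _ :: _, _, h => h.elim
  | _ :: _, [], _, h => h.elim
  | x :: l, c :: w, p, h => by
    obtain ⟨h1, h2, h3, h4⟩ := h
    rw [List.map_cons, List.sum_cons, ph_lab φ l w _ h4, h1, h2, h3, Ph]

variable {D : Type} [Fintype D] {Z : Out Kd H D} {m : (H → E → ZMod 2) → ZMod 2}

omit [Fintype D] in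
theorem sum_f (X : Dev G Z m) (F : D → ZMod 2) : ∑ x ∈ X.T, F (X.f x) = ∑ x ∈ X.T, F x :=
  sum_equiv X.f (fun x => (X.f_iff x).symm) fun _ _ => rfl

omit [Fintype D] in
theorem sum_hub (X : Dev G Z m) (φ : Kd → H → ZMod 2) :
    ∑ x ∈ X.T, (φ (Z.κ x) (X.A x) + φ (Z.κ x) (X.B x)) =
      ∑ x ∈ Z.O, (φ (Z.κ x) (Z.A x) + φ (Z.κ x) (Z.B x)) := by
  have hd : Disjoint X.T Z.O := disjoint_left.2 X.disj
  have e1 : ∑ x ∈ X.T ∪ Z.O, φ (Z.κ x) (X.A x) = ∑ x ∈ X.T ∪ Z.O, φ (Z.κ x) (X.B x) :=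
    sum_equiv X.h (fun x => by simp only [mem_union]; exact X.h_live.symm) fun x hx => by
      have h := X.hub x (mem_union.1 hx)
      rw [h.1, h.2]
  rw [sum_union hd, sum_union hd] at e1
  have e2 : ∑ x ∈ Z.O, (φ (Z.κ x) (Z.A x) + φ (Z.κ x) (Z.B x)) =
      ∑ x ∈ Z.O, (φ (Z.κ x) (X.A x) + φ (Z.κ x) (X.B x)) :=
    sum_congr rfl fun x hx => by rw [(X.out x hx).2.1, (X.out x hx).2.2]
  rw [e2, sum_add_distrib, sum_add_distrib]
  have h2 : (2 : ZMod 2) = 0 := rfl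
  linear_combination e1 + (∑ x ∈ X.T, φ (Z.κ x) (X.B x) - ∑ x ∈ Z.O, φ (Z.κ x) (X.A x)) * h2

omit [Fintype D] in
theorem dev_sum (X : Dev G Z m) {φ t : Kd → H → ZMod 2} {s : H → ZMod 2} {τ : H}
    (hs : ∀ p, s (τ * p) = s p + 1) (ht : ∀ a p k, t a (p * G.ι a k) = t a p)
    (hφ : ∀ a p, φ a (τ * p) = φ a p + (s p + t a p)) :
    m (fun g e => s g * φ (G.kind (G.row e)) (g * G.pt e)) +
      m (fun g e => s (τ * g) * φ (G.kind (G.row e)) (τ * g * G.pt e)) =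
      ∑ x ∈ Z.O, (φ (Z.κ x) (Z.A x) + φ (Z.κ x) (Z.B x)) := by
  have h2 : (2 : ZMod 2) = 0 := rfl
  rw [← X.ch, ← X.ch, ← sum_add_distrib, ← sum_hub X φ]
  have key : ∀ x ∈ X.T,
      cl G.σ (fun g e => s g * φ (G.kind (G.row e)) (g * G.pt e)) (X.γ x) (X.lk x) +
      cl G.σ (fun g e => s (τ * g) * φ (G.kind (G.row e)) (τ * g * G.pt e)) (X.γ x) (X.lk x) =
      (φ (Z.κ (X.f x)) (X.A (X.f x)) + φ (Z.κ x) (X.B x)) +
        ((s (X.γ x) + 1) * t (Z.κ x) (X.A x) +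
          (s (X.γ (X.f x)) + 1) * t (Z.κ (X.f x)) (X.A (X.f x))) := fun x hx => by
    obtain ⟨i1, ⟨k1, i2⟩, ⟨k2, i3⟩, i4, i5⟩ := X.inn x hx
    have j1 := (X.inn _ (X.fT x hx)).1
    have e1 : t (Z.κ x) (X.A x) = t (Z.κ x) (X.B x) := by
      rw [i2, i3, ← mul_assoc, ← mul_assoc, i1, ht, ht]
    rw [e1, i4, i5]
    rcases hl : X.lk x with _ | e
    · rw [← j1, X.stay x hx hl, i1]
      simp only [cl, Option.elim]
      linear_combination (-(φ (Z.κ x) (X.B x)) - (s (X.γ x) + 1) * t (Z.κ x) (X.B x)) * h2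
    · obtain ⟨c1, c2, c3, c4⟩ := X.cross x hx e hl
      have e2 : G.pt (G.σ e) = G.pt e := (G.edge e c1).symm
      simp only [cl, Option.elim]
      rw [e2, c2, c3, i1, j1, mul_assoc τ, ← c4, hs, hφ, hφ]
      linear_combination (s (X.γ x) * φ (Z.κ x) (X.B x) + s (X.γ x) * φ (Z.κ (X.f x)) (X.B x) +
        (s (X.γ x) + 1) * s (X.B x)) * h2
  rw [sum_congr rfl key, sum_add_distrib, sum_add_distrib, sum_add_distrib, sum_add_distrib,
    sum_f X fun x => φ (Z.κ x) (X.A x), sum_f X fun x => (s (X.γ x) + 1) * t (Z.κ x) (X.A x)]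
  linear_combination (∑ x ∈ X.T, (s (X.γ x) + 1) * t (Z.κ x) (X.A x)) * h2

end Ni

open Ni in
/-- The universal group has no element of order two. -/
theorem noinv_row (hV : VK G) {C m0 : ℕ} (hL : Lin G.row G.kind G.σ G.pos C m0)
    (hK : Odd (Nat.card K)) (τ : H) (hτ : τ ^ 2 = 1) : τ = 1 := by
  by_contra h1
  rw [sq] at hτ
  have h2 : (2 : ZMod 2) = 0 := rfl
  obtain ⟨w, hw⟩ := hV.gen τ
  have hww : ev G.ι (w ++ w) = 1 := by rw [ev_append, hw, hτ]
  obtain ⟨m, hm⟩ := hV.ex _ 1 hww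
  obtain ⟨μ, hμ⟩ := hV.uniq _ hww
  have a1 := bd_nil hL hV.inj (hμ _ _ hm)
  have a2 := bd_nil hL hV.inj (hμ _ _ (hV.rot _ _ _ _ hm))
  rw [one_mul, hw] at a2
  have hinv : ∀ ψ, m ψ + m (fun g e => ψ (τ * g) e) = 0 := fun ψ => by
    have b1 := a1 fun g e => ψ (τ * g) e
    have b2 := a2 ψ
    simp only [Pi.add_apply, act, one_mul] at b1 b2
    linear_combination b1 + b2 - (μ fun x e => ψ (τ * x) e) * h2
  obtain ⟨s, hs⟩ := sel (X := H) (fun p => τ * p)
    (fun p => by simp only [← mul_assoc, hτ, one_mul]) fun p h => h1 (mul_eq_right.1 h)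
  choose t ht1 ht2 using fun a => sel_coset (G.ι a) hK hτ h1
  have hφ : ∀ a p, (fun a p => s p * (1 + t a p)) a (τ * p) =
      (fun a p => s p * (1 + t a p)) a p + (s p + t a p) := fun a p => by
    simp only [hs, ht2]
    linear_combination (1 : ZMod 2) * h2
  obtain ⟨D, _, Z, l, ⟨X⟩, hn, hO, -, hl, -⟩ := hm
  have c1 := dev_sum (φ := fun a p => s p * (1 + t a p)) X hs ht1 hφ
  have c2 := ph_lab (fun a p => s p * (1 + t a p)) l _ _ hl
  have c3 := ph_tau (φ := fun a p => s p * (1 + t a p)) G.ι ht1 hφ w 1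
  have hOl : Z.O = l.toFinset := by
    ext x
    rw [hO, List.mem_toFinset]
  rw [hinv fun g e => s g * (s (g * G.pt e) * (1 + t (G.kind (G.row e)) (g * G.pt e))), hOl,
    List.sum_toFinset _ hn, c2, ph_append, one_mul, hw] at c1
  rw [mul_one, one_mul, hw, ← c1] at c3
  have c4 := hs 1
  rw [mul_one] at c4
  rw [c4] at c3
  revert c3
  generalize s 1 = u
  revert u
  decide

end Pool.Agent.MP_434e52_an.H29
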