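import Pool.Agent.MP_434e52_an.HG.D1

/-! Short alternating words are not trivial. -/

namespace Pool.Agent.MP_434e52_an.H29

open Equiv Finset Pool.Agent.MP_c6eade_gt.H41
open scoped Classical

variable {R E Kd K H : Type} [Group K] [Group H] {G : Gd R E Kd K H}

namespace Sh51

theorem pth_congr {D : Type} {f g : D → D} : ∀ (l : List D) (e : D), B1x.Pth f l e →
    (∀ x ∈ l, g x = f x) → B1x.Pth g l e
  | [], _, _, _ => trivial
  | a :: l, e, h, hg => ⟨(hg a (by simp)).trans h.1,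
      pth_congr l e h.2 fun x hx => hg x (List.mem_cons_of_mem _ hx)⟩

theorem pth_all {D : Type} {f : Perm D} : ∀ (l : List D) (e : D), B1x.Pth f l e →
    ∀ x ∈ l, f.SameCycle x e
  | [], _, _, _, hx => by simp at hx
  | a :: l, e, h, x, hx => by
    rcases List.mem_cons.1 hx with rfl | hx
    · exact B1x.pth_same l x e h
    · exact pth_all l e h.2 x hx

theorem pth_get {D : Type} {f : D → D} : ∀ (l : List D) (e : D), B1x.Pth f l e →
    ∀ (i : ℕ) (hi : i < l.length), f l[i] = l.getD (i + 1) e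
  | [], _, _, _, hi => by simp at hi
  | a :: l, e, h, 0, _ => by
    have h1 := h.1
    cases l <;> simpa using h1
  | a :: l, e, h, i + 1, hi => by
    have h1 := pth_get l e h.2 i (by simpa using hi)
    simpa using h1

theorem lab_facts {D : Type} {Z : Out Kd H D} : ∀ (p : H) (l : List D) (w : List (Kd × K)),
    Lab G Z p l w → l.map Z.κ = w.map Prod.fst ∧
      ∀ x ∈ l, ∃ c ∈ w, Z.B x = Z.A x * G.ι c.1 c.2
  | _, [], [], _ => by simp
  | p, x :: l, c :: w, h => by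
    obtain ⟨h1, h2, h3, h4⟩ := h
    obtain ⟨i1, i2⟩ := lab_facts _ l w h4
    refine ⟨by simp [h1, i1], fun y hy => ?_⟩
    rcases List.mem_cons.1 hy with rfl | hy
    · exact ⟨c, by simp, by rw [h2, h3]⟩
    · obtain ⟨d, hd, e⟩ := i2 y hy
      exact ⟨d, List.mem_cons_of_mem _ hd, e⟩
  | _, [], _ :: _, h => h.elim
  | _, _ :: _, [], h => h.elim

/-- A genus zero map with one face has a fixed point of `h` or of `h * f`. -/
theorem one_face {D : Type} [Fintype D] {f h : Perm D} (O : Finset D) (h0 : gen f h ≤ 0)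
    (hd : ∀ x, x ∉ O → f x = x ∧ h x = x) (hO : O.Nonempty)
    (hs : ∀ x ∈ O, ∀ y ∈ O, f.SameCycle x y) (h1 : ∀ x ∈ O, h x ≠ x)
    (h2 : ∀ x ∈ O, h (f x) ≠ x) : False := by
  have e0 : ∑ x ∈ O, A2x.loc f h x ≤ 0 := by
    have : (gen f h : ℚ) ≤ 0 := by exact_mod_cast h0
    rw [A2x.gen_eq_sum, ← sum_add_sum_compl O, sum_eq_zero (s := Oᶜ) fun x hx =>
      A2x.loc_fixed (hd x (mem_compl.1 hx)).1 (hd x (mem_compl.1 hx)).2, add_zero] at this
    exact this
  have mf : ∀ x, f x ∈ O ↔ x ∈ O :=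
    A2x.mem_iff fun x hx => B2x.mem_of_dead (fun x c => (hd x c).1) hx
  have mh : ∀ x, h x ∈ O ↔ x ∈ O :=
    A2x.mem_iff fun x hx => B2x.mem_of_dead (fun x c => (hd x c).2) hx
  refine absurd e0 (not_le.2 (sum_pos (fun x hx => ?_) hO))
  have k1 := A2x.inv_len_le (card_pos.2 hO) (A2x.le_len (r := A2x.sc f) (hs x hx))
  have k2 := A2x.inv_len_le (by norm_num) (A2x.two_le_len (h1 x hx))
  have k3 := A2x.inv_len_le (by norm_num)
    (A2x.two_le_len (f := h * f) (x := x) (by rw [Perm.mul_apply]; exact h2 x hx))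
  have k4 : A2x.len (A2x.os f h) x ≤ #O :=
    card_le_card fun y hy => (A2x.os_inv (p := (· ∈ O)) mf mh (by simpa using hy)).1 hx
  have k5 : (1 : ℚ) / #O ≤ 1 / A2x.len (A2x.os f h) x :=
    one_div_le_one_div_of_le (by exact_mod_cast A2x.len_pos _ _) (by exact_mod_cast k4)
  have k6 : (0 : ℚ) < 1 / #O := by
    have : (0 : ℚ) < #O := by exact_mod_cast card_pos.2 hO
    positivity
  have k7 : (2 : ℚ) / A2x.len (A2x.os f h) x = 2 * (1 / A2x.len (A2x.os f h) x) := by ring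
  unfold A2x.loc
  push_cast at k2 k3
  linarith

end Sh51

open Sh51 in
/-- Row SHORT. -/
theorem short_row (hV : VK G) {C m0 : ℕ} (hL : Lin G.row G.kind G.σ G.pos C m0) (hC : 8 * C < m0)
    (n : ℕ) (w : Fin (n + 1) → Kd × K) (hn : n + 1 ≤ 8) (h1 : ∀ i, (w i).2 ≠ 1)
    (h2 : n = 0 ∨ ∀ i, (w (i + 1)).1 ≠ (w i).1) : ev G.ι (List.ofFn w) ≠ 1 := by
  intro hw
  have hne : ∀ i, G.ι (w i).1 (w i).2 ≠ 1 := fun i c =>
    h1 i (hV.inj _ (c.trans (map_one _).symm))
  rcases h2 with rfl | h2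
  · exact hne 0 (by simpa [ev] using hw)
  obtain ⟨m, D, _, Z, l, ⟨X⟩, hnd, hO, hP, hLab, -⟩ := hV.ex _ 1 hw
  obtain ⟨Y, -, hT, hm⟩ := X.reduce hL hV.inj
  obtain ⟨a1, a2⟩ := lab_facts _ _ _ hLab
  have hlen : l.length = n + 1 := by simpa using congrArg List.length a1
  have hcard : #Z.O = n + 1 := by
    rw [← hlen, ← List.toFinset_card_of_nodup hnd]
    congr 1
    ext x
    rw [hO, List.mem_toFinset]
  have hT0 : Y.T = ∅ := by
    by_contra c
    have h3 := hm (nonempty_iff_ne_empty.2 c)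
    have h4 : C * #Z.O ≤ C * 8 := Nat.mul_le_mul_left _ (by omega)
    omega
  have hd : ∀ x, x ∉ Z.O → Y.f x = x ∧ Y.h x = x := fun x hx => Y.dead x (by simp [hT0]) hx
  have h0 : 0 < l.length := by omega
  have hP1 : B1x.Pth Y.f l l[0] := pth_congr l _ (hP _ (by
    rw [List.head?_eq_getElem?, List.getElem?_eq_getElem h0])) fun x hx =>
      (Y.out x ((hO x).2 hx)).1
  have mf : ∀ x ∈ Z.O, Y.f x ∈ Z.O := fun x hx => B2x.mem_of_dead (fun x c => (hd x c).1) hx
  have hκ : ∀ (i : ℕ) (hi : i < l.length), Z.κ l[i] = (w ⟨i, hlen ▸ hi⟩).1 := fun i hi => by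
    have h3 : (l.map Z.κ)[i]'(by simpa using hi) =
        ((List.ofFn w).map Prod.fst)[i]'(by simpa [hlen] using hi) := by simp only [a1]
    simpa only [List.getElem_map, List.getElem_ofFn] using h3
  refine one_face Z.O Y.planar hd (card_pos.1 (by omega)) (fun x hx y hy =>
    (pth_all l _ hP1 x ((hO x).1 hx)).trans (pth_all l _ hP1 y ((hO y).1 hy)).symm)
    (fun x hx c => ?_) fun x hx c => ?_
  · obtain ⟨d, hd', e⟩ := a2 x ((hO x).1 hx)
    obtain ⟨i, rfl⟩ := (List.mem_ofFn' _ _).1 hd'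
    have h3 := (Y.hub x (Or.inr hx)).2
    rw [c, (Y.out x hx).2.1, (Y.out x hx).2.2, e] at h3
    exact hne i (by simpa using h3)
  · have h3 := (Y.hub _ (Or.inr (mf x hx))).1
    rw [c] at h3
    obtain ⟨i, hi, rfl⟩ := List.getElem_of_mem ((hO x).1 hx)
    rw [pth_get l _ hP1 i hi, hκ i hi] at h3
    refine h2 ⟨i, hlen ▸ hi⟩ ?_
    rw [h3]
    by_cases c1 : i + 1 < l.length
    · rw [List.getD_eq_getElem _ _ c1, hκ _ c1]
      congr 2
      apply Fin.ext
      rw [Fin.val_add_one_of_lt (by rw [Fin.lt_def]; simp only [Fin.val_last]; omega)]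
    · rw [List.getD_eq_default _ _ (by omega), hκ 0 h0]
      congr 2
      have h4 : (⟨i, hlen ▸ hi⟩ : Fin (n + 1)) = Fin.last n := Fin.ext (by
        simp only [Fin.val_last]; omega)
      rw [h4, Fin.last_add_one]
      rfl

end Pool.Agent.MP_434e52_an.H29
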