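import Pool.Agent.MP_434e52_an.HG.D2
import Pool.Agent.MP_434e52_an.HG.DShort
import Pool.Agent.MP_434e52_an.HG.DIso
import Pool.Agent.MP_434e52_an.HG.DNoinv

/-! The universal group of a graph whose reduced diagrams satisfy the linear bound. -/

namespace Pool.Agent.MP_434e52_an.H29

theorem diag {R E Kd K : Type} [Group K] [Finite E] {row : E → R} {kind : R → Kd} {σ : E → E}
    {pos : E → K} (hσ : ∀ e, σ (σ e) = e) (hk : Function.Surjective kind) {C m : ℕ}
    (hL : Lin row kind σ pos C m) (hC : 8 * C < m) :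
    ∃ (H : Type) (_ : Group H) (ι : Kd → K →* H) (gr : R → H), Pack row kind σ pos H ι gr := by
  obtain ⟨H, _, ι, gr, he, hV, hl⟩ := exists_vk hσ hk (sol_of_lin hσ hk hL (by omega))
  refine ⟨H, inferInstance, ι, gr, hV.inj, ?_, he, hl, short_row hV hL hC, iso_row hV hL,
    noinv_row hV hL⟩
  refine eq_top_iff.2 fun h _ => ?_
  obtain ⟨w, rfl⟩ := hV.gen h
  induction w with
  | nil => exact one_mem _
  | cons x w ih =>
    rw [ev_cons]
    exact mul_mem (Subgroup.mem_iSup_of_mem x.1 ⟨x.2, rfl⟩) (ih trivial)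

end Pool.Agent.MP_434e52_an.H29
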