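import Pool.Agent.MP_c6eade_gt.H41.Basic

/-! Cayley graphs with large girth and a spectral gap. -/

namespace Pool.Agent.MP_434e52_an.H29G

open Finset
open scoped Classical

section words
variable {Q I : Type} [Group Q]

/-- A letter. -/
def lt (s : I → Q) (j : I) (b : Bool) : Q := if b then s j else (s j)⁻¹

/-- The product of the first `m` letters. -/
def W (s : I → Q) (i : ℕ → I) (e : ℕ → Bool) : ℕ → Q
  | 0 => 1
  | m + 1 => W s i e m * lt s (i m) (e m)

theorem W_congr (s : I → Q) {i i' : ℕ → I} {e e' : ℕ → Bool} {m : ℕ}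
    (h : ∀ t, t < m → i t = i' t ∧ e t = e' t) : W s i e m = W s i' e' m := by
  induction m with
  | zero => rfl
  | succ m ih =>
    rw [W, W, ih fun t ht => h t (by omega), (h m (by omega)).1, (h m (by omega)).2]

theorem W_agree {s s' : I → Q} {i : ℕ → I} {e : ℕ → Bool} {m : ℕ}
    (h : ∀ t, t < m → s (i t) = s' (i t)) : W s i e m = W s' i e m := by
  induction m with
  | zero => rfl
  | succ m ih => rw [W, W, ih fun t ht => h t (by omega), lt, lt, h m (by omega)]

theorem W_free [DecidableEq I] (s : I → Q) {i : ℕ → I} (e : ℕ → Bool) {m : ℕ} {j : I} (x : Q)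
    (h : ∀ t, t < m → i t ≠ j) : W (Function.update s j x) i e m = W s i e m :=
  W_agree fun t ht => Function.update_of_ne (h t ht) _ _

theorem W_lin [DecidableEq I] (s : I → Q) {i : ℕ → I} (e : ℕ → Bool) {m t0 : ℕ} (h0 : t0 < m)
    (h : ∀ t, t < m → t ≠ t0 → i t ≠ i t0) :
    Function.Injective fun x => W (Function.update s (i t0) x) i e m := by
  induction m with
  | zero => omega
  | succ m ih =>
    intro x y hxy
    simp only [W] at hxy
    by_cases c : t0 = m
    · subst c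
      rw [W_free s e x fun t ht => h t (by omega) (by omega),
        W_free s e y fun t ht => h t (by omega) (by omega)] at hxy
      have := mul_left_cancel hxy
      unfold lt at this
      split_ifs at this <;> simpa using this
    · have e1 : ∀ z, lt (Function.update s (i t0) z) (i m) (e m) = lt s (i m) (e m) := fun z => by
        unfold lt
        rw [Function.update_of_ne (h m (by omega) (Ne.symm c))]
      rw [e1, e1] at hxy
      exact ih (by omega) (fun t ht => h t (by omega)) (mul_right_cancel hxy)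

theorem W_pi {N : Type} (s : I → N → Q) (i : ℕ → I) (e : ℕ → Bool) (m : ℕ) (n : N) :
    W s i e m n = W (fun j => s j n) i e m := by
  induction m with
  | zero => rfl
  | succ m ih =>
    rw [W, W, Pi.mul_apply, ih]
    unfold lt
    split_ifs <;> rfl

omit [Group Q] in
/-- At most one value of the coordinate `j` makes `φ` true. -/
theorem count_lin [Fintype Q] [Fintype I] [DecidableEq I] (φ : (I → Q) → Prop)
    [DecidablePred φ] (j : I)
    (h : ∀ s x y, φ (Function.update s j x) → φ (Function.update s j y) → x = y) :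
    #{s : I → Q | φ s} * Fintype.card Q ≤ Fintype.card (I → Q) := by
  rw [← card_univ (α := Q), ← card_product, ← card_univ]
  refine card_le_card_of_injOn (fun c => Function.update c.1 j c.2) (fun _ _ => by simp) ?_
  rintro ⟨s, x⟩ h1 ⟨s', x'⟩ h2 e
  simp only [coe_product, Set.mem_prod, coe_filter, mem_univ, true_and, Set.mem_ofPred_eq] at h1 h2
  have e' : Function.update s j x = Function.update s' j x' := e
  have e1 : x = x' := by simpa using congrFun e' j
  have e2 : ∀ y, Function.update s j y = Function.update s' j y := fun y => by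
    rw [← Function.update_idem (f := s) x y, e', Function.update_idem]
  have e3 : s j = s' j := h s _ _ (by simpa using h1.1) (by rw [e2]; simpa using h2.1)
  refine Prod.ext ?_ e1
  have := e2 (s j)
  rwa [Function.update_eq_self, e3, Function.update_eq_self] at this

end words

/-- Symmetric groups have no short law. -/
theorem no_law {I : Type} (g : ℕ) (i : ℕ → I) (e : ℕ → Bool) {L : ℕ} (h0 : 0 < L) (hL : L ≤ g)
    (h : ∀ t, t + 1 < L → i t ≠ i (t + 1)) :
    ∃ a : I → Equiv.Perm (Fin (g + 2)), W a i e L ≠ 1 := by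
  let f : I → ℕ → ℕ := fun j t =>
    if t < L ∧ i t = j then t + 1 else if 0 < t ∧ t ≤ L ∧ i (t - 1) = j then t - 1 else t
  have f1 : ∀ j t, t < L → i t = j → f j t = t + 1 := fun j t a b => if_pos ⟨a, b⟩
  have f2 : ∀ j t, t < L → i t = j → f j (t + 1) = t := fun j t a b => by
    have c : ¬ (t + 1 < L ∧ i (t + 1) = j) := fun c => h t c.1 (b.trans c.2.symm)
    simp only [f, if_neg c]
    rw [if_pos ⟨by omega, by omega, by simpa using b⟩]
    rfl
  have f3 : ∀ j t, f j (f j t) = t := fun j t => by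
    by_cases c : t < L ∧ i t = j
    · rw [f1 j t c.1 c.2, f2 j t c.1 c.2]
    by_cases d : 0 < t ∧ t ≤ L ∧ i (t - 1) = j
    · have : f j t = t - 1 := by simp only [f, if_neg c, if_pos d]
      rw [this, f1 j (t - 1) (by omega) d.2.2]
      omega
    · have : f j t = t := by simp only [f, if_neg c, if_neg d]
      rw [this, this]
  have f4 : ∀ j t, t < g + 2 → f j t < g + 2 := fun j t a => by
    simp only [f]
    split_ifs <;> omega
  let F : I → Fin (g + 2) → Fin (g + 2) := fun j t => ⟨f j t, f4 j t t.2⟩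
  have hF : ∀ j, Function.Involutive (F j) := fun j t => Fin.ext (f3 j t)
  refine ⟨fun j => (hF j).toPerm _, fun hw => ?_⟩
  have key : ∀ m (hm : m ≤ L), W (fun j => (hF j).toPerm _) i e m ⟨m, by omega⟩ = 0 := by
    intro m
    induction m with
    | zero => intro _; rfl
    | succ m ih =>
      intro hm
      have e1 : lt (fun j => (hF j).toPerm _) (i m) (e m) ⟨m + 1, by omega⟩ = ⟨m, by omega⟩ := by
        unfold lt
        split_ifs <;> exact Fin.ext (f2 _ m (by omega) rfl)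
      rw [W, Equiv.Perm.mul_apply, e1, ih (by omega)]
  have := key L le_rfl
  rw [hw] at this
  have := congrArg Fin.val this
  simp at this
  omega

/-- Number of assignments that kill a word. -/
noncomputable def nW (S : Type) {I : Type} [Group S] [Fintype S] [Fintype I] [DecidableEq I]
    (i : ℕ → I) (e : ℕ → Bool) (L : ℕ) : ℕ := #{s : I → S | W s i e L = 1}

/-- Few assignments kill a word that is not a law. -/
theorem count_law {S I : Type} [Group S] [Fintype S] [Fintype I] [DecidableEq I] {g L : ℕ} (hL : L ≤ g)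
    {i : ℕ → I} {e : ℕ → Bool} {a : I → S} (ha : W a i e L ≠ 1) :
    (nW S i e L : ℝ) ≤ (1 - 1 / (Fintype.card S : ℝ) ^ g) * Fintype.card (I → S) := by
  unfold nW
  have c0 : (1 : ℝ) ≤ Fintype.card S := by exact_mod_cast Fintype.card_pos
  set J : Finset I := (range L).image i with hJ
  have h1 : #J ≤ g := card_image_le.trans (by simpa using hL)
  have h2 : Fintype.piFinset (fun j => if j ∈ J then {a j} else (univ : Finset S)) ⊆
      univ.filter fun s : I → S => ¬ W s i e L = 1 := by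
    intro s hs
    simp only [mem_filter, mem_univ, true_and]
    rw [W_agree (s' := a) fun t ht => ?_]
    · exact ha
    have := Fintype.mem_piFinset.1 hs (i t)
    rwa [if_pos (mem_image_of_mem _ (mem_range.2 ht)), mem_singleton] at this
  have h3 := card_le_card h2
  rw [Fintype.card_piFinset] at h3
  have h4 : (∏ j, #(if j ∈ J then {a j} else (univ : Finset S))) * Fintype.card S ^ #J =
      Fintype.card (I → S) := by
    rw [Fintype.card_fun, ← prod_const, ← prod_ite_mem_eq (s := J), ← prod_mul_distrib,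
      ← card_univ (α := I), ← prod_const]
    refine prod_congr rfl fun j _ => ?_
    split_ifs <;> simp
  have h5 := card_filter_add_card_filter_not (s := (univ : Finset (I → S)))
    (fun s => W s i e L = 1)
  rw [card_univ] at h5
  have h6 : (Fintype.card (I → S) : ℝ) ≤
      #{s : I → S | ¬ W s i e L = 1} * (Fintype.card S : ℝ) ^ g := by
    rw [← h4]
    exact_mod_cast Nat.mul_le_mul h3 (Nat.pow_le_pow_right Fintype.card_pos h1)
  have h7 : (0 : ℝ) < (Fintype.card S : ℝ) ^ g := by positivity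
  have h8 : (#{s : I → S | W s i e L = 1} : ℝ) + #{s : I → S | ¬ W s i e L = 1} =
      Fintype.card (I → S) := by exact_mod_cast h5
  rw [← div_le_iff₀ h7] at h6
  rw [sub_mul, one_mul, one_div_mul_eq_div]
  linarith

theorem count_pi {S I : Type} [Group S] [Fintype S] [Fintype I] [DecidableEq I] (N L : ℕ) (i : ℕ → I)
    (e : ℕ → Bool) : nW (Fin N → S) i e L = nW S i e L ^ N := by
  unfold nW
  rw [← Fintype.card_piFinset_const]
  refine card_bij (fun s _ n j => s j n) (fun s hs => ?_) (fun s _ s' _ h => ?_) fun t ht => ?_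
  · refine Fintype.mem_piFinset.2 fun n => ?_
    simp only [mem_filter, mem_univ, true_and] at hs ⊢
    rw [← W_pi, hs]
    rfl
  · funext j n
    exact congrFun (congrFun h n) j
  · refine ⟨fun j n => t n j, ?_, rfl⟩
    simp only [mem_filter, mem_univ, true_and]
    funext n
    rw [W_pi]
    simpa using Fintype.mem_piFinset.1 ht n


section trace
variable {Q : Type} [Group Q] [Fintype Q] {D : ℕ}

/-- Extension of a finite sequence. -/
def ext {I : Type} (j0 : I) {m : ℕ} (u : Fin m → I) (t : ℕ) : I :=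
  if h : t < m then u ⟨t, h⟩ else j0

/-- Alternating signs. -/
def alt (b : Bool) (t : ℕ) : Bool := if t % 2 = 0 then b else !b

/-- Number of alternating words of length `m` with value `z`. -/
noncomputable def cnt (s : Fin D → Q) (j0 : Fin D) (b : Bool) (m : ℕ) (z : Q) : ℕ :=
  #{u : Fin m → Fin D | W s (ext j0 u) (alt b) m = z}

theorem cnt_sum (s : Fin D → Q) (j0 : Fin D) (b : Bool) (m : ℕ) :
    ∑ z, cnt s j0 b m z = D ^ m := by
  unfold cnt
  rw [← card_eq_sum_card_fiberwise (s := univ) (t := univ)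
    (f := fun u : Fin m → Fin D => W s (ext j0 u) (alt b) m) (fun _ _ => mem_univ _)]
  simp

theorem cnt_sq (s : Fin D → Q) (j0 : Fin D) (b : Bool) (m : ℕ) :
    ∑ z, cnt s j0 b m z ^ 2 = #{c : (Fin m → Fin D) × (Fin m → Fin D) |
      W s (ext j0 c.1) (alt b) m = W s (ext j0 c.2) (alt b) m} := by
  rw [card_eq_sum_card_fiberwise (f := fun c => W s (ext j0 c.1) (alt b) m) (t := univ)
    (fun _ _ => mem_univ _)]
  refine sum_congr rfl fun z _ => ?_
  rw [cnt, sq, ← card_product]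
  congr 1
  ext c
  simp only [mem_product, mem_filter, mem_univ, true_and]
  exact ⟨fun h => ⟨h.1.trans h.2.symm, h.1⟩, fun h => ⟨h.2, h.1.symm.trans h.2⟩⟩

/-- Sequences in which every value is repeated. -/
theorem count_rep {ι : Type} [Fintype ι] {m : ℕ} (hm : Fintype.card ι = 2 * m) (j0 : Fin D) :
    #{U : ι → Fin D | ∀ a, ∃ b, b ≠ a ∧ U b = U a} ≤ D ^ m * m ^ (2 * m) := by
  have h1 : (univ.filter fun U : ι → Fin D => ∀ a, ∃ b, b ≠ a ∧ U b = U a) ⊆
      (univ : Finset ((Fin m → Fin D) × (ι → Fin m))).image fun c => c.1 ∘ c.2 := by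
    intro U hU
    simp only [mem_filter, mem_univ, true_and] at hU
    have h2 : #(univ.image U) ≤ m := by
      have h3 := card_eq_sum_card_image U univ
      have h4 : ∑ _y ∈ univ.image U, 2 ≤ ∑ y ∈ univ.image U, #{a ∈ univ | U a = y} := by
        refine sum_le_sum fun y hy => ?_
        obtain ⟨a, -, rfl⟩ := mem_image.1 hy
        obtain ⟨b, h5, h6⟩ := hU a
        exact one_lt_card.2 ⟨b, by simpa using h6, a, by simp, h5⟩
      rw [← h3, card_univ, hm, sum_const, smul_eq_mul] at h4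
      omega
    let E := (univ.image U).equivFin
    refine mem_image.2 ⟨(fun t => if h : t.1 < #(univ.image U) then (E.symm ⟨t.1, h⟩).1 else j0,
      fun a => Fin.castLE h2 (E ⟨U a, mem_image_of_mem _ (mem_univ a)⟩)), mem_univ _, ?_⟩
    funext a
    simp
  refine (card_le_card h1).trans (card_image_le.trans (le_of_eq ?_))
  simp [hm]

theorem count_pair (j0 : Fin D) (b : Bool) (m : ℕ) (U : Fin m ⊕ Fin m → Fin D)
    (h : ¬ ∀ a, ∃ b, b ≠ a ∧ U b = U a) :
    #{s : Fin D → Q | W s (ext j0 (U ∘ .inl)) (alt b) m = W s (ext j0 (U ∘ .inr)) (alt b) m} *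
      Fintype.card Q ≤ Fintype.card (Fin D → Q) := by
  push Not at h
  obtain ⟨a, ha⟩ := h
  have x1 : ∀ (f : Fin m → Fin m ⊕ Fin m) t (h : t < m), ext j0 (U ∘ f) t = U (f ⟨t, h⟩) :=
    fun f t h => dif_pos h
  refine count_lin (fun s : Fin D → Q => W s (ext j0 (U ∘ .inl)) (alt b) m =
    W s (ext j0 (U ∘ .inr)) (alt b) m) (U a) fun s x y hx hy => ?_
  have key : ∀ (f f' : Fin m → Fin m ⊕ Fin m) (t0 : Fin m), Function.Injective f →
      (∀ t t', f t ≠ f' t') → f t0 = a →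
      W (Function.update s (U a) x) (ext j0 (U ∘ f)) (alt b) m =
        W (Function.update s (U a) x) (ext j0 (U ∘ f')) (alt b) m →
      W (Function.update s (U a) y) (ext j0 (U ∘ f)) (alt b) m =
        W (Function.update s (U a) y) (ext j0 (U ∘ f')) (alt b) m → x = y := by
    intro f f' t0 hf hff h0 gx gy
    have e0 : ∀ t, t < m → ext j0 (U ∘ f') t ≠ U a := fun t ht => by
      rw [x1 _ t ht]
      exact ha _ (h0 ▸ (hff _ _).symm)
    rw [W_free s _ x e0] at gx
    rw [W_free s _ y e0] at gy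
    have e1 : ext j0 (U ∘ f) t0 = U a := by rw [x1 _ t0 t0.2, h0]
    have := W_lin s (i := ext j0 (U ∘ f)) (alt b) t0.2 fun t ht h1 => by
      rw [x1 _ t ht, e1]
      exact ha _ fun g => h1 (congrArg Fin.val (hf (g.trans h0.symm)))
    rw [e1] at this
    exact this (gx.trans gy.symm)
  rcases a with a | a
  · exact key _ _ a Sum.inl_injective (fun _ _ => Sum.inl_ne_inr) rfl hx hy
  · exact key _ _ a Sum.inr_injective (fun _ _ => Sum.inr_ne_inl) rfl hx.symm hy.symm

/-- The excess energy. -/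
noncomputable def exc (s : Fin D → Q) (j0 : Fin D) (b : Bool) (m : ℕ) : ℝ :=
  Fintype.card Q * ∑ z, (cnt s j0 b m z : ℝ) ^ 2 - (D : ℝ) ^ (2 * m)

theorem exc_eq (s : Fin D → Q) (j0 : Fin D) (b : Bool) (m : ℕ) : exc s j0 b m =
    Fintype.card Q * ∑ z, ((cnt s j0 b m z : ℝ) - (D : ℝ) ^ m / Fintype.card Q) ^ 2 := by
  have c0 : (Fintype.card Q : ℝ) ≠ 0 := by exact_mod_cast Fintype.card_ne_zero
  have h1 : ∑ z, (cnt s j0 b m z : ℝ) = (D : ℝ) ^ m := by exact_mod_cast cnt_sum s j0 b m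
  simp only [sub_sq, sum_add_distrib, sum_sub_distrib, ← sum_mul, ← mul_sum, h1, sum_const,
    card_univ, nsmul_eq_mul, exc]
  rw [mul_comm 2 m, pow_mul]
  field_simp
  ring

theorem exc_sum (j0 : Fin D) (b : Bool) (m : ℕ) : ∑ s : Fin D → Q, exc s j0 b m ≤
    Fintype.card (Fin D → Q) * (Fintype.card Q * (D ^ m * m ^ (2 * m) : ℕ)) := by
  set Ω := Fintype.card (Fin D → Q) with hΩ
  have h1 : ∑ s : Fin D → Q, (∑ z, cnt s j0 b m z ^ 2) * Fintype.card Q =
      ∑ U : Fin m ⊕ Fin m → Fin D, #{s : Fin D → Q | W s (ext j0 (U ∘ .inl)) (alt b) m =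
        W s (ext j0 (U ∘ .inr)) (alt b) m} * Fintype.card Q := by
    rw [← sum_mul, ← sum_mul]
    congr 1
    simp only [cnt_sq, card_filter]
    rw [sum_comm]
    exact (Fintype.sum_equiv (Equiv.sumArrowEquivProdArrow _ _ _) _ _ fun U => rfl).symm
  have h2 : ∀ U : Fin m ⊕ Fin m → Fin D, #{s : Fin D → Q | W s (ext j0 (U ∘ .inl)) (alt b) m =
      W s (ext j0 (U ∘ .inr)) (alt b) m} * Fintype.card Q ≤
        Ω + if ∀ a, ∃ b, b ≠ a ∧ U b = U a then Ω * Fintype.card Q else 0 := fun U => by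
    split_ifs with h
    · exact le_add_left (Nat.mul_le_mul_right _ (card_le_univ _))
    · exact count_pair j0 b m U h
  have h3 := sum_le_sum fun U (_ : U ∈ (univ : Finset (Fin m ⊕ Fin m → Fin D))) => h2 U
  rw [← h1, sum_add_distrib, ← sum_filter, sum_const, sum_const, smul_eq_mul, smul_eq_mul,
    card_univ] at h3
  have h4 := count_rep (ι := Fin m ⊕ Fin m) (m := m) (by simp [two_mul]) j0
  have h5 : Fintype.card (Fin m ⊕ Fin m → Fin D) = D ^ (2 * m) := by simp [two_mul]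
  rw [h5] at h3
  have h6 := h3.trans (Nat.add_le_add_left (Nat.mul_le_mul_right (Ω * Fintype.card Q)
    (le_trans (card_le_card fun U hU => by
      simp only [mem_filter, mem_univ, true_and] at hU ⊢
      exact hU) h4)) _)
  have h7 : ∑ s : Fin D → Q, (∑ z, (cnt s j0 b m z : ℝ) ^ 2) * Fintype.card Q ≤
      (D : ℝ) ^ (2 * m) * Ω + (D ^ m * m ^ (2 * m) : ℕ) * (Ω * Fintype.card Q) := by
    exact_mod_cast h6
  simp only [exc, sum_sub_distrib, sum_const, card_univ, nsmul_eq_mul, ← hΩ,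
    mul_comm (Fintype.card Q : ℝ) (∑ _, _)]
  linarith

end trace


section gap
variable {Q : Type} [Group Q] [Fintype Q] {D : ℕ} {V : Type} [NormedAddCommGroup V]
  [InnerProductSpace ℂ V] (ρ : Q →* (V ≃ₗᵢ[ℂ] V))

/-- One step. -/
noncomputable def st (s : Fin D → Q) (b : Bool) (v : V) : V := ∑ j, ρ (lt s j b) v

/-- Many steps. -/
noncomputable def sts (s : Fin D → Q) (j0 : Fin D) (b : Bool) (m : ℕ) (v : V) : V :=
  ∑ u : Fin m → Fin D, ρ (W s (ext j0 u) (alt b) m) v

omit [Fintype Q] in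
theorem sts_succ (s : Fin D → Q) (j0 : Fin D) (b : Bool) (m : ℕ) (v : V) :
    sts ρ s j0 b (m + 1) v = sts ρ s j0 b m (st ρ s (alt b m) v) := by
  unfold sts st
  rw [← (Fin.snocEquiv fun _ => Fin D).sum_comp, Fintype.sum_prod_type, sum_comm]
  refine sum_congr rfl fun u _ => ?_
  rw [map_sum]
  refine sum_congr rfl fun j _ => ?_
  have e1 : ext j0 ((Fin.snocEquiv fun _ => Fin D) (j, u)) m = j := by
    unfold ext
    rw [dif_pos m.lt_succ_self]
    exact Fin.snoc_last (α := fun _ => Fin D) j u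
  rw [W, e1, W_congr s (i' := ext j0 u) (e' := alt b) fun t ht => ⟨?_, rfl⟩, map_mul]
  · rfl
  unfold ext
  rw [dif_pos ht, dif_pos (Nat.lt_succ_of_lt ht)]
  exact Fin.snoc_castSucc (α := fun _ => Fin D) j u ⟨t, ht⟩

omit [Fintype Q] in
theorem st_adj (s : Fin D → Q) (b : Bool) (v w : V) :
    inner ℂ (st ρ s b v) w = inner ℂ v (st ρ s (!b) w) := by
  unfold st
  rw [sum_inner, inner_sum]
  refine sum_congr rfl fun j _ => ?_
  have e : lt s j (!b) = (lt s j b)⁻¹ := by cases b <;> simp [lt]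
  rw [e, map_inv, ← (ρ (lt s j b)).inner_map_map v]
  congr 1
  exact ((ρ (lt s j b)).apply_symm_apply w).symm

omit [Fintype Q] in
theorem sts_even (s : Fin D → Q) (j0 : Fin D) (b : Bool) (k : ℕ) (v : V) :
    sts ρ s j0 b (2 * k) v = (fun w => st ρ s b (st ρ s (!b) w))^[k] v := by
  induction k generalizing v with
  | zero => simp [sts, W]
  | succ k ih =>
    rw [show 2 * (k + 1) = 2 * k + 1 + 1 by ring, sts_succ, sts_succ, ih,
      Function.iterate_succ_apply]
    have e1 : alt b (2 * k) = b := if_pos (by omega)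
    have e2 : alt b (2 * k + 1) = !b := if_neg (by omega)
    rw [e1, e2]

theorem sts_le (s : Fin D → Q) (j0 : Fin D) (b : Bool) (m : ℕ) {v : V} (hv : ∑ z, ρ z v = 0) :
    ‖sts ρ s j0 b m v‖ ^ 2 ≤ exc s j0 b m * ‖v‖ ^ 2 := by
  set μ : ℝ := (D : ℝ) ^ m / Fintype.card Q
  have h1 : sts ρ s j0 b m v = ∑ z, (((cnt s j0 b m z : ℝ) - μ : ℝ) : ℂ) • ρ z v := by
    simp only [Complex.ofReal_sub, sub_smul, sum_sub_distrib, ← smul_sum, hv, smul_zero, sub_zero]
    unfold sts cnt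
    rw [← sum_fiberwise (s := univ) (g := fun u : Fin m → Fin D => W s (ext j0 u) (alt b) m)]
    refine sum_congr rfl fun z _ => ?_
    rw [sum_congr rfl fun u hu => by rw [(mem_filter.1 hu).2], sum_const, Complex.ofReal_natCast,
      Nat.cast_smul_eq_nsmul]
  have h2 : ‖sts ρ s j0 b m v‖ ≤ (∑ z, |(cnt s j0 b m z : ℝ) - μ|) * ‖v‖ := by
    rw [h1, sum_mul]
    refine (norm_sum_le _ _).trans (le_of_eq (sum_congr rfl fun z _ => ?_))
    rw [norm_smul, Complex.norm_real, Real.norm_eq_abs, LinearIsometryEquiv.norm_map]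
  have h3 := sq_sum_le_card_mul_sum_sq (s := univ) (f := fun z => |(cnt s j0 b m z : ℝ) - μ|)
  simp only [sq_abs, card_univ] at h3
  rw [exc_eq]
  calc _ ≤ ((∑ z, |(cnt s j0 b m z : ℝ) - μ|) * ‖v‖) ^ 2 := by gcongr
    _ ≤ _ := by rw [mul_pow]; gcongr

omit [Fintype Q] in
theorem conv {T : V → V} (hT : ∀ v w, inner ℂ (T v) w = inner ℂ v (T w)) (v : V) (r : ℕ) :
    ‖T v‖ ^ 2 ^ r * ‖v‖ ≤ ‖T^[2 ^ r] v‖ * ‖v‖ ^ 2 ^ r := by
  have h1 : ∀ k v w, inner ℂ (T^[k] v) w = inner ℂ v (T^[k] w) := fun k => by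
    induction k with
    | zero => exact fun _ _ => rfl
    | succ k ih =>
      intro v w
      rw [Function.iterate_succ_apply, ih, hT, Function.iterate_succ_apply']
  have h2 : ∀ k, ‖T^[k] v‖ ^ 2 ≤ ‖v‖ * ‖T^[k * 2] v‖ := fun k => by
    rw [← inner_self_eq_norm_sq (𝕜 := ℂ), h1, ← Function.iterate_add_apply, mul_two]
    exact (RCLike.re_le_norm _).trans (norm_inner_le_norm _ _)
  induction r with
  | zero => simp
  | succ r ih =>
    rcases (norm_nonneg v).eq_or_lt with h0 | h0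
    · rw [← h0, mul_zero]
      positivity
    have h3 := h2 (2 ^ r)
    have h4 : (‖T v‖ ^ 2 ^ r * ‖v‖) ^ 2 ≤ (‖T^[2 ^ r] v‖ * ‖v‖ ^ 2 ^ r) ^ 2 := by gcongr
    rw [pow_succ 2 r, pow_mul, pow_mul]
    refine le_of_mul_le_mul_right ?_ h0
    have h5 : 0 ≤ (‖v‖ ^ 2 ^ r) ^ 2 := by positivity
    nlinarith [mul_le_mul_of_nonneg_right h3 h5]

theorem gap_rep (s : Fin D → Q) (j0 : Fin D) (b : Bool) (r : ℕ) {a : ℝ} (ha : 0 ≤ a)
    (h : exc s j0 (!b) (2 * 2 ^ r) ≤ (a ^ (2 * 2 ^ r)) ^ 2) {v : V} (hv : ∑ z, ρ z v = 0) :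
    ‖st ρ s b v‖ ≤ a * ‖v‖ := by
  rcases (norm_nonneg v).eq_or_lt with h0 | h0
  · rw [norm_eq_zero.1 h0.symm]
    simp [st]
  have h1 := sts_le ρ s j0 (!b) (2 * 2 ^ r) hv
  rw [sts_even, Bool.not_not] at h1
  have h2 := conv (T := fun w => st ρ s (!b) (st ρ s b w)) (fun v w => by
    rw [st_adj, st_adj, Bool.not_not]) v r
  have h3 : ‖(fun w => st ρ s (!b) (st ρ s b w))^[2 ^ r] v‖ ≤ a ^ (2 * 2 ^ r) * ‖v‖ :=
    (pow_le_pow_iff_left₀ (norm_nonneg _) (by positivity) two_ne_zero).1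
      (h1.trans (by rw [mul_pow]; gcongr))
  have h4 : ‖st ρ s (!b) (st ρ s b v)‖ ≤ a ^ 2 * ‖v‖ := by
    refine (pow_le_pow_iff_left₀ (norm_nonneg _) (by positivity)
      (n := 2 ^ r) (by positivity)).1 (le_of_mul_le_mul_right (h2.trans ?_) h0)
    rw [mul_pow, ← pow_mul]
    calc _ ≤ a ^ (2 * 2 ^ r) * ‖v‖ * ‖v‖ ^ 2 ^ r := by gcongr
      _ = _ := by ring
  refine (pow_le_pow_iff_left₀ (norm_nonneg _) (by positivity) two_ne_zero).1 ?_
  rw [← inner_self_eq_norm_sq (𝕜 := ℂ), st_adj]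
  refine (RCLike.re_le_norm _).trans ((norm_inner_le_norm _ _).trans ?_)
  calc _ ≤ ‖v‖ * (a ^ 2 * ‖v‖) := by gcongr
    _ = _ := by ring

end gap


section final

theorem gap_fun {Q : Type} [Group Q] [Fintype Q] {D : ℕ} (s : Fin D → Q) (b : Bool) {a : ℝ}
    (h : ∀ (V : Type) [NormedAddCommGroup V] [InnerProductSpace ℂ V] (ρ : Q →* (V ≃ₗᵢ[ℂ] V))
      (v : V), ∑ z, ρ z v = 0 → ‖st ρ s b v‖ ≤ a * ‖v‖)
    (V : Type) [NormedAddCommGroup V] [InnerProductSpace ℂ V] (f : Q → V) (hf : ∑ x, f x = 0) :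
    ∑ x, ‖∑ j, f (x * lt s j b)‖ ^ 2 ≤ a ^ 2 * ∑ x, ‖f x‖ ^ 2 := by
  let ρ : Q →* (PiLp 2 (fun _ : Q => V) ≃ₗᵢ[ℂ] PiLp 2 (fun _ : Q => V)) :=
    MonoidHom.mk' (fun z => LinearIsometryEquiv.piLpCongrLeft 2 ℂ V (Equiv.mulRight z⁻¹))
      fun z w => by
        ext F x
        exact congrArg F (show x * (z * w)⁻¹⁻¹ = x * z⁻¹⁻¹ * w⁻¹⁻¹ by simp [mul_assoc])
  have e : ∀ z (F : PiLp 2 (fun _ : Q => V)) x, ρ z F x = F (x * z) := fun z F x => by
    simp [ρ, Equiv.piCongrLeft']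
  have h1 := h _ ρ (WithLp.toLp 2 f) (by
    ext x
    rw [WithLp.ofLp_sum, Finset.sum_apply]
    simp only [e]
    exact (Equiv.sum_comp (Equiv.mulLeft x) f).trans hf)
  have h2 := pow_le_pow_left₀ (norm_nonneg _) h1 2
  rw [mul_pow, PiLp.norm_sq_eq_of_L2, PiLp.norm_sq_eq_of_L2] at h2
  refine le_trans (le_of_eq (sum_congr rfl fun x _ => ?_)) h2
  rw [st, WithLp.ofLp_sum, Finset.sum_apply]
  simp only [e]

/-- The matching of the bipartite Cayley graph. -/
def sg {Q I : Type} [Group Q] (s : I → Q) (e : (Q × Bool) × I) : (Q × Bool) × I :=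
  ((e.1.1 * lt s e.2 e.1.2, !e.1.2), e.2)

theorem sg_sg {Q I : Type} [Group Q] (s : I → Q) (e : (Q × Bool) × I) : sg s (sg s e) = e := by
  obtain ⟨⟨x, b⟩, i⟩ := e
  cases b <;> simp [sg, lt]

theorem sg_ne {Q I : Type} [Group Q] (s : I → Q) (e : (Q × Bool) × I) : sg s e ≠ e := fun h => by
  simpa [sg] using congrArg (fun c => c.1.2) h

theorem girth_of {Q I : Type} [Group Q] (s : I → Q) {g : ℕ}
    (h : ∀ L, 0 < L → L ≤ g → ∀ (i : ℕ → I) (e : ℕ → Bool),
      (∀ t, t + 1 < L → i t ≠ i (t + 1)) → W s i e L ≠ 1) :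
    MP_c6eade_gt.H41.Girth Prod.fst (sg s) g := by
  intro p k hk hp e
  have h1 : ∀ t, t ≤ k → (sg s (p t)).1.1 =
      (p 0).1.1 * W s (fun t => (p t).2) (fun t => (p t).1.2) (t + 1) := by
    intro t
    induction t with
    | zero => intro _; simp [W, sg]
    | succ t ih =>
      intro ht
      rw [W, ← mul_assoc, ← ih (by omega), ← (hp.2 t (by omega)).1]
      rfl
  refine h (k + 1) k.succ_pos hk.le (fun t => (p t).2) (fun t => (p t).1.2) (fun t ht c => ?_) ?_
  · exact (hp.2 t ht).2 (Prod.ext (hp.2 t ht).1 c.symm)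
  · have := h1 k le_rfl
    rw [e] at this
    exact left_eq_mul.1 this

theorem count_fst {A B I : Type} [Group A] [Group B] [Fintype A] [Fintype B] [Fintype I]
    [DecidableEq I] (i : ℕ → I) (e : ℕ → Bool) (L : ℕ) :
    nW (A × B) i e L ≤ nW A i e L * Fintype.card (I → B) := by
  unfold nW
  have h : ∀ (s : I → A × B) m, (W s i e m).1 = W (fun j => (s j).1) i e m := fun s m => by
    induction m with
    | zero => rfl
    | succ m ih =>
      rw [W, W, Prod.fst_mul, ih]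
      unfold lt
      split_ifs <;> rfl
  rw [← card_univ, ← card_product]
  refine card_le_card_of_injOn (fun s => (fun j => (s j).1, fun j => (s j).2)) (fun s hs => ?_)
    fun s _ s' _ c => funext fun j =>
      Prod.ext (congrFun (congrArg Prod.fst c) j) (congrFun (congrArg Prod.snd c) j)
  simp only [coe_filter, mem_univ, true_and, Set.mem_ofPred_eq, coe_product, Set.mem_prod,
    coe_univ, Set.mem_univ, and_true] at hs ⊢
  rw [← h, hs]
  rfl

theorem exists_good {Q : Type} [Group Q] [Fintype Q] {D : ℕ} (j0 : Fin D) (g m : ℕ) {ρ : ℝ}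
    (hm : 0 < m) (h0 : 0 ≤ ρ) (h1 : ((g + 1) * (D * 2) ^ g : ℕ) * ρ ≤ 1 / 4)
    (h : ∀ L, 0 < L → L ≤ g → ∀ (i : ℕ → Fin D) (e : ℕ → Bool),
      (∀ t, t + 1 < L → i t ≠ i (t + 1)) →
        (nW Q i e L : ℝ) ≤ ρ * Fintype.card (Fin D → Q)) :
    ∃ s : Fin D → Q, (∀ L, 0 < L → L ≤ g → ∀ (i : ℕ → Fin D) (e : ℕ → Bool),
      (∀ t, t + 1 < L → i t ≠ i (t + 1)) → W s i e L ≠ 1) ∧
      ∀ b, exc s j0 b m ≤ 4 * (Fintype.card Q * (D ^ m * m ^ (2 * m) : ℕ)) := by
  set X : ℝ := Fintype.card Q * (D ^ m * m ^ (2 * m) : ℕ) with hX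
  set Ω : ℝ := (Fintype.card (Fin D → Q) : ℝ) with hΩ
  have D0 := j0.pos
  have q0 : (0 : ℝ) < Fintype.card Q := by exact_mod_cast Fintype.card_pos
  have X0 : 0 < X := by positivity
  have Ω0 : 0 < Ω := by rw [hΩ]; exact_mod_cast Fintype.card_pos
  let bad : (Fin D → Q) → Fin (g + 1) × (Fin g → Fin D × Bool) → Prop := fun s c =>
    (0 < c.1.1 ∧ ∀ t, t + 1 < c.1.1 →
      (ext (j0, true) c.2 t).1 ≠ (ext (j0, true) c.2 (t + 1)).1) ∧
      W s (fun t => (ext (j0, true) c.2 t).1) (fun t => (ext (j0, true) c.2 t).2) c.1 = 1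
  have e0 : ∀ (s : Fin D → Q) b, 0 ≤ exc s j0 b m := fun s b => by rw [exc_eq]; positivity
  have h2 : ∑ s : Fin D → Q, (#{c | bad s c} : ℝ) ≤ Ω / 4 := by
    have h3 : ∀ c, (#{s | bad s c} : ℝ) ≤ ρ * Ω := fun c => by
      rcases (univ.filter fun s => bad s c).eq_empty_or_nonempty with g | ⟨s, g⟩
      · rw [g, card_empty, Nat.cast_zero]
        positivity
      have g1 := (mem_filter.1 g).2.1
      refine le_trans (Nat.cast_le.2 (card_le_card fun s hs => ?_))
        (h c.1 g1.1 (Nat.lt_succ_iff.1 c.1.2) _ (fun t => (ext (j0, true) c.2 t).2) g1.2)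
      exact mem_filter.2 ⟨mem_univ _, (mem_filter.1 hs).2.2⟩
    have h4 := sum_le_sum fun c (_ : c ∈ univ) => h3 c
    rw [sum_const, card_univ, nsmul_eq_mul] at h4
    have h5 : ∑ s : Fin D → Q, (#{c | bad s c} : ℝ) = ∑ c, (#{s | bad s c} : ℝ) := by
      simp only [card_filter, Nat.cast_sum]
      exact sum_comm
    have h6 : Fintype.card (Fin (g + 1) × (Fin g → Fin D × Bool)) = (g + 1) * (D * 2) ^ g := by
      simp
    rw [h6] at h4
    nlinarith [mul_le_mul_of_nonneg_right h1 Ω0.le]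
  obtain ⟨s, -, hs⟩ : ∃ s ∈ (univ : Finset (Fin D → Q)),
      (#{c | bad s c} : ℝ) * (4 * X) + exc s j0 true m + exc s j0 false m < 4 * X := by
    refine exists_lt_of_sum_lt ?_
    have a1 := exc_sum (Q := Q) j0 true m
    have a2 := exc_sum (Q := Q) j0 false m
    rw [sum_add_distrib, sum_add_distrib, ← sum_mul, sum_const, card_univ, nsmul_eq_mul]
    rw [← hΩ, ← hX] at a1 a2
    rw [← hΩ]
    nlinarith [mul_le_mul_of_nonneg_right h2 X0.le, mul_pos X0 Ω0]
  have a1 := e0 s true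
  have a2 := e0 s false
  have a3 : (0 : ℝ) ≤ #{c | bad s c} * (4 * X) := by positivity
  refine ⟨s, fun L l0 l1 i e hi c => ?_, fun b => by cases b <;> linarith⟩
  have x1 : ∀ t, t < g → ext (j0, true) (fun t : Fin g => (i t, e t)) t = (i t, e t) :=
    fun t ht => dif_pos ht
  have a4 : (1 : ℝ) ≤ #{c | bad s c} := by
    refine Nat.one_le_cast.2 (card_pos.2 ⟨(⟨L, by omega⟩, fun t => (i t, e t)),
      mem_filter.2 ⟨mem_univ _, ⟨l0, fun t (ht : t + 1 < L) => ?_⟩, ?_⟩⟩)
    · rw [x1 t (by omega), x1 (t + 1) (by omega)]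
      exact hi t ht
    · exact (W_congr s fun t (ht : t < L) => by rw [x1 t (by omega)]; exact ⟨rfl, rfl⟩).trans c
  nlinarith

/-- Cayley graphs of prescribed size with large girth and a spectral gap. -/
theorem graph (g : ℕ) : ∃ C0 : ℕ, ∀ (C : ℕ) (ε : ℝ), 0 < ε → ∃ D0 : ℕ, ∀ D T : ℕ, D0 ≤ D →
    D ^ C0 ≤ T → T ≤ D ^ C → ∃ (Q : Type) (_ : Group Q) (_ : Fintype Q) (s : Fin D → Q),
      (1 - ε) * T ≤ Fintype.card Q ∧ Fintype.card Q ≤ T ∧
      (∀ L, 0 < L → L ≤ g → ∀ (i : ℕ → Fin D) (e : ℕ → Bool),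
        (∀ t, t + 1 < L → i t ≠ i (t + 1)) → W s i e L ≠ 1) ∧
      MP_c6eade_gt.H41.Girth Prod.fst (sg s) g ∧
      (∀ (b : Bool) (V : Type) [NormedAddCommGroup V] [InnerProductSpace ℂ V]
        (ρ : Q →* (V ≃ₗᵢ[ℂ] V)) (v : V), ∑ z, ρ z v = 0 → ‖st ρ s b v‖ ≤ ε * D * ‖v‖) ∧
      ∀ (b : Bool) (V : Type) [NormedAddCommGroup V] [InnerProductSpace ℂ V] (f : Q → V),
        ∑ x, f x = 0 → ∑ x, ‖∑ j, f (x * lt s j b)‖ ^ 2 ≤ (ε * D) ^ 2 * ∑ x, ‖f x‖ ^ 2 := by
  obtain ⟨c, hc⟩ : ∃ c, c = Fintype.card (Equiv.Perm (Fin (g + 2))) := ⟨_, rfl⟩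
  have c2 : 1 < c := hc ▸ Fintype.one_lt_card
  have c1 : (1 : ℝ) < c := by exact_mod_cast c2
  obtain ⟨ρ, hρ⟩ : ∃ ρ : ℝ, ρ = 1 - 1 / (c : ℝ) ^ g := ⟨_, rfl⟩
  have r0 : 0 ≤ ρ := by
    rw [hρ, sub_nonneg, div_le_one (by positivity)]
    exact one_le_pow₀ c1.le
  have r1 : ρ < 1 := by
    rw [hρ, sub_lt_self_iff]
    positivity
  obtain ⟨K, hK⟩ := exists_pow_lt_of_lt_one (x := 1 / (c : ℝ)) (by positivity) r1
  have K0 : 0 < K := Nat.pos_of_ne_zero fun e => by
    rw [e, pow_zero, lt_div_iff₀ (by positivity)] at hK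
    linarith
  refine ⟨K * (3 * g + 3) + 2, fun C ε e0 => ?_⟩
  obtain ⟨m, hm⟩ : ∃ m, m = 2 * 2 ^ C := ⟨_, rfl⟩
  have m1 : C < m := by have := Nat.lt_two_pow_self (n := C); omega
  obtain ⟨D0, hD0⟩ := exists_nat_ge (max (1 / ε) (4 * (m : ℝ) ^ (2 * m) / ε ^ (2 * m)))
  refine ⟨max D0 c, fun D T hD hT hT' => ?_⟩
  have d1 : c ≤ D := (le_max_right _ _).trans hD
  have d2 : (D0 : ℝ) ≤ D := by exact_mod_cast (le_max_left _ _).trans hD
  have d3 : 1 ≤ ε * D := by
    rw [mul_comm, ← div_le_iff₀ e0]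
    exact ((le_max_left _ _).trans hD0).trans d2
  have d4 : 4 * (m : ℝ) ^ (2 * m) ≤ D * ε ^ (2 * m) := by
    rw [← div_le_iff₀ (by positivity)]
    exact ((le_max_right _ _).trans hD0).trans d2
  have d5 : 2 ≤ D := by omega
  obtain ⟨N, hN⟩ : ∃ N, N = Nat.clog c (D ^ (K * (3 * g + 3))) := ⟨_, rfl⟩
  have n1 : D ^ (K * (3 * g + 3)) ≤ c ^ N := hN ▸ Nat.le_pow_clog c2 _
  have n2 : c ^ N ≤ D ^ (K * (3 * g + 3) + 1) := by
    have a1 : 1 < D ^ (K * (3 * g + 3)) := Nat.one_lt_pow (by positivity) d5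
    have a2 := Nat.pow_pred_clog_lt_self c2 a1
    have a3 := Nat.clog_pos c2 a1
    rw [← hN] at a2 a3
    obtain ⟨N, rfl⟩ : ∃ N', N = N' + 1 := ⟨N - 1, by omega⟩
    rw [pow_succ, pow_succ]
    exact Nat.mul_le_mul a2.le d1
  have n3 : c ^ N * D ≤ T := (Nat.mul_le_mul_right _ n2).trans (by rw [← pow_succ]; exact hT)
  have n0 : 0 < c ^ N := by positivity
  have n4 : D ^ (3 * g + 2) ≤ c ^ (N / K) := by
    have a1 : (D ^ (3 * g + 3)) ^ K ≤ (c ^ (N / K + 1)) ^ K := by
      rw [← pow_mul, ← pow_mul, mul_comm _ K, mul_comm _ K]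
      exact n1.trans (Nat.pow_le_pow_right c2.le (Nat.lt_mul_div_succ N K0).le)
    have a2 := (Nat.pow_le_pow_iff_left K0.ne').1 a1
    rw [pow_succ, pow_succ c] at a2
    exact Nat.le_of_mul_le_mul_right (a2.trans (Nat.mul_le_mul_left _ d1)) (by omega)
  have n5 : ((g + 1) * (D * 2) ^ g : ℕ) * ρ ^ N ≤ 1 / 4 := by
    have a1 : ρ ^ N ≤ (1 / (c : ℝ)) ^ (N / K) :=
      calc ρ ^ N ≤ ρ ^ (K * (N / K)) := pow_le_pow_of_le_one r0 r1.le (Nat.mul_div_le N K)
        _ ≤ _ := by rw [pow_mul]; gcongr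
    have a2 : 4 * ((g + 1) * (D * 2) ^ g) ≤ c ^ (N / K) := by
      refine le_trans ?_ n4
      have b1 : g + 1 ≤ D ^ g := Nat.lt_two_pow_self.trans_le (Nat.pow_le_pow_left d5 g)
      calc 4 * ((g + 1) * (D * 2) ^ g) ≤ (D * D) * (D ^ g * (D * D) ^ g) := by
            gcongr
            nlinarith
        _ = _ := by ring
    have a3 : (4 : ℝ) * ((g + 1) * (D * 2) ^ g : ℕ) ≤ (c : ℝ) ^ (N / K) := by exact_mod_cast a2
    rw [one_div_pow] at a1
    have a4 : (0 : ℝ) < (c : ℝ) ^ (N / K) := by positivity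
    rw [le_div_iff₀ a4] at a1
    have a5 : 0 ≤ ρ ^ N := by positivity
    nlinarith [mul_le_mul_of_nonneg_left a3 a5]
  obtain ⟨M, hM⟩ : ∃ M, T / c ^ N = M + 1 :=
    ⟨T / c ^ N - 1, by have := Nat.div_pos (le_trans (Nat.le_mul_of_pos_right _ (by omega)) n3) n0
                       omega⟩
  let Q := (Fin N → Equiv.Perm (Fin (g + 2))) × Multiplicative (ZMod (M + 1))
  have q1 : Fintype.card Q = c ^ N * (T / c ^ N) := by
    simp only [Q, Fintype.card_prod, Fintype.card_fun, Fintype.card_fin, ← hc, hM,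
      Fintype.card_multiplicative, ZMod.card]
  have q2 : Fintype.card Q ≤ T := q1 ▸ Nat.mul_div_le _ _
  have q3 : T < Fintype.card Q + c ^ N := by
    rw [q1, ← Nat.mul_succ]
    exact Nat.lt_mul_div_succ T n0
  obtain ⟨s, s1, s2⟩ := exists_good (Q := Q) (⟨0, by omega⟩ : Fin D) g m (by omega)
    (pow_nonneg r0 N) n5 fun L l0 l1 i e hi => by
      obtain ⟨a, ha⟩ := no_law g i e l0 l1 hi
      have a1 := count_law l1 ha
      rw [← hc, ← hρ] at a1
      have a2 := count_fst (A := Fin N → Equiv.Perm (Fin (g + 2)))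
        (B := Multiplicative (ZMod (M + 1))) i e L
      have a3 := count_pi (S := Equiv.Perm (Fin (g + 2))) N L i e
      have a4 : Fintype.card (Fin D → Q) = Fintype.card (Fin D → Equiv.Perm (Fin (g + 2))) ^ N *
          Fintype.card (Fin D → Multiplicative (ZMod (M + 1))) := by
        simp only [Q, Fintype.card_prod, Fintype.card_fun, Fintype.card_fin, mul_pow, ← pow_mul,
          mul_comm N D]
      rw [a3] at a2
      have a6 : (nW Q i e L : ℝ) ≤ (nW (Equiv.Perm (Fin (g + 2))) i e L : ℝ) ^ N *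
          Fintype.card (Fin D → Multiplicative (ZMod (M + 1))) := by exact_mod_cast a2
      rw [a4]
      refine a6.trans ?_
      push_cast
      rw [← mul_assoc, ← mul_pow]
      gcongr
  have key : ∀ (b : Bool) (V : Type) [NormedAddCommGroup V] [InnerProductSpace ℂ V]
      (ρ : Q →* (V ≃ₗᵢ[ℂ] V)) (v : V), ∑ z, ρ z v = 0 → ‖st ρ s b v‖ ≤ ε * D * ‖v‖ := by
    intro b V _ _ π v hv
    refine gap_rep π s ⟨0, by omega⟩ b C (by positivity) (hm ▸ (s2 _).trans ?_) hv
    have a1 : (Fintype.card Q : ℝ) * D ≤ (D : ℝ) ^ m := by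
      exact_mod_cast (Nat.mul_le_mul_right D (q2.trans hT')).trans
        (by rw [← pow_succ]; exact Nat.pow_le_pow_right (by omega) m1)
    have a2 : (0 : ℝ) < D := by exact_mod_cast (by omega : 0 < D)
    push_cast
    calc _ = Fintype.card Q * (D : ℝ) ^ m * (4 * (m : ℝ) ^ (2 * m)) := by ring
      _ ≤ Fintype.card Q * (D : ℝ) ^ m * (D * ε ^ (2 * m)) := by gcongr
      _ = Fintype.card Q * D * ((D : ℝ) ^ m * ε ^ (2 * m)) := by ring
      _ ≤ (D : ℝ) ^ m * ((D : ℝ) ^ m * ε ^ (2 * m)) := by gcongr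
      _ = ((ε * D) ^ m) ^ 2 := by ring
      _ = _ := by rw [hm]
  refine ⟨Q, inferInstance, inferInstance, s, ?_, q2, s1, girth_of s s1, key,
    fun b V _ _ f hf => gap_fun s b (key b) V f hf⟩
  have a1 : (c : ℝ) ^ N * D ≤ T := by exact_mod_cast n3
  have a2 : (T : ℝ) ≤ Fintype.card Q + (c : ℝ) ^ N := by exact_mod_cast q3.le
  have a3 : (0 : ℝ) ≤ (c : ℝ) ^ N := by positivity
  nlinarith [mul_le_mul_of_nonneg_left a1 e0.le, mul_le_mul_of_nonneg_left d3 a3]

end final

end Pool.Agent.MP_434e52_an.H29G
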