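import Mathlib

/-! Curves in a torus over a field of characteristic two span an ideal of small rank; a graph of
such curves with one unmatched point kills an element in every finite quotient. -/

set_option autoImplicit false

namespace Pool.Agent.MP_434e52_an.H29.Res

open Finset Polynomial
open scoped Classical

section field

variable {F : Type} [Field F] [Fintype F]

theorem ind {q : ℕ} (hq : Fintype.card F = q) (u : F) :
    ∑ j : Fin q, (if (j : ℕ) = 0 then (0 : F) else -1) * u ^ (j : ℕ) = if u = 1 then 1 else 0 := by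
  have q0 : 0 < q := hq ▸ Fintype.card_pos
  have h1 : ∑ j : Fin q, (if (j : ℕ) = 0 then (0 : F) else -1) * u ^ (j : ℕ) =
      1 - ∑ j ∈ range q, u ^ j := by
    rw [Fin.sum_univ_eq_sum_range (fun j => (if j = 0 then (0 : F) else -1) * u ^ j) q]
    obtain ⟨k, rfl⟩ : ∃ k, q = k + 1 := ⟨q - 1, by omega⟩
    rw [sum_range_succ', sum_range_succ']
    simp
  rw [h1]
  split_ifs with h
  · subst h
    simp only [one_pow, sum_const, card_range, nsmul_eq_mul, mul_one]
    rw [← hq, FiniteField.cast_card_eq_zero, sub_zero]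
  · have := mul_geom_sum u q
    rw [← hq, FiniteField.pow_card, hq] at this
    have h2 : (u - 1) * (∑ j ∈ range q, u ^ j - 1) = 0 := by rw [mul_sub, this]; ring
    rcases mul_eq_zero.1 h2 with h3 | h3
    · exact absurd (sub_eq_zero.1 h3) h
    · rw [sub_eq_zero.1 h3, sub_self]

theorem low {n : ℕ} (c : Fin n → F) (e : Fin n → ℕ) (he : ∑ i, e i < Fintype.card F - 1) :
    ∑ t : F, ∏ i, (t + c i) ^ e i = 0 := by
  set p : F[X] := ∏ i, (X + C (c i)) ^ e i with hp
  have hd : p.natDegree < Fintype.card F - 1 := by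
    refine lt_of_le_of_lt ((natDegree_prod_le _ _).trans (sum_le_sum fun i _ => ?_)) he
    refine natDegree_pow_le.trans ?_
    rw [natDegree_X_add_C, mul_one]
  have h1 : ∀ t : F, ∏ i, (t + c i) ^ e i = ∑ k ∈ range (Fintype.card F - 1), p.coeff k * t ^ k :=
    fun t => by
      rw [← eval_eq_sum_range' hd, hp, eval_prod]
      simp
  simp only [h1]
  rw [sum_comm]
  refine sum_eq_zero fun k hk => ?_
  rw [← mul_sum, FiniteField.sum_pow_lt_card_sub_one F k (mem_range.1 hk), mul_zero]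

theorem van [CharP F 2] {n L m : ℕ} (hn : n ≤ 2 ^ L) (hL : 1 ≤ L)
    (hq : Fintype.card F = (2 ^ L) ^ m) (c : Fin n → F) (a : Fin n → ℕ)
    (ha : ∀ i, a i < (2 ^ L) ^ m) {j : ℕ} (hj : j < m)
    (h0 : ∀ i, a i / (2 ^ L) ^ j % 2 ^ L = 0) : ∑ t : F, ∏ i, (t + c i) ^ a i = 0 := by
  obtain ⟨s, rfl⟩ : ∃ s, m = j + 1 + s := ⟨m - (j + 1), by omega⟩
  set b := 2 ^ L with hb
  have b2 : 2 ≤ b := by
    calc 2 = 2 ^ 1 := rfl
      _ ≤ 2 ^ L := Nat.pow_le_pow_right (by norm_num) hL
  have bp : ∀ k, 0 < b ^ k := fun k => by positivity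
  have key : ∀ i (x : F), (x ^ a i) ^ b ^ s = x ^ (a i % b ^ j * b ^ s + a i / b ^ (j + 1)) :=
    fun i x => by
      have e1 : a i = a i % b ^ j + b ^ (j + 1) * (a i / b ^ (j + 1)) := by
        have h1 := Nat.mod_add_div (a i) (b ^ j)
        have h2 := Nat.mod_add_div (a i / b ^ j) b
        rw [h0 i, zero_add, Nat.div_div_eq_div_mul, ← pow_succ] at h2
        rw [pow_succ, mul_assoc, ← pow_succ, h2, h1]
      have e2 : a i * b ^ s = a i % b ^ j * b ^ s + b ^ (j + 1 + s) * (a i / b ^ (j + 1)) := by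
        nth_rw 1 [e1]
        ring
      rw [← pow_mul, e2, pow_add x, pow_add x, pow_mul x (b ^ (j + 1 + s)), ← hq,
        FiniteField.pow_card]
  have hs : (∑ t : F, ∏ i, (t + c i) ^ a i) ^ b ^ s = 0 := by
    have : b ^ s = 2 ^ (L * s) := by rw [hb, pow_mul]
    rw [this, sum_pow_char_pow, ← this]
    simp only [← prod_pow, key]
    refine low c _ ?_
    have h1 : ∀ i, a i % b ^ j * b ^ s + a i / b ^ (j + 1) + 1 ≤ b ^ (j + s) := fun i => by
      have h2 : a i % b ^ j + 1 ≤ b ^ j := Nat.mod_lt _ (bp j)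
      have h3 : a i / b ^ (j + 1) + 1 ≤ b ^ s :=
        Nat.div_lt_of_lt_mul (by rw [← pow_add]; exact ha i)
      calc _ ≤ a i % b ^ j * b ^ s + b ^ s := by omega
        _ = (a i % b ^ j + 1) * b ^ s := by ring
        _ ≤ b ^ j * b ^ s := Nat.mul_le_mul_right _ h2
        _ = b ^ (j + s) := by rw [pow_add]
    have h4 : ∑ i, (a i % b ^ j * b ^ s + a i / b ^ (j + 1)) ≤ n * (b ^ (j + s) - 1) := by
      have := sum_le_card_nsmul univ (fun i => a i % b ^ j * b ^ s + a i / b ^ (j + 1))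
        (b ^ (j + s) - 1) fun i _ => by have := h1 i; omega
      simpa using this
    have h5 : n * (b ^ (j + s) - 1) ≤ b * (b ^ (j + s) - 1) := Nat.mul_le_mul_right _ hn
    have h6 : b ^ (j + 1 + s) = b * b ^ (j + s) := by ring
    have h7 := bp (j + s)
    rw [hq, h6]
    obtain ⟨k, hk⟩ : ∃ k, b ^ (j + s) = k + 1 := ⟨b ^ (j + s) - 1, by omega⟩
    rw [hk] at h4 h5 ⊢
    rw [Nat.add_sub_cancel] at h4 h5
    rw [mul_add]
    omega
  exact pow_eq_zero_iff (bp s).ne' |>.1 hs

end field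

theorem alive_card {n b m : ℕ} (hb : 0 < b) :
    #{a : Fin n → Fin (b ^ m) | ∀ j < m, ∃ i, (a i : ℕ) / b ^ j % b ≠ 0} ≤ (b ^ n - 1) ^ m := by
  have hc : #(Fintype.piFinset fun _ : Fin m =>
      (univ : Finset (Fin n → Fin b)).erase fun _ => ⟨0, hb⟩) = (b ^ n - 1) ^ m := by
    rw [Fintype.card_piFinset]
    simp [card_erase_of_mem]
  rw [← hc]
  refine card_le_card_of_injOn (fun a j i => finFunctionFinEquiv.symm (a i) j) ?_ ?_
  · intro a ha
    simp only [coe_filter, mem_univ, true_and, Set.mem_ofPred_eq] at ha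
    simp only [mem_coe, Fintype.mem_piFinset, mem_erase, mem_univ, and_true]
    intro j h
    obtain ⟨i, hi⟩ := ha j j.2
    apply hi
    have := congrArg Fin.val (congrFun h i)
    rwa [finFunctionFinEquiv_symm_apply_val] at this
  · intro a _ a' _ h
    funext i
    exact finFunctionFinEquiv.symm.injective (funext fun j => congrFun (congrFun h j) i)

theorem num (n : ℕ) {b : ℕ} (hb : 2 ≤ b) :
    ∃ m0, ∀ m, m0 ≤ m → 2 * (b ^ n - 1) ^ m < (b ^ m - 1) ^ n := by
  have B1 : (1 : ℝ) ≤ (b : ℝ) ^ n := one_le_pow₀ (by exact_mod_cast (by omega : 1 ≤ b))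
  have r0 : (0 : ℝ) ≤ 1 - ((b : ℝ) ^ n)⁻¹ := sub_nonneg.2 (inv_le_one_of_one_le₀ B1)
  have r1 : 1 - ((b : ℝ) ^ n)⁻¹ < 1 := sub_lt_self _ (by positivity)
  obtain ⟨m0, h⟩ := Filter.eventually_atTop.1
    ((tendsto_pow_atTop_nhds_zero_of_lt_one r0 r1).eventually
      (gt_mem_nhds (by positivity : (0 : ℝ) < (2 * 2 ^ n)⁻¹)))
  refine ⟨m0 + 1, fun m hm => ?_⟩
  have h1 := h m (by omega)
  have p1 : 1 ≤ b ^ n := Nat.one_le_pow _ _ (by omega)
  have p2 : 2 ≤ b ^ m := hb.trans (Nat.le_self_pow (by omega) b)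
  have p3 : (2 : ℝ) ≤ (b : ℝ) ^ m := by exact_mod_cast p2
  rw [← Nat.cast_lt (α := ℝ)]
  push_cast [Nat.cast_sub p1, Nat.cast_sub (by omega : 1 ≤ b ^ m)]
  have e1 : ((b : ℝ) ^ n - 1) ^ m = ((b : ℝ) ^ m) ^ n * (1 - ((b : ℝ) ^ n)⁻¹) ^ m := by
    rw [← pow_mul, mul_comm m n, pow_mul, ← mul_pow]
    congr 1
    field_simp
  have e2 : ((b : ℝ) ^ m / 2) ^ n ≤ ((b : ℝ) ^ m - 1) ^ n :=
    pow_le_pow_left₀ (by positivity) (by linarith) n
  refine lt_of_lt_of_le ?_ e2
  rw [e1, div_pow]
  have p4 : (0 : ℝ) < ((b : ℝ) ^ m) ^ n := by positivity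
  calc 2 * (((b : ℝ) ^ m) ^ n * (1 - ((b : ℝ) ^ n)⁻¹) ^ m)
      < 2 * (((b : ℝ) ^ m) ^ n * (2 * 2 ^ n)⁻¹) := by gcongr
    _ = ((b : ℝ) ^ m) ^ n / 2 ^ n := by field_simp

theorem coset_mem {F Y Q ι : Type} [Field F] [Group Y] [Fintype Y] [Group Q] [DecidableEq Q]
    (j : Y →* Q)
    (χ : ι → Y →* F) (A : Finset ι) (κ : ι → F) (g : Q) :
    (fun x => ∑ y, if x = g * j y then ∑ d ∈ A, κ d * χ d y else 0) ∈
      Submodule.span F (Set.range fun p : (Q ⧸ j.range) × A =>
        fun x => ∑ y, if x = p.1.out * j y then χ p.2 y else 0) := by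
  obtain ⟨⟨_, y0, rfl⟩, h0⟩ := QuotientGroup.mk_out_eq_mul j.range g
  have e : (fun x => ∑ y, if x = g * j y then ∑ d ∈ A, κ d * χ d y else 0) =
      ∑ d ∈ A.attach, (κ d * χ d y0) • fun x => ∑ y,
        if x = (QuotientGroup.mk g : Q ⧸ j.range).out * j y then χ d y else 0 := by
    funext x
    rw [Finset.sum_apply, ← Equiv.sum_comp (Equiv.mulLeft y0)]
    simp only [Pi.smul_apply, smul_eq_mul, mul_sum, h0]
    rw [sum_comm]
    refine sum_congr rfl fun y _ => ?_
    simp only [Equiv.coe_mulLeft, map_mul, mul_assoc]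
    split_ifs
    · exact (sum_attach A fun d => κ d * (χ d y0 * χ d y)).symm
    · simp
  rw [e]
  exact Submodule.sum_mem _ fun d _ => Submodule.smul_mem _ _
    (Submodule.subset_span ⟨(QuotientGroup.mk g, d), rfl⟩)

theorem res (n L : ℕ) (hn : n ≤ 2 ^ L) (hL : 1 ≤ L) : ∃ m0, ∀ m, m0 ≤ m →
    ∀ (F : Type) [Field F] [Fintype F] [CharP F 2], Fintype.card F = (2 ^ L) ^ m →
    ∀ (R E : Type) [Finite R] [Finite E] (row : E → R) (kind : R → Bool) (σ : E → E)
      (pos : E → Fin n → Fˣ) (c : R → Fin n → F) (T : E → F), (∀ e, σ (σ e) = e) →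
      (∃! e, σ e = e) → (∀ e i, (pos e i : F) = T e + c (row e) i) →
      (∀ e e', row e = row e' → T e = T e' → e = e') →
      (∀ r t, (∀ i, t + c r i ≠ 0) → ∃ e, row e = r ∧ T e = t) →
    ∀ (H : Type) [Group H] (ι : Bool → (Fin n → Fˣ) →* H) (gr : R → H),
      (∀ e, σ e ≠ e → gr (row e) * ι (kind (row e)) (pos e) =
        gr (row (σ e)) * ι (kind (row (σ e))) (pos (σ e))) →
      ∃ a y, y ≠ 1 ∧ ∀ N : Subgroup H, N.Normal → N.FiniteIndex → ι a y ∈ N := by
  have b2 : 2 ≤ 2 ^ L := by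
    calc 2 = 2 ^ 1 := rfl
      _ ≤ 2 ^ L := Nat.pow_le_pow_right (by norm_num) hL
  obtain ⟨m0, hm0⟩ := num n b2
  refine ⟨m0, fun m hm F _ _ _ hq R E _ _ row kind σ pos c T hσ ⟨e0, he0, hu⟩ hpos hT hon H _ ι gr
    hedge => ?_⟩
  by_contra hcon
  push Not at hcon
  choose N hN1 hN2 hN3 using fun (p : {p : Bool × (Fin n → Fˣ) // p.2 ≠ 1}) => hcon p.1.1 p.1.2 p.2
  have n1 : (⨅ p, N p).Normal := Subgroup.normal_iInf_normal hN1
  have n2 : (⨅ p, N p).FiniteIndex := Subgroup.finiteIndex_iInf hN2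
  set Q := H ⧸ (⨅ p, N p)
  have := Fintype.ofFinite Q
  have := Fintype.ofFinite R
  have := Fintype.ofFinite E
  set π : H →* Q := QuotientGroup.mk' _
  set j : Bool → (Fin n → Fˣ) →* Q := fun a => π.comp (ι a) with hj
  have jinj : ∀ a, Function.Injective (j a) := fun a => by
    rw [injective_iff_map_eq_one]
    intro y hy
    by_contra h1
    exact hN3 ⟨(a, y), h1⟩ (Subgroup.mem_iInf.1 ((QuotientGroup.eq_one_iff _).1 hy) ⟨(a, y), h1⟩)
  set A : Finset (Fin n → Fin ((2 ^ L) ^ m)) :=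
    {a | ∀ j < m, ∃ i, (a i : ℕ) / (2 ^ L) ^ j % 2 ^ L ≠ 0} with hA
  let χ : (Fin n → Fin ((2 ^ L) ^ m)) → (Fin n → Fˣ) →* F := fun a =>
    { toFun := fun y => ∏ i, (((y i)⁻¹ : Fˣ) : F) ^ (a i : ℕ)
      map_one' := by simp
      map_mul' := fun y z => by simp [mul_pow, prod_mul_distrib, mul_comm] }
  let κ : R → (Fin n → Fin ((2 ^ L) ^ m)) → F := fun r a =>
    (∏ i, if (a i : ℕ) = 0 then (0 : F) else -1) * ∑ t : F, ∏ i, (t + c r i) ^ (a i : ℕ)
  have hφ : ∀ r y, (∑ e with row e = r, if pos e = y then (1 : F) else 0) =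
      ∑ d ∈ A, κ r d * χ d y := fun r y => by
    have e1 : (∑ e with row e = r, if pos e = y then (1 : F) else 0) =
        ∑ t : F, if ∀ i, (y i : F) = t + c r i then 1 else 0 := by
      rw [← sum_filter, ← sum_filter, sum_const, sum_const, filter_filter]
      congr 1
      refine card_bij (fun e _ => T e) ?_ ?_ ?_
      · intro e he
        simp only [mem_filter, mem_univ, true_and] at he ⊢
        intro i
        rw [← he.2, ← he.1, hpos]
      · intro e he e' he' h
        simp only [mem_filter, mem_univ, true_and] at he he'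
        exact hT e e' (he.1.trans he'.1.symm) h
      · intro t ht
        simp only [mem_filter, mem_univ, true_and] at ht
        obtain ⟨e, h1, h2⟩ := hon r t fun i => by rw [← ht i]; exact (y i).ne_zero
        refine ⟨e, ?_, h2⟩
        simp only [mem_filter, mem_univ, true_and]
        exact ⟨h1, funext fun i => Units.ext (by rw [hpos, h1, h2, ht])⟩
    have e2 : ∀ t : F, (if ∀ i, (y i : F) = t + c r i then (1 : F) else 0) =
        ∑ d : Fin n → Fin ((2 ^ L) ^ m), (∏ i, if (d i : ℕ) = 0 then (0 : F) else -1) *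
          (∏ i, (t + c r i) ^ (d i : ℕ)) * χ d y := fun t => by
      have e3 : (if ∀ i, (y i : F) = t + c r i then (1 : F) else 0) =
          ∏ i, if (t + c r i) * (((y i)⁻¹ : Fˣ) : F) = 1 then (1 : F) else 0 := by
        simp only [Units.mul_inv_eq_one]
        split_ifs with h
        · exact (prod_eq_one fun i _ => if_pos (h i).symm).symm
        · obtain ⟨i, hi⟩ := not_forall.1 h
          exact (prod_eq_zero (mem_univ i) (if_neg fun k => hi k.symm)).symm
      simp only [e3, ← ind hq]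
      rw [prod_univ_sum, Fintype.piFinset_univ]
      refine sum_congr rfl fun d _ => ?_
      simp only [χ, MonoidHom.coe_mk, OneHom.coe_mk, mul_pow, prod_mul_distrib, mul_assoc]
    rw [e1]
    simp only [e2]
    rw [sum_comm, ← sum_subset (subset_univ A)]
    · refine sum_congr rfl fun d _ => ?_
      simp only [κ, mul_sum, sum_mul]
    · intro d _ hd
      simp only [hA, mem_filter, mem_univ, true_and, not_forall, not_exists, not_not] at hd
      obtain ⟨k, hk, h0⟩ := hd
      rw [← sum_mul, ← mul_sum, van hn hL hq (c r) (fun i => (d i : ℕ)) (fun i => (d i).2) hk h0]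
      simp
  let W : Bool → Submodule F (Q → F) := fun a => Submodule.span F
    (Set.range fun p : (Q ⧸ (j a).range) × A =>
      fun x => ∑ y, if x = p.1.out * j a y then χ p.2 y else 0)
  have hδ : ∀ h : Q, (Pi.single h 1 : Q → F) ∈ W true ⊔ W false := fun h => by
    set pt : E → Q := fun e => π (gr (row e) * ι (kind (row e)) (pos e)) with hpt
    set g : R → Q := fun r => h * (pt e0)⁻¹ * π (gr r) with hg
    have e1 : (Pi.single h 1 : Q → F) =
        ∑ e, fun x => if x = h * (pt e0)⁻¹ * pt e then (1 : F) else 0 := by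
      rw [← add_sum_erase _ _ (mem_univ e0), sum_involution (fun e _ => σ e), add_zero]
      · funext x
        simp [Pi.single_apply]
      · intro e he
        have h1 : σ e ≠ e := fun h => (mem_erase.1 he).1 (hu e h)
        have : pt (σ e) = pt e := by simp only [hpt, ← hedge e h1]
        rw [this]
        funext x
        exact CharTwo.add_self_eq_zero _
      · intro e he _ h
        exact (mem_erase.1 he).1 (hu e h)
      · intro e he
        refine mem_erase.2 ⟨fun h => (mem_erase.1 he).1 ?_, mem_univ _⟩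
        rw [← hσ e, h, he0]
      · intro e _
        exact hσ e
    rw [e1, ← sum_fiberwise univ row]
    refine Submodule.sum_mem _ fun r _ => ?_
    have e2 : (∑ e with row e = r, fun x => if x = h * (pt e0)⁻¹ * pt e then (1 : F) else 0) =
        fun x => ∑ y, if x = g r * j (kind r) y then ∑ d ∈ A, κ r d * χ d y else 0 := by
      funext x
      simp only [← hφ]
      rw [Finset.sum_apply]
      have e3 : ∀ y, (if x = g r * j (kind r) y then
          ∑ e with row e = r, (if pos e = y then (1 : F) else 0) else 0) =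
          ∑ e with row e = r, if pos e = y then (if x = g r * j (kind r) y then 1 else 0) else 0 :=
        fun y => by split_ifs <;> simp
      simp only [e3]
      rw [sum_comm]
      refine sum_congr rfl fun e he => ?_
      rw [sum_ite_eq, if_pos (mem_univ _)]
      have h1 := (mem_filter.1 he).2
      simp only [hg, hpt, hj, h1, map_mul, MonoidHom.comp_apply, mul_assoc]
    rw [e2]
    have := coset_mem (j (kind r)) χ A (κ r) (g r)
    cases hk : kind r
    · rw [hk] at this
      exact Submodule.mem_sup_right this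
    · rw [hk] at this
      exact Submodule.mem_sup_left this
  have htop : W true ⊔ W false = ⊤ := by
    rw [eq_top_iff]
    intro f _
    rw [pi_eq_sum_univ' f]
    exact Submodule.sum_mem _ fun h _ => Submodule.smul_mem _ _ (hδ h)
  have hY : Nat.card (Fin n → Fˣ) = ((2 ^ L) ^ m - 1) ^ n := by
    rw [Nat.card_eq_fintype_card, Fintype.card_fun, Fintype.card_units, hq, Fintype.card_fin]
  have hW : ∀ a, Module.finrank F (W a) * ((2 ^ L) ^ m - 1) ^ n ≤
      Fintype.card Q * ((2 ^ L) ^ n - 1) ^ m := fun a => by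
    have := Fintype.ofFinite (Q ⧸ (j a).range)
    have h1 : Module.finrank F (W a) ≤ Fintype.card ((Q ⧸ (j a).range) × A) :=
      finrank_range_le_card _
    have h2 := Subgroup.card_eq_card_quotient_mul_card_subgroup (j a).range
    rw [← Nat.card_congr (MonoidHom.ofInjective (jinj a)).toEquiv, hY, Nat.card_eq_fintype_card,
      Nat.card_eq_fintype_card] at h2
    have h3 : #A ≤ ((2 ^ L) ^ n - 1) ^ m := alive_card (by omega)
    rw [Fintype.card_prod, Fintype.card_coe] at h1
    rw [h2]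
    calc _ ≤ Fintype.card (Q ⧸ (j a).range) * ((2 ^ L) ^ n - 1) ^ m * ((2 ^ L) ^ m - 1) ^ n :=
          Nat.mul_le_mul_right _ (h1.trans (Nat.mul_le_mul_left _ h3))
      _ = _ := by ring
  have h1 := Submodule.finrank_add_le_finrank_add_finrank (W true) (W false)
  rw [htop, finrank_top, Module.finrank_fintype_fun_eq_card] at h1
  have h2 := hm0 m hm
  have h3 := hW true
  have h4 := hW false
  have h5 : 0 < Fintype.card Q := Fintype.card_pos
  have h6 := Nat.mul_le_mul_right (((2 ^ L) ^ m - 1) ^ n) h1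
  have h7 := Nat.mul_lt_mul_of_pos_left h2 h5
  nlinarith

end Pool.Agent.MP_434e52_an.H29.Res
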