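import Pool.Agent.MP_434e52_an.HG.Lin83

/-! Types of curves in a torus, one for each row, with all quotients different. -/

namespace Pool.Agent.MP_434e52_an.H29

open Finset Pool.Agent.MP_c6eade_gt.H41
open scoped Classical

/-- An unmatched half-edge does not change the girth. -/
theorem girth_opt {R E : Type} {row : E → R} {σ : E → E} {g : ℕ} (h : Girth row σ g) (r0 : R) :
    Girth (fun e : Option E => e.elim r0 row) (Option.map σ) g := by
  intro p k hk ⟨h1, h2⟩
  have hs : ∀ i, i < k + 1 → ∃ e, p i = some e := fun i hi => by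
    cases e : p i with
    | none => exact absurd (by rw [e]; rfl) (h1 i hi)
    | some a => exact ⟨a, rfl⟩
  obtain ⟨e0, -⟩ := hs 0 (by omega)
  have hq : ∀ i, i < k + 1 → p i = some ((p i).getD e0) := fun i hi => by
    obtain ⟨e, he⟩ := hs i hi
    rw [he]; rfl
  have := h (fun i => (p i).getD e0) k hk ⟨fun i hi e => h1 i hi (by
    rw [hq i hi, Option.map_some, e]), fun i hi => by
      have := h2 i hi
      rw [hq i (by omega), hq (i + 1) hi] at this
      simpa using this⟩
  rw [hq k (by omega), hq 0 (by omega)]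
  exact this

theorem fibre_card {R : Type} [Fintype R] [DecidableEq R] (D : ℕ) (r0 r : R) :
    Fintype.card {e : Option (R × Fin D) // e.elim r0 Prod.fst = r} =
      D + if r0 = r then 1 else 0 := by
  rw [Fintype.card_subtype, card_filter, Fintype.sum_option, Fintype.sum_prod_type, add_comm]
  congr 1
  have : ∀ x : R, ∑ _y : Fin D, (if x = r then 1 else 0) = if x = r then D else 0 := fun x => by
    split_ifs <;> simp
  exact (sum_congr rfl fun x _ => this x).trans (by simp)

theorem avoid_card {F : Type} [Field F] [Fintype F] {n : ℕ} (c : Fin n → F) :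
    Fintype.card {t : F // ∀ i, t + c i ≠ 0} = Fintype.card F - #(univ.image c) := by
  have : #(univ.image c) = #(univ.image fun i => -c i) := by
    rw [← card_image_of_injective (univ.image c) neg_injective, image_image]
    rfl
  rw [this, ← card_compl, Fintype.card_subtype]
  congr 1
  ext t
  simp only [mem_filter, mem_univ, true_and, mem_compl, mem_image, not_exists]
  exact forall_congr' fun i => not_congr (by rw [add_eq_zero_iff_eq_neg, eq_comm])

/-- Different types for the rows of one side, one special type. -/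
theorem type_fun {k : ℕ} {F : Type} [Field F] [Fintype F] {Q : Type} [Fintype Q] (r0 : Q × Bool)
    (hQ : Fintype.card Q ≤ (Fintype.card F - 2).descFactorial (k + 2)) :
    ∃ c : Q × Bool → Fin (k + 4) → F, (∀ r, c r 0 = 0) ∧ (∀ r, c r 1 = 1) ∧
      (∀ r r', r.2 = r'.2 → c r = c r' → r = r') ∧
      ∀ r, #(univ.image (c r)) + (if r0 = r then 1 else 0) = k + 4 := by
  obtain ⟨τ⟩ : Nonempty (Q ↪ (Fin (k + 2) ↪ {x : F // x ∈ ({0, 1} : Finset F)ᶜ})) :=
    Function.Embedding.nonempty_of_card_le (by
      have cU : #(({0, 1} : Finset F)ᶜ) = Fintype.card F - 2 := by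
        rw [card_compl, card_pair zero_ne_one]
      simpa only [Fintype.card_embedding_eq, Fintype.card_coe, Fintype.card_fin, cU] using hQ)
  let b : Q → Fin (k + 4) → F := fun x => Fin.cons 0 (Fin.cons 1 fun i => (τ x i : F))
  have ne : ∀ x i, (τ x i : F) ≠ 0 ∧ (τ x i : F) ≠ 1 := fun x i => by
    simpa using (τ x i).2
  have bi : ∀ x, Function.Injective (b x) := fun x => by
    refine Fin.cons_injective_iff.2 ⟨?_, Fin.cons_injective_iff.2 ⟨?_, ?_⟩⟩
    · rintro ⟨i, hi⟩
      refine Fin.cases (fun h => ?_) (fun j h => ?_) i hi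
      · exact one_ne_zero h
      · exact (ne x j).1 h
    · rintro ⟨i, hi⟩
      exact (ne x i).2 hi
    · exact Subtype.val_injective.comp (τ x).injective
  have bj : Function.Injective b := fun x y h => τ.injective (by
    ext i
    exact congrFun h i.succ.succ)
  obtain ⟨j, n0, n1⟩ : ∃ j : Fin (k + 4), 0 ≠ j ∧ 1 ≠ j :=
    ⟨⟨2, by omega⟩, by simp [Fin.ext_iff], by simp [Fin.ext_iff]⟩
  let a : Fin (k + 4) → F := Function.update (b r0.1) j (b r0.1 0)
  have an : ∀ x, a ≠ b x := fun x h => n0 (bi x (by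
    rw [← h]
    simp only [a, Function.update_self, Function.update_of_ne n0]))
  refine ⟨fun r => if r0 = r then a else b r.1, fun r => ?_, fun r => ?_, fun r r' h1 h2 => ?_,
    fun r => ?_⟩
  · dsimp only
    split_ifs
    · simp only [a, Function.update_of_ne n0]; rfl
    · rfl
  · dsimp only
    split_ifs
    · simp only [a, Function.update_of_ne n1]; rfl
    · rfl
  · dsimp only at h2
    split_ifs at h2 with h h' h'
    · rw [← h, h']
    · exact absurd h2 (an _)
    · exact absurd h2.symm (an _)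
    · exact Prod.ext (bj h2) h1
  · dsimp only
    split_ifs
    · have : univ.image a = (univ.erase j).image (b r0.1) := by
        ext y
        simp only [mem_image, mem_univ, true_and, mem_erase, and_true]
        constructor
        · rintro ⟨i, rfl⟩
          by_cases hi : i = j
          · exact ⟨0, n0, by simp only [a, hi, Function.update_self]⟩
          · exact ⟨i, hi, by simp only [a, Function.update_of_ne hi]⟩
        · rintro ⟨i, hi, rfl⟩
          exact ⟨i, by simp only [a, Function.update_of_ne hi]⟩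
      rw [this, card_image_of_injective _ (bi _), card_erase_of_mem (mem_univ _)]
      simp
    · rw [card_image_of_injective _ (bi _)]
      simp

/-- Positions of the half-edges: curves in the torus, all quotients different. -/
theorem types {k D : ℕ} {F : Type} [Field F] [Fintype F] (hq : Fintype.card F = D + (k + 4))
    {Q : Type} [Fintype Q] (r0 : Q × Bool)
    (hQ : Fintype.card Q ≤ (Fintype.card F - 2).descFactorial (k + 2)) :
    ∃ (c : Q × Bool → Fin (k + 4) → F) (T : Option ((Q × Bool) × Fin D) → F)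
      (pos : Option ((Q × Bool) × Fin D) → Fin (k + 4) → Fˣ),
      (∀ e i, (pos e i : F) = T e + c (e.elim r0 Prod.fst) i) ∧
      (∀ e e', e.elim r0 Prod.fst = e'.elim r0 Prod.fst → T e = T e' → e = e') ∧
      (∀ r t, (∀ i, t + c r i ≠ 0) → ∃ e, e.elim r0 Prod.fst = r ∧ T e = t) ∧
      Uniq (fun e : Option ((Q × Bool) × Fin D) => e.elim r0 Prod.fst) Prod.snd pos := by
  obtain ⟨c, c0, c1, ci, cc⟩ := type_fun (F := F) r0 hQ
  set row : Option ((Q × Bool) × Fin D) → Q × Bool := fun e => e.elim r0 Prod.fst with hrow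
  have β : ∀ r, {e // row e = r} ≃ {t : F // ∀ i, t + c r i ≠ 0} := fun r =>
    Fintype.equivOfCardEq (by
      have := cc r
      rw [avoid_card, hq]
      refine (fibre_card D r0 r).trans ?_
      omega)
  let T : Option ((Q × Bool) × Fin D) → F := fun e => (β (row e) ⟨e, rfl⟩ : F)
  have hT : ∀ r (e : {e // row e = r}), T e = β r e := by
    rintro r ⟨e, rfl⟩
    rfl
  have hz : ∀ e i, T e + c (row e) i ≠ 0 := fun e => (β (row e) ⟨e, rfl⟩).2
  have ti : ∀ e e', row e = row e' → T e = T e' → e = e' := fun e e' h1 h2 => by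
    have := (hT (row e') ⟨e, h1⟩).symm.trans (h2.trans (hT (row e') ⟨e', rfl⟩))
    exact congrArg Subtype.val ((β _).injective (Subtype.ext this))
  refine ⟨c, T, fun e i => Units.mk0 _ (hz e i), fun e i => rfl, ti, fun r t h => ?_, ?_⟩
  · exact ⟨_, ((β r).symm ⟨t, h⟩).2, by rw [hT r, Equiv.apply_symm_apply]⟩
  intro a b a' b' h1 h2 h3 h4 h5
  have hab : T a - T b ≠ 0 := fun h => h4 (ti _ _ h1 (sub_eq_zero.1 h))
  have q : ∀ i, (T b + c (row a) i) * (T a' + c (row a') i) =
      (T b' + c (row a') i) * (T a + c (row a) i) := fun i => by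
    have := congrArg Units.val (congrFun h5 i)
    simp only [Pi.mul_apply, Pi.inv_apply, Units.val_mul, Units.val_inv_eq_inv_val,
      Units.val_mk0, ← h1, ← h2] at this
    have u := hz a i
    have v := hz a' i
    field_simp at this
    linear_combination this
  have q0 := q 0
  have q1 := q 1
  simp only [c0, c1] at q0 q1
  have e1 : T a = T a' := by
    refine sub_eq_zero.1 (mul_left_cancel₀ hab ?_)
    linear_combination (1 + T a) * q0 - T a * q1
  have e2 : T b = T b' := by linear_combination q1 - q0 + e1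
  have e3 : row a = row a' := ci _ _ h3 (funext fun i => by
    refine sub_eq_zero.1 (mul_left_cancel₀ hab ?_)
    have := q i
    rw [← e1, ← e2] at this
    linear_combination this)
  exact ⟨ti _ _ e3 e1, ti _ _ (h1.symm.trans (e3.trans h2)) e2⟩

/-- The quotients fill most of the torus. -/
theorem fill_num {k D : ℕ} (hD : 25 * (k + 4) ^ 2 ≤ D) {N : ℝ}
    (hN : (1 - 1 / 100) * ((D + (k + 4) - 2).descFactorial (k + 2) : ℕ) ≤ N) :
    19 * ((D + (k + 4) - 1 : ℕ) : ℝ) ^ (k + 4) ≤ 20 * (N * (D * (D - 1))) := by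
  have d1 : D ^ (k + 2) ≤ (D + (k + 4) - 2).descFactorial (k + 2) :=
    (Nat.pow_le_pow_left (by omega) _).trans (Nat.pow_sub_le_descFactorial _ _)
  have d2 : (D : ℝ) ^ (k + 2) ≤ ((D + (k + 4) - 2).descFactorial (k + 2) : ℕ) := by
    exact_mod_cast d1
  have e : ((D + (k + 4) - 1 : ℕ) : ℝ) = D + k + 3 := by
    rw [show D + (k + 4) - 1 = D + k + 3 by omega]
    push_cast
    ring
  have hD' : 25 * ((k : ℝ) + 4) ^ 2 ≤ D := by exact_mod_cast hD
  have k0 : (0 : ℝ) ≤ k := k.cast_nonneg
  have d3 : (400 : ℝ) ≤ D := by nlinarith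
  have p : (0 : ℝ) < D + k + 3 := by linarith
  have b := one_add_mul_le_pow (a := -(((k : ℝ) + 4) / (D + k + 3))) (by
    have : ((k : ℝ) + 4) / (D + k + 3) ≤ 1 := (div_le_one p).2 (by linarith)
    linarith) (k + 4)
  have b1 : 1 + -(((k : ℝ) + 4) / (D + k + 3)) = (D - 1) / (D + k + 3) := by
    field_simp
    ring
  have b2 : (24 / 25 : ℝ) ≤ 1 + ((k + 4 : ℕ) : ℝ) * -(((k : ℝ) + 4) / (D + k + 3)) := by
    have : ((k : ℝ) + 4) ^ 2 / (D + k + 3) ≤ 1 / 25 := by
      rw [div_le_iff₀ p]
      linarith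
    push_cast
    have e2 : ((k : ℝ) + 4) * -(((k : ℝ) + 4) / (D + k + 3)) =
        -(((k : ℝ) + 4) ^ 2 / (D + k + 3)) := by ring
    linarith
  rw [b1, div_pow] at b
  have b3 := (le_div_iff₀ (pow_pos p _)).1 (b2.trans b)
  have b4 : ((D : ℝ) - 1) ^ (k + 4) ≤ (D : ℝ) ^ (k + 2) * (D * (D - 1)) := by
    have : ((D : ℝ) - 1) ^ (k + 3) ≤ (D : ℝ) ^ (k + 3) :=
      pow_le_pow_left₀ (by linarith) (by linarith) _
    calc _ = ((D : ℝ) - 1) ^ (k + 3) * (D - 1) := pow_succ _ _
      _ ≤ (D : ℝ) ^ (k + 3) * (D - 1) := mul_le_mul_of_nonneg_right this (by linarith)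
      _ = _ := by ring
  have b5 : 99 / 100 * (D : ℝ) ^ (k + 2) * (D * (D - 1)) ≤ N * (D * (D - 1)) :=
    mul_le_mul_of_nonneg_right (by linarith) (by nlinarith)
  have b6 := pow_pos p (k + 4)
  rw [e]
  linarith

/-- The number of types lies between two powers of the degree. -/
theorem size_num {k D : ℕ} (hD : k + 4 ≤ D) :
    D ^ (k + 2) ≤ (D + (k + 4) - 2).descFactorial (k + 2) ∧
      (D + (k + 4) - 2).descFactorial (k + 2) ≤ D ^ (2 * (k + 2)) := by
  refine ⟨(Nat.pow_le_pow_left (by omega) _).trans (Nat.pow_sub_le_descFactorial _ _),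
    (Nat.descFactorial_le_pow _ _).trans ?_⟩
  rw [pow_mul]
  refine Nat.pow_le_pow_left ?_ _
  have : D + (k + 4) - 2 ≤ D + D := by omega
  nlinarith

end Pool.Agent.MP_434e52_an.H29
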