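import Pool.Agent.MP_434e52_an.HG.Glue31
import Pool.Agent.MP_434e52_an.HG.Ang83
import Pool.Agent.MP_434e52_an.HG.Types83
import Pool.Agent.MP_434e52_an.HG.Graph73
import Pool.Agent.MP_434e52_an.HG.Res
import Pool.Agent.MP_434e52_an.HG.Diag

/-! Choice of the parameters and assembly. -/

namespace Pool.Agent.MP_434e52_an.H29

open Finset Pool.Agent.MP_c6eade_gt.H41
open scoped Classical

theorem main : ∃ (G G' : Type) (_ : Group G) (_ : Group G'),
    Hyperbolic G ∧ Hyperbolic G' ∧ Infinite G ∧ Infinite G' ∧ ICC G ∧ ICC G' ∧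
      PropT G ∧ PropT G' ∧ VNIso G G' ∧ ¬ VirtIso G G' ∧ FreeInNormal G ∧ FreeInNormal G' ∧
      (∃ g : G, g ≠ 1 ∧ ∀ S : Subgroup G, S.FiniteIndex → g ∈ S) ∧
      ∃ g : G', g ≠ 1 ∧ ∀ S : Subgroup G', S.FiniteIndex → g ∈ S := by
  obtain ⟨k, hk⟩ := H29G.graph 60
  obtain ⟨D0, hD0⟩ := hk (2 * (k + 2)) (1 / 100) (by norm_num)
  obtain ⟨m0, hm0⟩ := Res.res (k + 4) (k + 4) Nat.lt_two_pow_self.le (by omega)
  obtain ⟨m, hm⟩ : ∃ m, m = m0 + D0 + 25 * (k + 4) ^ 2 + (k + 4) + 100 := ⟨_, rfl⟩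
  have hne : (k + 4) * m ≠ 0 := by
    have : 0 < m := by omega
    positivity
  have : Fact (Nat.Prime 2) := ⟨Nat.prime_two⟩
  let F := GaloisField 2 ((k + 4) * m)
  let _ : Fintype F := Fintype.ofFinite F
  have hF : Fintype.card F = (2 ^ (k + 4)) ^ m := by
    rw [← Nat.card_eq_fintype_card, GaloisField.card 2 _ hne, pow_mul]
  have hmF : m < Fintype.card F := by
    rw [hF]
    exact Nat.lt_pow_self (Nat.one_lt_two_pow (by omega))
  obtain ⟨D, hD⟩ : ∃ D, Fintype.card F = D + (k + 4) := ⟨Fintype.card F - (k + 4), by omega⟩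
  have hsq : k + 4 ≤ (k + 4) ^ 2 := Nat.le_self_pow (by norm_num) _
  obtain ⟨s1, s2⟩ := size_num (k := k) (D := D) (by omega)
  obtain ⟨Q, _, _, s, q1, q2, -, q3, -, q4⟩ := hD0 D _ (by omega)
    ((Nat.pow_le_pow_right (by omega) (by omega)).trans s1) s2
  obtain ⟨c, T, pos, t1, t2, t3, t4⟩ := types hD ((1 : Q), true) (by rw [hD]; exact q2)
  have hσ : ∀ e : Option ((Q × Bool) × Fin D),
      Option.map (H29G.sg s) (Option.map (H29G.sg s) e) = e := by
    rintro (_ | e)
    · rfl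
    · exact congrArg some (H29G.sg_sg s e)
  have hL := lin_of_uniq (σ := Option.map (H29G.sg s)) (by
    rintro (_ | ⟨⟨x, b⟩, i⟩) h
    · exact absurd rfl h
    · cases b <;> simp [H29G.sg]) (by norm_num) (girth_opt q3 ((1 : Q), true)) t4
  obtain ⟨H, _, ι, gr, hP⟩ := diag hσ (fun b => ⟨((1 : Q), b), rfl⟩) hL (by norm_num)
  refine twins_of_pack (by omega) hP
    (hm0 m (by omega) F hF _ _ _ _ _ pos c T hσ ⟨none, rfl, ?_⟩ t1 t2 t3 H ι gr hP.edge)
    fun V _ _ _ π hu => ?_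
  · rintro (_ | e) h
    · rfl
    · exact absurd (Option.some.inj h) (H29G.sg_ne s e)
  · refine ang_of_gap hu (D := D) (by omega) (fun i => Equiv.mulRight (s i))
      (fun b x i => pos (some ((x, b), i))) ι (fun b x => gr (x, b)) ?_ ?_ ?_ ?_
    · intro b x i j x' i' j' hij h
      have := t4 (some ((x, b), i)) (some ((x, b), j)) (some ((x', b), i')) (some ((x', b), j'))
        rfl rfl rfl (by simpa using hij) h
      simp only [Option.some.injEq, Prod.mk.injEq] at this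
      exact ⟨this.1.1.1, this.1.2, this.2.2⟩
    · have := fill_num (k := k) (D := D) (by omega) q1
      rw [Fintype.card_fun, Fintype.card_units, hD, Fintype.card_fin]
      exact_mod_cast this
    · intro x i
      exact hP.edge (some ((x, true), i)) fun h => H29G.sg_ne s _ (Option.some.inj h)
    · intro f hf
      refine (q4 true V f hf).trans (mul_le_mul_of_nonneg_right ?_ (by positivity))
      have : (0 : ℝ) ≤ D := Nat.cast_nonneg D
      nlinarith [sq_nonneg (D : ℝ)]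

end Pool.Agent.MP_434e52_an.H29
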