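import Pool.Agent.MP_c6eade_gt.H41.Basic

/-! Reduced diagrams with several defects and the linear bound for them. -/

namespace Pool.Agent.MP_434e52_an.H29

open Equiv Finset Pool.Agent.MP_c6eade_gt.H41
open scoped Classical

/-- A reduced genus zero diagram with a set `Df` of defects. -/
structure RedM {R E Kd Ω : Type} [Group Ω] (row : E → R) (kind : R → Kd) (σ : E → E) (P : E → Ω)
    (D : Type) where
  f : Perm D
  h : Perm D
  T : Finset D
  o : D → E
  u : D → Ω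
  Df : Finset D
  planar : gen f h ≤ 0
  dead : ∀ x, x ∉ T → f x = x ∧ h x = x
  cross : ∀ x ∈ T, σ (o x) ≠ o x ∧ row (o (f x)) = row (σ (o x)) ∧ o (f x) ≠ σ (o x)
  kind_eq : ∀ x ∈ T, kind (row (o (h x))) = kind (row (o x))
  rel : ∀ x ∈ T, x ∉ Df → u x * P (σ (o (f⁻¹ x))) = u (h x) * P (o (h x))
  red : ∀ x ∈ T, ∀ y ∈ T, h.SameCycle x y → x ≠ y → row (o x) = row (o y) → u x ≠ u y

/-- Reduced diagrams have at most `C` darts per defect, and at least `m` darts if any. -/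
def Lin {R E Kd K : Type} [Group K] (row : E → R) (kind : R → Kd) (σ : E → E) (pos : E → K)
    (C m : ℕ) : Prop :=
  ∀ (H : Type) [Group H] (G : R → H) (j : Kd → K →* H), (∀ a, Function.Injective (j a)) →
    ∀ (D : Type) [Fintype D]
      (X : RedM row kind σ (fun e => G (row e) * j (kind (row e)) (pos e)) D),
      #X.T ≤ C * #X.Df ∧ (X.T.Nonempty → m ≤ #X.T)

/-- Linear bound for the area of closed paths with steps in `S`, in Stokes form. -/
def IsoS {G : Type} [Group G] (S : Set G) (C : ℕ) : Prop :=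
  ∀ f h : G → ℤ, (∀ x, ∀ s ∈ S, |f (x * s) - f x| ≤ 1) → (∀ x, ∀ s ∈ S, |h (x * s) - h x| ≤ 1) →
    ∀ (n : ℕ) (γ : ℕ → G), γ n = γ 0 →
      (∀ i < n, (γ i)⁻¹ * γ (i + 1) ∈ S ∨ (γ (i + 1))⁻¹ * γ i ∈ S) →
      |∑ i ∈ range n, (f (γ i) + f (γ (i + 1))) * (h (γ (i + 1)) - h (γ i))| ≤ C * n

/-- The product of a word. -/
def ev {Kd K H : Type} [Group K] [Group H] (ι : Kd → K →* H) (l : List (Kd × K)) : H :=
  (l.map fun x => ι x.1 x.2).prod

/-- What the diagrams give for the universal group of the graph. -/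
structure Pack {R E Kd K : Type} [Group K] (row : E → R) (kind : R → Kd) (σ : E → E)
    (pos : E → K) (H : Type) [Group H] (ι : Kd → K →* H) (gr : R → H) : Prop where
  inj : ∀ a, Function.Injective (ι a)
  gen : ⨆ a, (ι a).range = ⊤
  edge : ∀ e, σ e ≠ e → gr (row e) * ι (kind (row e)) (pos e) =
    gr (row (σ e)) * ι (kind (row (σ e))) (pos (σ e))
  lift : ∀ (M : Type) [Group M] (φ : Kd → K →* M) (g : R → M), (∀ e, σ e ≠ e →
    g (row e) * φ (kind (row e)) (pos e) = g (row (σ e)) * φ (kind (row (σ e))) (pos (σ e))) →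
    ∃ ψ : H →* M, ∀ a k, ψ (ι a k) = φ a k
  short : ∀ (n : ℕ) (w : Fin (n + 1) → Kd × K), n + 1 ≤ 8 → (∀ i, (w i).2 ≠ 1) →
    (n = 0 ∨ ∀ i, (w (i + 1)).1 ≠ (w i).1) → ev ι (List.ofFn w) ≠ 1
  iso : ∃ C, IsoS (⋃ a, ((ι a).range : Set H)) C
  noinv : Odd (Nat.card K) → ∀ h : H, h ^ 2 = 1 → h = 1

end Pool.Agent.MP_434e52_an.H29
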