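import Pool.Agent.MP_c6eade_gt.H41.B2
import Pool.Agent.MP_c6eade_gt.H41.B1
import Pool.Agent.MP_434e52_an.HG.DDefs

/-! Developed diagrams with an outer part and their reduction. -/

namespace Pool.Agent.MP_434e52_an.H29

open Equiv Finset Pool.Agent.MP_c6eade_gt.H41
open scoped Classical

/-- The graph with its positions and a solution of the edge equations. -/
structure Gd (R E Kd K H : Type) [Group K] [Group H] where
  row : E → R
  kind : R → Kd
  σ : E → E
  pos : E → K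
  ι : Kd → K →* H
  gr : R → H
  inv : ∀ e, σ (σ e) = e
  edge : ∀ e, σ e ≠ e → gr (row e) * ι (kind (row e)) (pos e) =
    gr (row (σ e)) * ι (kind (row (σ e))) (pos (σ e))

/-- The outer data of a diagram. -/
structure Out (Kd H D : Type) where
  O : Finset D
  f : D → D
  κ : D → Kd
  A : D → H
  B : D → H

variable {R E Kd K H : Type} [Group K] [Group H]

/-- The point of a half-edge. -/
def Gd.pt (G : Gd R E Kd K H) (e : E) : H := G.gr (G.row e) * G.ι (G.kind (G.row e)) (G.pos e)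

/-- The point `p` lies in the row `r` of the copy `g`. -/
def Gd.In (G : Gd R E Kd K H) (g : H) (r : R) (p : H) : Prop :=
  ∃ k, p = g * (G.gr r * G.ι (G.kind r) k)

/-- The value of a cochain on a link. -/
def cl (σ : E → E) (ψ : H → E → ZMod 2) (g : H) (l : Option E) : ZMod 2 :=
  l.elim 0 fun e => ψ g e + ψ g (σ e)

/-- A developed genus zero diagram with outer data `Z` and chain `m`. -/
structure Dev (G : Gd R E Kd K H) {D : Type} (Z : Out Kd H D) (m : (H → E → ZMod 2) → ZMod 2) where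
  f : Perm D
  h : Perm D
  T : Finset D
  r : D → R
  γ : D → H
  A : D → H
  B : D → H
  lk : D → Option E
  planar : gen f h ≤ 0
  dead : ∀ x, x ∉ T → x ∉ Z.O → f x = x ∧ h x = x
  disj : ∀ x ∈ T, x ∉ Z.O
  fT : ∀ x ∈ T, f x ∈ T
  out : ∀ x ∈ Z.O, f x = Z.f x ∧ A x = Z.A x ∧ B x = Z.B x
  hub : ∀ x, x ∈ T ∨ x ∈ Z.O → Z.κ (h x) = Z.κ x ∧ A x = B (h x)
  inn : ∀ x ∈ T, G.kind (r x) = Z.κ x ∧ G.In (γ x) (r x) (A x) ∧ G.In (γ x) (r x) (B x) ∧
    γ (f x) = γ x ∧ A (f x) = B x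
  stay : ∀ x ∈ T, lk x = none → r (f x) = r x
  cross : ∀ x ∈ T, ∀ e, lk x = some e →
    G.σ e ≠ e ∧ G.row e = r x ∧ G.row (G.σ e) = r (f x) ∧ B x = γ x * G.pt e
  ch : ∀ ψ, ∑ x ∈ T, cl G.σ ψ (γ x) (lk x) = m ψ

variable {G : Gd R E Kd K H} {D : Type} [Fintype D] {Z : Out Kd H D}
  {m : (H → E → ZMod 2) → ZMod 2}

namespace Dev

omit [Fintype D] in
theorem f_iff (X : Dev G Z m) (x : D) : X.f x ∈ X.T ↔ x ∈ X.T := A2x.mem_iff X.fT x

omit [Fintype D] in
theorem h_live (X : Dev G Z m) {x : D} : (X.h x ∈ X.T ∨ X.h x ∈ Z.O) ↔ (x ∈ X.T ∨ x ∈ Z.O) := by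
  constructor
  · intro h
    by_contra c
    rw [not_or] at c
    rw [(X.dead x c.1 c.2).2] at h
    exact h.elim c.1 c.2
  · intro h
    by_contra c
    rw [not_or] at c
    rw [X.h.injective (X.dead _ c.1 c.2).2] at c
    exact h.elim c.1 c.2

theorem erase (X : Dev G Z m) {n p w : D} (hn : n ∈ X.T) (hp : X.f p = n) (hw : X.h w = n)
    (b : H) (l : Option E) (hb : p ≠ n → G.In (X.γ p) (X.r p) b ∧ X.A (X.f n) = b)
    (hst : p ≠ n → l = none → X.r (X.f n) = X.r p)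
    (hcr : p ≠ n → ∀ e, l = some e → G.σ e ≠ e ∧ G.row e = X.r p ∧
      G.row (G.σ e) = X.r (X.f n) ∧ b = X.γ p * G.pt e)
    (hrel : ∀ x, x ∈ X.T ∨ x ∈ Z.O → x ≠ n →
      X.A x = Function.update X.B p b (if x = w then X.h n else X.h x))
    (hch : ∀ ψ, (p = n → cl G.σ ψ (X.γ n) (X.lk n) = 0) ∧ (p ≠ n → cl G.σ ψ (X.γ p) l =
      cl G.σ ψ (X.γ p) (X.lk p) + cl G.σ ψ (X.γ n) (X.lk n))) :
    ∃ X' : Dev G Z m, #X'.T < #X.T := by
  have hf' := B2x.cut_apply X.f hp
  have hh' := B2x.cut_apply X.h hw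
  have hpT : p ∈ X.T := (X.f_iff p).1 (hp ▸ hn)
  have hwT : w ∈ X.T ∨ w ∈ Z.O := X.h_live.1 (Or.inl (hw ▸ hn))
  refine ⟨
    { f := X.f * swap p n, h := X.h * swap w n, T := X.T.erase n, r := X.r, γ := X.γ, A := X.A
      B := Function.update X.B p b, lk := Function.update X.lk p l
      planar := (gen_h_split' (B2x.same_step X.h hw)).trans
        ((gen_f_split (B2x.same_step X.f hp)).trans X.planar)
      dead := ?_, disj := fun x hx => X.disj x (mem_of_mem_erase hx), fT := ?_, out := ?_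
      hub := ?_, inn := ?_, stay := ?_, cross := ?_, ch := ?_ }, card_erase_lt_of_mem hn⟩
  · intro x hx hO
    rw [hf', hh']
    by_cases h1 : x = n
    · simp [h1]
    · have hxT : x ∉ X.T := fun h => hx (mem_erase.2 ⟨h1, h⟩)
      rw [if_neg h1, if_neg h1, if_neg (fun h : x = p => hxT (h ▸ hpT)),
        if_neg (fun h : x = w => (h ▸ hwT : x ∈ X.T ∨ x ∈ Z.O).elim hxT hO)]
      exact X.dead x hxT hO
  · intro x hx
    rw [mem_erase] at hx
    rw [hf', if_neg hx.1, mem_erase]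
    split_ifs with h1
    · exact ⟨fun h => hx.1 (h1.trans (X.f.injective (hp.trans h.symm))), X.fT n hn⟩
    · exact ⟨fun h => h1 (X.f.injective (h.trans hp.symm)), X.fT x hx.2⟩
  · intro x hx
    have h1 : x ≠ n := fun h => X.disj n hn (h ▸ hx)
    have h2 : x ≠ p := fun h => X.disj p hpT (h ▸ hx)
    rw [hf', if_neg h1, if_neg h2, Function.update_of_ne h2]
    exact X.out x hx
  · intro x hx
    have h1 : x ≠ n := hx.elim (fun h => (mem_erase.1 h).1) fun h c => X.disj n hn (c ▸ h)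
    have h2 : x ∈ X.T ∨ x ∈ Z.O := hx.imp_left mem_of_mem_erase
    rw [hh', if_neg h1]
    refine ⟨?_, hrel x h2 h1⟩
    split_ifs with h3
    · rw [(X.hub n (Or.inl hn)).1, h3, ← hw, (X.hub w hwT).1]
    · exact (X.hub x h2).1
  · intro x hx
    rw [mem_erase] at hx
    have h0 := X.inn x hx.2
    rw [hf', if_neg hx.1]
    by_cases h1 : x = p
    · subst h1
      rw [if_pos rfl, Function.update_self]
      exact ⟨h0.1, h0.2.1, (hb hx.1).1, (X.inn n hn).2.2.2.1.trans (hp ▸ h0.2.2.2.1), (hb hx.1).2⟩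
    · rw [if_neg h1, Function.update_of_ne h1]
      exact h0
  · intro x hx hl
    rw [mem_erase] at hx
    rw [hf', if_neg hx.1]
    by_cases h1 : x = p
    · subst h1
      rw [Function.update_self] at hl
      rw [if_pos rfl]
      exact hst hx.1 hl
    · rw [Function.update_of_ne h1] at hl
      rw [if_neg h1]
      exact X.stay x hx.2 hl
  · intro x hx e hl
    rw [mem_erase] at hx
    rw [hf', if_neg hx.1]
    by_cases h1 : x = p
    · subst h1
      rw [Function.update_self] at hl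
      rw [if_pos rfl, Function.update_self]
      exact hcr hx.1 e hl
    · rw [Function.update_of_ne h1] at hl
      rw [if_neg h1, Function.update_of_ne h1]
      exact X.cross x hx.2 e hl
  · intro ψ
    rw [← X.ch ψ, ← add_sum_erase _ _ hn]
    by_cases h1 : p = n
    · rw [(hch ψ).1 h1, zero_add]
      exact sum_congr rfl fun x hx => by
        rw [Function.update_of_ne (h1 ▸ (mem_erase.1 hx).1)]
    · have h2 : p ∈ X.T.erase n := mem_erase.2 ⟨h1, hpT⟩
      rw [← add_sum_erase _ _ h2, ← add_sum_erase _ _ h2, Function.update_self, (hch ψ).2 h1,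
        sum_congr rfl fun x hx => by rw [Function.update_of_ne (mem_erase.1 hx).1]]
      ring

theorem del (X : Dev G Z m) {n p : D} (hn : n ∈ X.T) (hp : X.f p = n) (hAB : X.A n = X.B n)
    (hst : p ≠ n → X.r (X.f n) = X.r p)
    (hch : ∀ ψ, (p = n → cl G.σ ψ (X.γ n) (X.lk n) = 0) ∧ (p ≠ n → 0 =
      cl G.σ ψ (X.γ p) (X.lk p) + cl G.σ ψ (X.γ n) (X.lk n))) :
    ∃ X' : Dev G Z m, #X'.T < #X.T := by
  obtain ⟨w, hw⟩ := X.h.surjective n
  have hpT : p ∈ X.T := (X.f_iff p).1 (hp ▸ hn)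
  refine X.erase hn hp hw (X.B p) none (fun _ => ⟨(X.inn p hpT).2.2.1, ?_⟩) (fun h _ => hst h)
    (fun _ e he => by simp at he) (fun x hx _ => ?_) hch
  · rw [(X.inn n hn).2.2.2.2, ← hAB, ← hp, (X.inn p hpT).2.2.2.2]
  · rw [Function.update_eq_self, (X.hub x hx).2]
    split_ifs with h1
    · rw [h1, hw, ← hAB, (X.hub n (Or.inl hn)).2]
    · rfl

theorem fold (X : Dev G Z m) {n p : D} (hp : p ∈ X.T) (hf : X.f p = n) (hpn : p ≠ n)
    (hl : X.lk p = none) (hh : X.h n = p) : ∃ X' : Dev G Z m, #X'.T < #X.T := by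
  have hn : n ∈ X.T := hf ▸ X.fT p hp
  obtain ⟨w, hw⟩ := X.h.surjective n
  have hs : X.r n = X.r p := hf ▸ X.stay p hp hl
  have hg : X.γ n = X.γ p := hf ▸ (X.inn p hp).2.2.2.1
  refine X.erase hn hf hw (X.B n) (X.lk n) (fun _ => ?_) (fun _ h => ?_) (fun _ e he => ?_)
    (fun x hx hxn => ?_) fun ψ => ⟨fun h => absurd h hpn, fun _ => ?_⟩
  · rw [← hs, ← hg]; exact ⟨(X.inn n hn).2.2.1, (X.inn n hn).2.2.2.2⟩
  · rw [← hs]; exact X.stay n hn h
  · rw [← hs, ← hg]; exact X.cross n hn e he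
  · split_ifs with h1
    · rw [hh, Function.update_self, (X.hub x hx).2, h1, hw]
    · rw [Function.update_of_ne fun h => hxn (X.h.injective (h.trans hh.symm)), (X.hub x hx).2]
  · rw [hl, hg]
    exact (zero_add _).symm

theorem r1 (X : Dev G Z m) {p : D} (hp : p ∈ X.T) (hl : X.lk p = none) :
    ∃ X' : Dev G Z m, #X'.T < #X.T := by
  obtain ⟨n, hf⟩ : ∃ n, X.f p = n := ⟨_, rfl⟩
  have hn : n ∈ X.T := hf ▸ X.fT p hp
  have hA : X.A n = X.B p := hf ▸ (X.inn p hp).2.2.2.2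
  by_cases hpn : p = n
  · subst hpn
    exact X.del hp hf hA (fun h => absurd rfl h) fun ψ => ⟨fun _ => by rw [hl]; rfl,
      fun h => absurd rfl h⟩
  by_cases hh : X.h n = p
  · exact X.fold hp hf hpn hl hh
  obtain ⟨a, ha⟩ := X.h.surjective p
  have haT : a ∈ X.T ∨ a ∈ Z.O := X.h_live.1 (Or.inl (ha ▸ hp))
  have ht := B2x.turn_apply X.h (n := n) ha
  have hk : Z.κ n = Z.κ p := by
    rw [← (X.inn n hn).1, ← (X.inn p hp).1, ← hf, X.stay p hp hl]
  let Y : Dev G Z m :=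
    { X with
      h := swap p (X.h n) * X.h
      planar := (gen_h_vsplit (B2x.same_step _ (by rw [Perm.mul_apply, hf]))).trans X.planar
      dead := fun x hx hO => ⟨(X.dead x hx hO).1, by
        rw [ht, if_neg (fun h : x = n => hx (h ▸ hn)),
          if_neg (fun h : x = a => (h ▸ haT : x ∈ X.T ∨ x ∈ Z.O).elim hx hO)]
        exact (X.dead x hx hO).2⟩
      hub := fun x hx => by
        rw [ht]
        split_ifs with h1 h2
        · rw [h1]; exact ⟨hk.symm, hA⟩
        · rw [(X.hub n (Or.inl hn)).1, ← (X.hub n (Or.inl hn)).2, hk, hA, h2, ← ha]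
          exact X.hub a haT
        · exact X.hub x hx }
  exact Y.fold hp hf hpn hl (by change (swap p (X.h n) * X.h) n = p; rw [ht, if_pos rfl])

theorem r2 (X : Dev G Z m) {p : D} (hp : p ∈ X.T) {e : E} (h1 : X.lk p = some e)
    (h2 : X.lk (X.f p) = some (G.σ e)) : ∃ X' : Dev G Z m, #X'.T < #X.T := by
  have c1 := X.cross p hp e h1
  have c2 := X.cross _ (X.fT p hp) _ h2
  have c3 := X.inn p hp
  rw [G.inv] at c2
  refine X.del (X.fT p hp) rfl ?_ (fun _ => c2.2.2.1.symm.trans c1.2.1) fun ψ =>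
    ⟨fun h => ?_, fun _ => ?_⟩
  · rw [c3.2.2.2.2, c1.2.2.2, c2.2.2.2, c3.2.2.2.1]
    exact congrArg _ (G.edge e c1.1)
  · rw [← h, h1] at h2
    exact absurd (Option.some.inj h2).symm c1.1
  · rw [h1, h2, c3.2.2.2.1]
    simp only [cl, Option.elim, G.inv]
    generalize ψ _ e = u
    generalize ψ _ (G.σ e) = v
    revert u v
    decide

theorem r3 (X : Dev G Z m) {a b : D} (ha : a ∈ X.T) (hb : b ∈ X.T)
    (hs : X.h.SameCycle a b) (hab : a ≠ b) (hr : X.r a = X.r b) (hu : X.γ a = X.γ b) :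
    ∃ X' : Dev G Z m, X'.T = X.T ∧ cyc X.h < cyc X'.h := by
  have key : ∀ {β : Type} (φ : D → β), φ a = φ b → ∀ x, φ (swap a b x) = φ x := fun φ h x => by
    rw [swap_apply_def]
    split_ifs with h1 h2
    · rw [h1, h]
    · rw [h2, h]
    · rfl
  have hT : ∀ x, swap a b x ∈ X.T ↔ x ∈ X.T := fun x =>
    iff_of_eq (key (· ∈ X.T) (propext (iff_of_true ha hb)) x)
  have hfix : ∀ x, x ∉ X.T → swap a b x = x := fun x hx =>
    swap_apply_of_ne_of_ne (fun h => hx (h ▸ ha)) fun h => hx (h ▸ hb)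
  have hr' := key X.r hr
  have hu' := key X.γ hu
  have hk' := key Z.κ (by rw [← (X.inn a ha).1, ← (X.inn b hb).1, hr])
  refine ⟨
    { f := swap a b * X.f, h := X.h * swap a b, T := X.T, r := X.r, γ := X.γ
      A := fun x => X.A (swap a b x), B := X.B, lk := X.lk
      planar := (gen_both hs).trans X.planar
      dead := fun x hx hO => ?_, disj := X.disj, fT := fun x hx => (hT _).2 (X.fT x hx)
      out := fun x hx => ?_, hub := fun x hx => ?_, inn := fun x hx => ?_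
      stay := fun x hx hl => ?_, cross := fun x hx e hl => ?_, ch := X.ch }, rfl, ?_⟩
  · rw [Perm.mul_apply, Perm.mul_apply, (X.dead x hx hO).1, hfix x hx, (X.dead x hx hO).2]
    exact ⟨rfl, rfl⟩
  · have h1 : x ∉ X.T := fun h => X.disj x h hx
    rw [Perm.mul_apply, hfix x h1, hfix _ fun h => h1 ((X.f_iff x).1 h)]
    exact X.out x hx
  · rw [Perm.mul_apply, ← hk' x]
    by_cases h1 : x ∈ X.T
    · exact X.hub _ (Or.inl ((hT x).2 h1))
    · rw [hfix x h1]
      exact X.hub x hx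
  · have h1 := X.inn x hx
    have h2 := (X.inn _ ((hT x).2 hx)).2.1
    rw [hr', hu'] at h2
    rw [Perm.mul_apply, hu', swap_apply_self]
    exact ⟨h1.1, h2, h1.2.2⟩
  · rw [Perm.mul_apply, hr']
    exact X.stay x hx hl
  · rw [Perm.mul_apply, hr']
    exact X.cross x hx e hl
  · change cyc X.h < cyc (X.h * swap a b)
    rw [(cyc_split hab hs).1]
    exact Nat.lt_succ_self _

theorem exists_min (X : Dev G Z m) : ∃ Y : Dev G Z m,
    (∀ W : Dev G Z m, #Y.T ≤ #W.T) ∧ ∀ W : Dev G Z m, W.T = Y.T → cyc W.h ≤ cyc Y.h := by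
  have : Nonempty (Dev G Z m) := ⟨X⟩
  let Y₀ := Function.argmin fun W : Dev G Z m => #W.T
  have : Nonempty {W : Dev G Z m // W.T = Y₀.T} := ⟨⟨Y₀, rfl⟩⟩
  let Y := Function.argmin fun W : {W : Dev G Z m // W.T = Y₀.T} => Nat.card D - cyc W.1.h
  refine ⟨Y.1, fun W => ?_, fun W hW => ?_⟩
  · rw [Y.2]
    exact Function.argmin_le (fun W : Dev G Z m => #W.T) W
  · have h1 : Nat.card D - cyc Y.1.h ≤ Nat.card D - cyc W.h := Function.argmin_le
      (fun W : {W : Dev G Z m // W.T = Y₀.T} => Nat.card D - cyc W.1.h) ⟨W, hW.trans Y.2⟩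
    have h2 := B2x.cyc_le W.h
    omega

end Dev

theorem skip (f h : Perm D) (O : Finset D) : ∃ f' h' : Perm D, gen f' h' ≤ gen f h ∧
    (∀ x ∈ O, f' x = x ∧ h' x = x) ∧ (∀ x, x ∉ O → f x ∉ O → f' x = f x) ∧
    (∀ x, x ∉ O → h x ∉ O → h' x = h x) ∧ ∀ x, h.SameCycle x (h' x) := by
  induction O using Finset.induction_on with
  | empty => exact ⟨f, h, le_rfl, by simp, fun _ _ _ => rfl, fun _ _ _ => rfl,
      fun x => B2x.same_step h rfl⟩
  | insert n O hn ih =>
    obtain ⟨f', h', a0, a1, a2, a3, a4⟩ := ih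
    obtain ⟨p, hp⟩ := f'.surjective n
    obtain ⟨w, hw⟩ := h'.surjective n
    have hf' := B2x.cut_apply f' hp
    have hh' := B2x.cut_apply h' hw
    refine ⟨f' * swap p n, h' * swap w n, (gen_h_split' (B2x.same_step h' hw)).trans
      ((gen_f_split (B2x.same_step f' hp)).trans a0), fun x hx => ?_, fun x hx hx' => ?_,
      fun x hx hx' => ?_, fun x => ?_⟩
    · rw [hf', hh']
      by_cases h1 : x = n
      · simp [h1]
      · have h2 := a1 x ((mem_insert.1 hx).resolve_left h1)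
        rw [if_neg h1, if_neg h1, if_neg fun c : x = p => h1 (h2.1.symm.trans (c ▸ hp)),
          if_neg fun c : x = w => h1 (h2.2.symm.trans (c ▸ hw))]
        exact h2
    · rw [mem_insert, not_or] at hx hx'
      have h2 := a2 x hx.2 hx'.2
      rw [hf', if_neg hx.1, if_neg fun c : x = p => hx'.1 (h2.symm.trans (c ▸ hp)), h2]
    · rw [mem_insert, not_or] at hx hx'
      have h2 := a3 x hx.2 hx'.2
      rw [hh', if_neg hx.1, if_neg fun c : x = w => hx'.1 (h2.symm.trans (c ▸ hw)), h2]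
    · rw [hh']
      split_ifs with h1 h2
      · rw [h1]
      · rw [h2]
        exact (hw ▸ a4 w : h.SameCycle w n).trans (a4 n)
      · exact a4 x

/-- Every diagram can be replaced by a reduced one, to which the linear bound applies. -/
theorem Dev.reduce {C m0 : ℕ} (hL : Lin G.row G.kind G.σ G.pos C m0)
    (hi : ∀ a, Function.Injective (G.ι a)) (X : Dev G Z m) :
    ∃ Y : Dev G Z m, (∀ x ∈ Y.T, ∃ e, Y.lk x = some e) ∧ #Y.T ≤ C * #Z.O ∧
      (Y.T.Nonempty → m0 ≤ #Y.T) := by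
  obtain ⟨Y, h1, h2⟩ := X.exists_min
  have hlk : ∀ x ∈ Y.T, ∃ e, Y.lk x = some e := fun x hx => by
    rcases h : Y.lk x with _ | e
    · obtain ⟨W, hW⟩ := Y.r1 hx h
      exact absurd (h1 W) (not_le.2 hW)
    · exact ⟨e, rfl⟩
  refine ⟨Y, hlk, ?_⟩
  rcases Y.T.eq_empty_or_nonempty with hT | ⟨d, hd⟩
  · simp [hT]
  obtain ⟨e₀, -⟩ := hlk _ hd
  have ho : ∀ x ∈ Y.T, Y.lk x = some ((Y.lk x).getD e₀) := fun x hx => by
    obtain ⟨e, he⟩ := hlk x hx
    rw [he, Option.getD_some]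
  have hc := fun x hx => Y.cross x hx _ (ho x hx)
  obtain ⟨f', h', a0, a1, a2, a3, a4⟩ := skip Y.f Y.h Z.O
  have b1 : ∀ x ∈ Y.T, f' x = Y.f x := fun x hx => a2 x (Y.disj x hx) (Y.disj _ (Y.fT x hx))
  have b2 : ∀ x, x ∉ Y.T → f' x = x ∧ h' x = x := fun x hx => by
    by_cases hO : x ∈ Z.O
    · exact a1 x hO
    · have h3 := Y.dead x hx hO
      rw [a2 x hO (h3.1.symm ▸ hO), a3 x hO (h3.2.symm ▸ hO)]
      exact h3
  have b3 : ∀ x ∈ Y.T, h' x ∈ Y.T := fun x hx => B2x.mem_of_dead (fun x h => (b2 x h).2) hx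
  have b4 : ∀ x y, Y.h.SameCycle x y → Z.κ x = Z.κ y := fun x y hs => by
    have h3 : A1x.sc Y.h ≤ Setoid.ker Z.κ := A1x.sc_le.2 fun x => by
      by_cases hx : x ∈ Y.T ∨ x ∈ Z.O
      · exact (Y.hub x hx).1.symm
      · rw [not_or] at hx
        rw [(Y.dead x hx.1 hx.2).2]
    exact h3 hs
  have b5 : ∀ x y, h'.SameCycle x y → Y.h.SameCycle x y := fun x y hs =>
    (A1x.sc_le.2 a4 : A1x.sc h' ≤ A1x.sc Y.h) hs
  have key := hL H G.gr G.ι hi D
    { f := f', h := h', T := Y.T, o := fun x => (Y.lk x).getD e₀, u := Y.γ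
      Df := {x ∈ Y.T | Y.h x ∈ Z.O}, planar := a0.trans Y.planar, dead := b2
      cross := fun x hx => by
        rw [b1 x hx]
        refine ⟨(hc x hx).1, (hc _ (Y.fT x hx)).2.1.trans (hc x hx).2.2.1.symm, fun h => ?_⟩
        obtain ⟨W, hW⟩ := Y.r2 hx (ho x hx) (h ▸ ho _ (Y.fT x hx))
        exact absurd (h1 W) (not_le.2 hW)
      kind_eq := fun x hx => by
        rw [(hc x hx).2.1, (hc _ (b3 x hx)).2.1, (Y.inn x hx).1, (Y.inn _ (b3 x hx)).1]
        exact (b4 _ _ (a4 x)).symm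
      rel := fun x hx hD => by
        have h3 : Y.h x ∉ Z.O := fun c => hD (mem_filter.2 ⟨hx, c⟩)
        have h4 := a3 x (Y.disj x hx) h3
        obtain ⟨p, rfl⟩ := Y.f.surjective x
        have hp := (Y.f_iff p).1 hx
        have h5 : f'⁻¹ (Y.f p) = p := by rw [← b1 p hp]; simp
        have h6 := (hc _ (b3 _ hx)).2.2.2
        rw [h4, ← (Y.hub _ (Or.inl hx)).2, (Y.inn p hp).2.2.2.2, (hc p hp).2.2.2] at h6
        rw [h5, h4, (Y.inn p hp).2.2.2.1, ← G.edge _ (hc p hp).1]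
        exact h6
      red := fun x hx y hy hs hxy hr hu => by
        rw [(hc x hx).2.1, (hc y hy).2.1] at hr
        obtain ⟨W, hW, hlt⟩ := Y.r3 hx hy (b5 x y hs) hxy hr hu
        exact absurd (h2 W hW) (not_le.2 hlt) }
  refine ⟨key.1.trans (Nat.mul_le_mul_left _ ?_), key.2⟩
  exact card_le_card_of_injOn Y.h (fun x hx => (mem_filter.1 hx).2) Y.h.injective.injOn

/-- The labels along the outer list spell the word from the base point. -/
def Lab (G : Gd R E Kd K H) {D : Type} (Z : Out Kd H D) : H → List D → List (Kd × K) → Prop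
  | _, [], [] => True
  | p, x :: l, c :: w => Z.κ x = c.1 ∧ Z.A x = p ∧ Z.B x = p * G.ι c.1 c.2 ∧
      Lab G Z (p * G.ι c.1 c.2) l w
  | _, [], _ :: _ => False
  | _, _ :: _, [] => False

/-- The word `w` read from `b` bounds a diagram with chain `m`. -/
def Bd (G : Gd R E Kd K H) (b : H) (w : List (Kd × K)) (m : (H → E → ZMod 2) → ZMod 2) : Prop :=
  ∃ (D : Type) (_ : Fintype D) (Z : Out Kd H D) (l : List D), Nonempty (Dev G Z m) ∧ l.Nodup ∧
    (∀ x, x ∈ Z.O ↔ x ∈ l) ∧ (∀ e, l.head? = some e → B1x.Pth Z.f l e) ∧ Lab G Z b l w ∧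
    ev G.ι w = 1

/-- Translation of chains. -/
def act (g : H) (μ : (H → E → ZMod 2) → ZMod 2) : (H → E → ZMod 2) → ZMod 2 :=
  fun ψ => μ fun x e => ψ (g * x) e

/-- The van Kampen lemma for the universal group. -/
structure VK (G : Gd R E Kd K H) : Prop where
  inj : ∀ a, Function.Injective (G.ι a)
  gen : ∀ h : H, ∃ w, ev G.ι w = h
  ex : ∀ w b, ev G.ι w = 1 → ∃ m, Bd G b w m
  uniq : ∀ w, ev G.ι w = 1 → ∃ μ, ∀ b m, Bd G b w m → Bd G b [] (m + act b μ)
  rot : ∀ b A B m, Bd G b (A ++ B) m → Bd G (b * ev G.ι A) (B ++ A) m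

end Pool.Agent.MP_434e52_an.H29
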