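import Pool.Agent.MP_434e52_an.HG.D1

/-! The van Kampen lemma with chains for the universal group of the graph. -/

namespace Pool.Agent.MP_434e52_an.H29

open Equiv Finset Pool.Agent.MP_c6eade_gt.H41
open Pool.Agent.MP_c6eade_gt.H41.B1x (Pth Wk lt bar Face)
open scoped Classical

variable {R E Kd K H : Type} [Group K] [Group H] {G : Gd R E Kd K H}
  {m : (H → E → ZMod 2) → ZMod 2}

theorem ev_nil (ι : Kd → K →* H) : ev ι [] = 1 := rfl

theorem ev_cons (ι : Kd → K →* H) (x : Kd × K) (w : List (Kd × K)) :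
    ev ι (x :: w) = ι x.1 x.2 * ev ι w := by simp [ev]

theorem ev_append (ι : Kd → K →* H) (w w' : List (Kd × K)) :
    ev ι (w ++ w') = ev ι w * ev ι w' := by simp [ev]

theorem lab_append {D : Type} {Z : Out Kd H D} : ∀ (l l' : List D) (w w' : List (Kd × K)) (p : H),
    Lab G Z p l w → Lab G Z (p * ev G.ι w) l' w' → Lab G Z p (l ++ l') (w ++ w')
  | [], _, [], _, p, _, h => by simpa [ev_nil] using h
  | [], _, _ :: _, _, _, h, _ => h.elim
  | _ :: _, _, [], _, _, h, _ => h.elim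
  | x :: l, l', c :: w, w', p, h, h' =>
    ⟨h.1, h.2.1, h.2.2.1, lab_append l l' w w' _ h.2.2.2 (by rwa [ev_cons, ← mul_assoc] at h')⟩

theorem lab_split {D : Type} {Z : Out Kd H D} : ∀ (w w' : List (Kd × K)) (l : List D) (p : H),
    Lab G Z p l (w ++ w') → ∃ l1 l2, l = l1 ++ l2 ∧ Lab G Z p l1 w ∧ Lab G Z (p * ev G.ι w) l2 w'
  | [], _, l, p, h => ⟨[], l, rfl, trivial, by simpa [ev_nil] using h⟩
  | _ :: _, _, [], _, h => h.elim
  | c :: w, w', x :: l, p, h => by
    obtain ⟨l1, l2, rfl, h1, h2⟩ := lab_split w w' l _ h.2.2.2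
    exact ⟨x :: l1, l2, rfl, ⟨h.1, h.2.1, h.2.2.1, h1⟩, by rwa [ev_cons, ← mul_assoc]⟩

theorem lab_map {D D' : Type} {Z : Out Kd H D} {Z' : Out Kd H D'} (i : D → D') :
    ∀ (l : List D) (w : List (Kd × K)) (p : H),
    (∀ x ∈ l, Z'.κ (i x) = Z.κ x ∧ Z'.A (i x) = Z.A x ∧ Z'.B (i x) = Z.B x) →
    Lab G Z p l w → Lab G Z' p (l.map i) w
  | [], [], _, _, _ => trivial
  | [], _ :: _, _, _, h => h.elim
  | _ :: _, [], _, _, h => h.elim
  | x :: l, c :: w, p, hi, h =>
    ⟨(hi x (by simp)).1.trans h.1, (hi x (by simp)).2.1.trans h.2.1,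
      (hi x (by simp)).2.2.trans h.2.2.1,
      lab_map i l w _ (fun y hy => hi y (List.mem_cons_of_mem _ hy)) h.2.2.2⟩

theorem lab_length {D : Type} {Z : Out Kd H D} : ∀ (l : List D) (w : List (Kd × K)) (p : H),
    Lab G Z p l w → l.length = w.length
  | [], [], _, _ => rfl
  | [], _ :: _, _, h => h.elim
  | _ :: _, [], _, h => h.elim
  | _ :: l, _ :: w, _, h => congrArg (· + 1) (lab_length l w _ h.2.2.2)

theorem pth_congr {D : Type} {f g : D → D} : ∀ (l : List D) (e : D), (∀ x ∈ l, g x = f x) →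
    Pth f l e → Pth g l e
  | [], _, _, _ => trivial
  | a :: l, e, h, hp => ⟨(h a (by simp)).trans hp.1,
      pth_congr l e (fun x hx => h x (List.mem_cons_of_mem _ hx)) hp.2⟩

theorem pth_mem {D : Type} {f : D → D} : ∀ (l : List D) (e : D), Pth f l e →
    ∀ x ∈ l, f x ∈ l ∨ f x = e
  | [], _, _, x, hx => by simp at hx
  | a :: l, e, hp, x, hx => by
    rcases List.mem_cons.1 hx with rfl | hx
    · rw [hp.1]
      cases l <;> simp
    · exact (pth_mem l e hp.2 x hx).imp_left (List.mem_cons_of_mem _)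

theorem exists_map {D β : Type} (b : β) : ∀ (l : List D) (w : List β), l.Nodup →
    l.length = w.length → ∃ F : D → β, l.map F = w
  | [], [], _, _ => ⟨fun _ => b, rfl⟩
  | [], _ :: _, _, h => by simp at h
  | _ :: _, [], _, h => by simp at h
  | x :: l, c :: w, hn, h => by
    rw [List.nodup_cons] at hn
    obtain ⟨F, hF⟩ := exists_map b l w hn.2 (by simpa using h)
    refine ⟨Function.update F x c, ?_⟩
    rw [List.map_cons, Function.update_self, ← hF]
    congr 1
    exact List.map_congr_left fun y hy => Function.update_of_ne (fun e : y = x => hn.1 (e ▸ hy)) _ _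

theorem bd_ev {b : H} {w : List (Kd × K)} (h : Bd G b w m) : ev G.ι w = 1 := by
  obtain ⟨_, _, _, _, _, _, _, _, _, h⟩ := h
  exact h

theorem bd_rot (b : H) (A B : List (Kd × K)) (m : (H → E → ZMod 2) → ZMod 2)
    (h : Bd G b (A ++ B) m) : Bd G (b * ev G.ι A) (B ++ A) m := by
  obtain ⟨D, _, Z, l, h1, h2, h3, h4, h5, h6⟩ := h
  obtain ⟨l1, l2, rfl, a1, a2⟩ := lab_split _ _ _ _ h5
  rw [ev_append] at h6
  refine ⟨D, inferInstance, Z, l2 ++ l1, h1, List.perm_append_comm.nodup_iff.1 h2,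
    fun x => by rw [h3, List.mem_append, List.mem_append, or_comm], ?_,
    lab_append _ _ _ _ _ a2 (by rwa [mul_assoc, h6, mul_one]),
    by rw [ev_append, mul_eq_one_comm.1 h6]⟩
  cases l1 with
  | nil => simpa using h4
  | cons a l1 =>
    cases l2 with
    | nil => simpa using h4
    | cons c l2 =>
      intro e he
      obtain rfl : c = e := by simpa using he
      have := h4 a rfl
      rw [B1x.pth_append] at this ⊢
      exact ⟨this.2, this.1⟩

theorem bd_rot' {b : H} {A B : List (Kd × K)} (h : Bd G (b * ev G.ι A) (B ++ A) m) :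
    Bd G b (A ++ B) m := by
  have h1 := bd_rot _ _ _ _ h
  have h2 := bd_ev h1
  rwa [mul_assoc, ← ev_append, h2, mul_one] at h1

theorem bd_norm {b : H} {w : List (Kd × K)} (h : Bd G b w m) :
    ∃ (D : Type) (_ : Fintype D) (Z : Out Kd H D) (l : List D) (X : Dev G Z m), l.Nodup ∧
    (∀ x, x ∈ Z.O ↔ x ∈ l) ∧ (∀ e, l.head? = some e → Pth X.f l e) ∧
    Lab G ⟨Z.O, X.f, Z.κ, X.A, X.B⟩ b l w := by
  obtain ⟨D, _, Z, l, ⟨X⟩, h2, h3, h4, h5, -⟩ := h
  refine ⟨D, inferInstance, Z, l, X, h2, h3,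
    fun e he => pth_congr l e (fun x hx => (X.out x ((h3 x).2 hx)).1) (h4 e he), ?_⟩
  have := lab_map (Z := Z) (Z' := ⟨Z.O, X.f, Z.κ, X.A, X.B⟩) id l w b
    (fun x hx => ⟨rfl, (X.out x ((h3 x).2 hx)).2⟩) h5
  rwa [List.map_id] at this

theorem bd_ins (hk : Function.Surjective G.kind) (x : Kd × K) {b : H} {B : List (Kd × K)}
    (hw : Bd G b B m) : Bd G b (x :: (x.1, x.2⁻¹) :: B) m := by
  have h6 := bd_ev hw
  obtain ⟨D, _, Z, l, X, h2, h3, h4, h5⟩ := bd_norm hw
  obtain ⟨r0, -⟩ := hk x.1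
  have e0 : b * G.ι x.1 x.2 * G.ι x.1 x.2⁻¹ = b := by simp
  have key : ∀ F : Perm (D ⊕ Bool), gen F (Perm.sumCongr X.h (swap false true)) ≤ 0 →
      Pth F (Sum.inr false :: Sum.inr true :: l.map Sum.inl) (Sum.inr false) →
      (∀ y ∉ l, F (Sum.inl y) = Sum.inl (X.f y)) → Bd G b (x :: (x.1, x.2⁻¹) :: B) m := by
    intro F q1 q2 q3
    have q4 : ∀ y ∈ X.T, F (Sum.inl y) = Sum.inl (X.f y) := fun y hy =>
      q3 y fun c => X.disj y hy ((h3 y).2 c)
    have hT : ∀ y : D ⊕ Bool, y ∈ X.T.map Function.Embedding.inl →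
        ∃ z ∈ X.T, y = Sum.inl z := fun y hy => by
      obtain ⟨z, hz, rfl⟩ := mem_map.1 hy
      exact ⟨z, hz, rfl⟩
    refine ⟨D ⊕ Bool, inferInstance,
      ⟨(Sum.inr false :: Sum.inr true :: l.map Sum.inl).toFinset, F, Sum.elim Z.κ fun _ => x.1,
        Sum.elim X.A fun c => if c then b * G.ι x.1 x.2 else b,
        Sum.elim X.B fun c => if c then b else b * G.ι x.1 x.2⟩,
      Sum.inr false :: Sum.inr true :: l.map Sum.inl,
      ⟨{ f := F, h := Perm.sumCongr X.h (swap false true), T := X.T.map Function.Embedding.inl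
         r := Sum.elim X.r fun _ => r0, γ := Sum.elim X.γ fun _ => 1
         A := Sum.elim X.A fun c => if c then b * G.ι x.1 x.2 else b
         B := Sum.elim X.B fun c => if c then b else b * G.ι x.1 x.2
         lk := Sum.elim X.lk fun _ => none, planar := q1, dead := ?_, disj := ?_, fT := ?_
         out := fun _ _ => ⟨rfl, rfl, rfl⟩, hub := ?_, inn := ?_, stay := ?_, cross := ?_
         ch := fun ψ => by rw [sum_map]; exact X.ch ψ }⟩,
      by simpa using h2.map Sum.inl_injective, fun _ => List.mem_toFinset, ?_,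
      ⟨rfl, rfl, rfl, rfl, rfl, e0.symm, ?_⟩, by rw [ev_cons, ev_cons, h6]; simp⟩
    · rintro (y | c) h1 h0
      · have a1 : y ∉ l := by simpa using h0
        have a2 := X.dead y (by simpa using h1) fun c => a1 ((h3 y).1 c)
        rw [q3 y a1, a2.1]
        exact ⟨rfl, congrArg Sum.inl a2.2⟩
      · cases c <;> simp at h0
    · intro y hy
      obtain ⟨z, hz, rfl⟩ := hT y hy
      simpa [← h3] using X.disj z hz
    · intro y hy
      obtain ⟨z, hz, rfl⟩ := hT y hy
      rw [q4 z hz]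
      exact mem_map_of_mem _ (X.fT z hz)
    · rintro (y | c) h1
      · exact X.hub y (by simpa [← h3] using h1)
      · cases c <;> simp
    · intro y hy
      obtain ⟨z, hz, rfl⟩ := hT y hy
      rw [q4 z hz]
      exact X.inn z hz
    · intro y hy
      obtain ⟨z, hz, rfl⟩ := hT y hy
      rw [q4 z hz]
      exact X.stay z hz
    · intro y hy
      obtain ⟨z, hz, rfl⟩ := hT y hy
      rw [q4 z hz]
      exact X.cross z hz
    · intro e he
      obtain rfl : Sum.inr false = e := by simpa using he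
      exact q2
    · change Lab G _ (b * G.ι x.1 x.2 * G.ι x.1 x.2⁻¹) _ _
      rw [e0]
      exact lab_map (Z := ⟨Z.O, X.f, Z.κ, X.A, X.B⟩) Sum.inl l B b (fun _ _ => ⟨rfl, rfl, rfl⟩) h5
  cases l with
  | nil =>
    exact key _ ((B1x.gen_add X.f X.h).trans X.planar) ⟨by simp, by simp, trivial⟩
      fun y _ => by simp
  | cons c l =>
    have hp := h4 c rfl
    have hp1 := B1x.pth_map (F := Perm.sumCongr X.f (swap false true)) (i := Sum.inl)
      (fun _ => by simp) _ _ hp
    have hp2 := B1x.pth_swap (σ := swap (Sum.inl c) (Sum.inr false)) (l.map Sum.inl) _ _ hp1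
      (fun b hb => by
        obtain ⟨c', hc, rfl⟩ := List.mem_map.1 hb
        refine swap_apply_of_ne_of_ne (fun e => (List.nodup_cons.1 h2).1 ?_) (by simp)
        exact Sum.inl_injective e ▸ hc)
    rw [swap_apply_left] at hp2
    refine key _ ((B1x.gen_join X.f X.h c).trans X.planar) ⟨?_, by simp, hp2⟩ fun y hy => ?_
    · simp [swap_apply_of_ne_of_ne]
    · obtain ⟨c', hc, e⟩ := B1x.pth_pre l c c hp c (Or.inr rfl)
      have : X.f y ≠ c := fun e' => hy (X.f.injective (e.trans e'.symm) ▸ hc)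
      simp [swap_apply_of_ne_of_ne, this]

/-- Links between positions. -/
def Lk (row : E → R) (σ : E → E) (pos : E → K) (a b : R × K) : Prop :=
  a = b ∨ ∃ e, σ e ≠ e ∧ a = (row e, pos e) ∧ b = (row (σ e), pos (σ e))

/-- The point of a position. -/
def Gd.P (G : Gd R E Kd K H) (a : R × K) : H := G.gr a.1 * G.ι (G.kind a.1) a.2

theorem lk_P {a b : R × K} (h : Lk G.row G.σ G.pos a b) : G.P a = G.P b := by
  rcases h with rfl | ⟨e, h, rfl, rfl⟩
  · rfl
  · exact G.edge e h

theorem P_lt (d : R × K × K) :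
    G.P (d.1, d.2.1) * G.ι (lt G.kind d).1 (lt G.kind d).2 = G.P (d.1, d.2.2) := by
  simp [Gd.P, lt, mul_assoc]

theorem wk_ev : ∀ (l : List (R × K × K)) (a c : R × K), Wk (Lk G.row G.σ G.pos) a l c →
    G.P a * ev G.ι (l.map (lt G.kind)) = G.P c
  | [], a, c, h => by rw [show a = c from h]; exact mul_one _
  | d :: l, a, c, h => by
    obtain ⟨h1, a', h2, h3⟩ := h
    rw [List.map_cons, ev_cons, ← mul_assoc, h1, P_lt, lk_P h2, wk_ev l a' c h3]

theorem face_ev {w : List (Kd × K)} (h : Face (Lk G.row G.σ G.pos) G.kind w) : ev G.ι w = 1 := by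
  obtain ⟨a, l, h, rfl⟩ := h
  exact mul_eq_left.1 (wk_ev l a a h)

theorem lab_walk {D : Type} {Z : Out Kd H D} (F : D → R × K × K) (g : H) :
    ∀ (l : List D) (a c : R × K), Lab G Z (g * G.P a) l ((l.map F).map (lt G.kind)) →
    Wk (Lk G.row G.σ G.pos) a (l.map F) c → ∀ x ∈ l, G.kind (F x).1 = Z.κ x ∧
      Z.A x = g * G.P ((F x).1, (F x).2.1) ∧ Z.B x = g * G.P ((F x).1, (F x).2.2)
  | [], _, _, _, _, x, hx => by simp at hx
  | y :: l, a, c, h, hw, x, hx => by
    obtain ⟨h1, a', h2, h3⟩ := hw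
    obtain ⟨b1, b2, b3, b4⟩ := h
    rw [h1, mul_assoc, P_lt] at b3 b4
    rcases List.mem_cons.1 hx with rfl | hx
    · exact ⟨b1.symm, h1 ▸ b2, b3⟩
    · rw [lk_P h2] at b4
      exact lab_walk F g l a' c b4 h3 x hx

/-- The chain of a walk. -/
def chw (σ : E → E) (lkf : R × K → R × K → Option E) (ψ : H → E → ZMod 2) (g : H) (e : R × K) :
    List (R × K × K) → ZMod 2
  | [] => 0
  | d :: l => cl σ ψ g (lkf (d.1, d.2.2) ((l.map fun d => (d.1, d.2.1)).headD e)) +
      chw σ lkf ψ g e l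

omit [Group K] in
theorem chw_act (σ : E → E) (lkf : R × K → R × K → Option E) (ψ : H → E → ZMod 2) (b g : H)
    (e : R × K) : ∀ l, chw σ lkf (fun x e => ψ (b * x) e) g e l = chw σ lkf ψ (b * g) e l
  | [] => rfl
  | d :: l => by rw [chw, chw, chw_act σ lkf ψ b g e l]; rfl

omit [Group K] [Group H] in
theorem chw_sum {D : Type} (σ : E → E) (lkf : R × K → R × K → Option E) (ψ : H → E → ZMod 2)
    (g : H) (F : D → R × K × K) {f : D → D} (e : D) : ∀ l : List D, Pth f l e →
    (l.map fun x => cl σ ψ g (lkf ((F x).1, (F x).2.2) ((F (f x)).1, (F (f x)).2.1))).sum =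
      chw σ lkf ψ g ((F e).1, (F e).2.1) (l.map F)
  | [], _ => rfl
  | x :: l, h => by
    rw [List.map_cons, List.sum_cons, chw_sum σ lkf ψ g F e l h.2, List.map_cons, chw, h.1]
    cases l <;> rfl

theorem bd_cut {W : List (Kd × K)} (hW : Face (Lk G.row G.σ G.pos) G.kind W) :
    ∃ μ, ∀ b B m, Bd G b (W ++ B) m → Bd G b B (m + act b μ) := by
  have hW1 := face_ev hW
  obtain ⟨a, lw, hwk, rfl⟩ := hW
  have hl : ∀ a b : R × K, ∃ o : Option E, Lk G.row G.σ G.pos a b → (o = none → a = b) ∧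
      ∀ e, o = some e → G.σ e ≠ e ∧ a = (G.row e, G.pos e) ∧
        b = (G.row (G.σ e), G.pos (G.σ e)) := fun a b => by
    by_cases h : a = b
    · exact ⟨none, fun _ => ⟨fun _ => h, by simp⟩⟩
    by_cases h' : Lk G.row G.σ G.pos a b
    · obtain ⟨e, he⟩ := h'.resolve_left h
      exact ⟨some e, fun _ => ⟨by simp, fun e' h => Option.some.inj h ▸ he⟩⟩
    · exact ⟨none, fun h => absurd h h'⟩
  choose lkf hlk using hl
  refine ⟨fun ψ => chw G.σ lkf ψ (G.P a)⁻¹ a lw, fun b B m hw => ?_⟩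
  have h6 := bd_ev hw
  rw [ev_append, hW1, one_mul] at h6
  obtain ⟨D, _, Z, l, X, h2, h3, h4, h5⟩ := bd_norm hw
  obtain ⟨Rl, l2, rfl, e1, e2⟩ := lab_split _ _ _ _ h5
  rw [hW1, mul_one] at e2
  have hlen := lab_length _ _ _ e1
  rw [List.length_map] at hlen
  obtain ⟨n1, n2, n3⟩ := List.nodup_append.1 h2
  obtain ⟨F, rfl⟩ := exists_map (a.1, a.2, a.2) Rl lw n1 hlen
  cases Rl with
  | nil =>
    have : (m + act b fun ψ => chw G.σ lkf ψ (G.P a)⁻¹ a (([] : List D).map F)) = m :=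
      funext fun ψ => add_zero _
    rw [this]
    exact hw
  | cons x0 Rl =>
    obtain ⟨g, hg⟩ : ∃ g, g = b * (G.P a)⁻¹ := ⟨_, rfl⟩
    have hb : b = g * G.P a := by rw [hg, inv_mul_cancel_right]
    have hlab := lab_walk F g _ a a (hb ▸ e1) hwk
    have hp := h4 x0 rfl
    have hpre := B1x.pth_pre (Rl ++ l2) x0 x0 hp
    rw [B1x.pth_append] at hp
    have hout : ∀ x, x ∉ x0 :: Rl ++ l2 → X.f x ∉ x0 :: Rl ++ l2 := by
      intro x hx hfx
      obtain ⟨c, hc, e⟩ := hpre (X.f x) (by simpa [or_comm, or_assoc] using hfx)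
      exact hx (X.f.injective e ▸ hc)
    have hm : l2.headD x0 ∈ x0 :: Rl ++ l2 := by cases l2 <;> simp
    have hR : ∀ b ∈ Rl, swap x0 (l2.headD x0) b = b := by
      intro b hb
      refine swap_apply_of_ne_of_ne (fun e => (List.nodup_cons.1 n1).1 (e ▸ hb)) ?_
      cases l2 with
      | nil => exact fun e => (List.nodup_cons.1 n1).1 (by simpa [e] using hb)
      | cons c l2 => exact n3 b (List.mem_cons_of_mem _ hb) c (by simp)
    have hp1 := B1x.pth_swap Rl x0 _ hp.1 hR
    rw [swap_apply_right] at hp1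
    obtain ⟨f', hf'⟩ : ∃ f' : Perm D, f' = swap x0 (l2.headD x0) * X.f := ⟨_, rfl⟩
    have hp2 : Pth f' (x0 :: Rl) x0 := hf' ▸ hp1
    have hoff : ∀ x, x ∉ Z.O → f' x = X.f x := fun x hx => by
      have hf := hout x fun c => hx ((h3 x).2 c)
      rw [hf']
      exact swap_apply_of_ne_of_ne (fun e => hf (by simp [e])) (fun e => hf (e ▸ hm))
    have hRO : ∀ x ∈ x0 :: Rl, x ∈ Z.O := fun x hx => (h3 x).2 (List.mem_append_left _ hx)
    have hTR : ∀ x ∈ X.T, x ∉ x0 :: Rl := fun x hx c => X.disj x hx (hRO x c)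
    have hfR : ∀ x ∈ x0 :: Rl, f' x ∈ x0 :: Rl := fun x hx =>
      (pth_mem _ _ hp2 x hx).elim id fun h => by simp [h]
    have ha : a = ((F x0).1, (F x0).2.1) := hwk.1
    have hlinks := B1x.links (L := Lk G.row G.σ G.pos) (fun x => (F x).1) (fun x => (F x).2.1)
      (fun x => (F x).2.2) x0 _ a hp2 (by rw [← ha]; exact hwk)
    have hmem : ∀ x, x ∈ X.T ∪ (x0 :: Rl).toFinset ↔ x ∈ X.T ∨ x ∈ x0 :: Rl := fun x => by
      rw [mem_union, List.mem_toFinset]
    refine ⟨D, inferInstance, ⟨l2.toFinset, f', Z.κ, X.A, X.B⟩, l2,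
      ⟨{ f := f', h := X.h, T := X.T ∪ (x0 :: Rl).toFinset
         r := fun x => if x ∈ x0 :: Rl then (F x).1 else X.r x
         γ := fun x => if x ∈ x0 :: Rl then g else X.γ x, A := X.A, B := X.B
         lk := fun x => if x ∈ x0 :: Rl then
           lkf ((F x).1, (F x).2.2) ((F (f' x)).1, (F (f' x)).2.1) else X.lk x
         planar := ?_, dead := fun x hx hO => ?_, disj := fun x hx => ?_, fT := fun x hx => ?_
         out := fun _ _ => ⟨rfl, rfl, rfl⟩, hub := fun x hx => X.hub x ?_, inn := fun x hx => ?_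
         stay := fun x hx => ?_, cross := fun x hx => ?_, ch := fun ψ => ?_ }⟩,
      n2, fun _ => List.mem_toFinset, ?_, ?_, h6⟩
    · rw [hf']
      cases l2 with
      | nil =>
        rw [List.headD_nil, swap_self]
        exact X.planar
      | cons c l2 => exact (gen_f_split' (B1x.pth_same Rl x0 _ hp.1)).trans X.planar
    · rw [hmem, not_or] at hx
      have h7 : x ∉ Z.O := fun c => (List.mem_append.1 ((h3 x).1 c)).elim hx.2
        fun c => hO (List.mem_toFinset.2 c)
      rw [hoff x h7]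
      exact X.dead x hx.1 h7
    · intro c
      have c' := List.mem_toFinset.1 c
      rcases (hmem x).1 hx with hx | hx
      · exact X.disj x hx ((h3 x).2 (List.mem_append_right _ c'))
      · exact n3 x hx x c' rfl
    · rw [hmem] at hx ⊢
      rcases hx with hx | hx
      · rw [hoff x (X.disj x hx)]
        exact Or.inl (X.fT x hx)
      · exact Or.inr (hfR x hx)
    · rcases hx with hx | hx
      · exact ((hmem x).1 hx).imp_right (hRO x)
      · exact Or.inr ((h3 x).2 (List.mem_append_right _ (List.mem_toFinset.1 hx)))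
    · rcases (hmem x).1 hx with hx | hx
      · simp only [hoff x (X.disj x hx), if_neg (hTR x hx), if_neg (hTR _ (X.fT x hx))]
        exact X.inn x hx
      · simp only [if_pos hx, if_pos (hfR x hx)]
        refine ⟨(hlab x hx).1, ⟨_, (hlab x hx).2.1⟩, ⟨_, (hlab x hx).2.2⟩, trivial, ?_⟩
        exact ((hlab _ (hfR x hx)).2.1.trans (congrArg _ (lk_P (hlinks x hx)).symm)).trans
          (hlab x hx).2.2.symm
    · rcases (hmem x).1 hx with hx | hx
      · simp only [hoff x (X.disj x hx), if_neg (hTR x hx), if_neg (hTR _ (X.fT x hx))]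
        exact X.stay x hx
      · simp only [if_pos hx, if_pos (hfR x hx)]
        exact fun h => (congrArg Prod.fst ((hlk _ _ (hlinks x hx)).1 h)).symm
    · rcases (hmem x).1 hx with hx | hx
      · simp only [hoff x (X.disj x hx), if_neg (hTR x hx), if_neg (hTR _ (X.fT x hx))]
        exact X.cross x hx
      · simp only [if_pos hx, if_pos (hfR x hx)]
        intro e he
        obtain ⟨c1, c2, c3⟩ := (hlk _ _ (hlinks x hx)).2 e he
        exact ⟨c1, (congrArg Prod.fst c2).symm, (congrArg Prod.fst c3).symm,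
          (hlab x hx).2.2.trans (congrArg (fun a => g * G.P a) c2)⟩
    · rw [sum_union (disjoint_left.2 fun x hx c => hTR x hx (List.mem_toFinset.1 c)),
        sum_congr rfl fun x hx => by rw [if_neg (hTR x hx), if_neg (hTR x hx)], X.ch,
        sum_congr rfl fun x hx => by
          rw [if_pos (List.mem_toFinset.1 hx), if_pos (List.mem_toFinset.1 hx)],
        List.sum_toFinset _ n1, chw_sum G.σ lkf ψ g F x0 _ hp2, ← ha, hg, ← chw_act]
      rfl
    · intro e he
      cases l2 with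
      | nil => simp at he
      | cons c l2 =>
        obtain rfl : c = e := by simpa using he
        have := B1x.pth_swap (σ := swap x0 c) l2 c x0 hp.2 fun b hb => swap_apply_of_ne_of_ne
          (n3 x0 (by simp) b (List.mem_cons_of_mem _ hb)).symm
          (fun e => (List.nodup_cons.1 n2).1 (e ▸ hb))
        rw [swap_apply_left] at this
        rw [hf']
        exact this
    · have := lab_map (Z := ⟨Z.O, X.f, Z.κ, X.A, X.B⟩) (Z' := ⟨l2.toFinset, f', Z.κ, X.A, X.B⟩)
        id l2 B b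
        (fun x _ => ⟨rfl, rfl, rfl⟩) e2
      rwa [List.map_id] at this

/-- Replacing `w` by `w'` inside a boundary changes the chain by a fixed amount. -/
def Coc (G : Gd R E Kd K H) (w w' : List (Kd × K)) : Prop :=
  ∃ μ, ∀ b A B m, Bd G b (A ++ w ++ B) m → Bd G b (A ++ w' ++ B) (m + act (b * ev G.ι A) μ)

theorem coc_cut {W : List (Kd × K)} (hW : Face (Lk G.row G.σ G.pos) G.kind W) : Coc G W [] := by
  obtain ⟨μ, hμ⟩ := bd_cut hW
  refine ⟨μ, fun b A B m h => ?_⟩
  rw [List.append_assoc] at h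
  have h1 := bd_rot _ _ _ _ h
  rw [List.append_assoc] at h1
  rw [List.append_nil]
  exact bd_rot' (hμ _ _ _ h1)

theorem bd_insw (hk : Function.Surjective G.kind) (b : H) : ∀ W A B : List (Kd × K),
    Bd G b (A ++ B) m → Bd G b (A ++ W ++ bar W ++ B) m
  | [], A, B, h => by simpa [bar] using h
  | x :: W, A, B, h => by
    have h2 : Bd G b (A ++ x :: (x.1, x.2⁻¹) :: B) m := bd_rot' (bd_ins hk x (bd_rot _ _ _ _ h))
    have h3 := bd_insw hk b W (A ++ [x]) ((x.1, x.2⁻¹) :: B) (by simpa using h2)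
    simpa [bar] using h3

omit [Group K] in
theorem lk_symm {row : E → R} {σ : E → E} {pos : E → K} (hσ : ∀ e, σ (σ e) = e) (a b : R × K) :
    Lk row σ pos a b → Lk row σ pos b a := by
  rintro (e | ⟨e, e1, e2, e3⟩)
  · exact Or.inl e.symm
  · exact Or.inr ⟨σ e, by rw [hσ]; exact e1.symm, e3, by rw [hσ]; exact e2⟩

theorem coc_ins (hk : Function.Surjective G.kind) {W : List (Kd × K)}
    (hW : Face (Lk G.row G.σ G.pos) G.kind W) : Coc G [] W := by
  obtain ⟨μ, hμ⟩ := coc_cut (hW.bar (lk_symm G.inv))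
  refine ⟨μ, fun b A B m h => ?_⟩
  rw [List.append_nil] at h
  have := hμ _ _ _ _ (bd_insw hk b W A B h)
  rwa [List.append_nil, ev_append, face_ev hW, mul_one] at this

theorem Coc.refl (w : List (Kd × K)) : Coc G w w :=
  ⟨0, fun b A B m h => by
    have : m + act (b * ev G.ι A) (0 : (H → E → ZMod 2) → ZMod 2) = m := add_zero m
    rwa [this]⟩

theorem Coc.trans {w w' w'' : List (Kd × K)} (h : Coc G w w') (h' : Coc G w' w'') :
    Coc G w w'' := by
  obtain ⟨μ, hμ⟩ := h
  obtain ⟨ν, hν⟩ := h'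
  refine ⟨μ + ν, fun b A B m h => ?_⟩
  have := hν _ _ _ _ (hμ _ _ _ _ h)
  rw [add_assoc] at this
  exact this

theorem Coc.mul {w x y z : List (Kd × K)} (h : Coc G w x) (h' : Coc G y z) :
    Coc G (w ++ y) (x ++ z) := by
  obtain ⟨μ, hμ⟩ := h
  obtain ⟨ν, hν⟩ := h'
  refine ⟨μ + act (ev G.ι x) ν, fun b A B m h => ?_⟩
  have a1 := hμ b A (y ++ B) m (by simpa using h)
  have a2 := hν b (A ++ x) B _ (by simpa using a1)
  have e : m + act (b * ev G.ι A) μ + act (b * ev G.ι (A ++ x)) ν =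
      m + act (b * ev G.ι A) (μ + act (ev G.ι x) ν) := by
    funext ψ
    simp only [act, Pi.add_apply, ev_append, mul_assoc, add_assoc]
  rw [e] at a2
  simpa using a2

theorem coc_rel (hk : Function.Surjective G.kind) {w w' : FreeMonoid (Kd × K)}
    (h : ConGen.Rel (fun w w' : FreeMonoid (Kd × K) =>
      Face (Lk G.row G.σ G.pos) G.kind w.toList ∧ w' = 1) w w') :
    Coc G w.toList w'.toList ∧ Coc G w'.toList w.toList := by
  induction h with
  | of w w' h =>
    obtain ⟨h, rfl⟩ := h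
    exact ⟨coc_cut h, coc_ins hk h⟩
  | refl w => exact ⟨.refl _, .refl _⟩
  | symm _ ih => exact ih.symm
  | trans _ _ ih ih' => exact ⟨ih.1.trans ih'.1, ih'.2.trans ih.2⟩
  | mul _ _ ih ih' => exact ⟨ih.1.mul ih'.1, ih.2.mul ih'.2⟩

theorem bd_nil (b : H) : Bd G b [] 0 :=
  ⟨Empty, inferInstance, ⟨∅, id, Empty.elim, Empty.elim, Empty.elim⟩, [],
    ⟨{ f := 1, h := 1, T := ∅, r := Empty.elim, γ := Empty.elim, A := Empty.elim, B := Empty.elim
       lk := Empty.elim
       planar := by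
         have : orb (1 : Perm Empty) 1 = 0 := Nat.card_of_isEmpty
         simp only [gen, this, Nat.card_of_isEmpty]
         omega
       dead := fun x => x.elim, disj := fun x => x.elim, fT := fun x => x.elim
       out := fun x => x.elim, hub := fun x => x.elim, inn := fun x => x.elim
       stay := fun x => x.elim, cross := fun x => x.elim, ch := fun _ => rfl }⟩,
    List.nodup_nil, fun x => x.elim, by simp, trivial, rfl⟩

theorem sol_of_lin {row : E → R} {kind : R → Kd} {σ : E → E} {pos : E → K}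
    (hσ : ∀ e, σ (σ e) = e) (hk : Function.Surjective kind) {C m0 : ℕ}
    (hL : Lin row kind σ pos C m0) (hC : C < m0) : Sol row kind σ pos := by
  by_contra hno
  obtain ⟨D, _, ⟨X⟩⟩ := pre_of_not_sol hσ hk hno
  obtain ⟨Y⟩ := red_of_pre hσ X
  have := hL K (fun _ => 1) (fun _ => MonoidHom.id K) (fun _ => Function.injective_id) D
    { f := Y.f, h := Y.h, T := Y.T, o := Y.o, u := Y.u, Df := {Y.d}, planar := Y.planar
      dead := Y.dead, cross := Y.cross, kind_eq := Y.kind_eq
      rel := fun x hx hd => by simpa using Y.rel x hx (by simpa using hd)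
      red := Y.red }
  have h1 := this.1
  have h2 := this.2 ⟨_, Y.d_mem⟩
  simp only [card_singleton, mul_one] at h1 h2
  omega

/-- The universal group of the graph. -/
theorem exists_vk {row : E → R} {kind : R → Kd} {σ : E → E} {pos : E → K}
    (hσ : ∀ e, σ (σ e) = e) (hk : Function.Surjective kind) (hS : Sol row kind σ pos) :
    ∃ (H : Type) (_ : Group H) (ι : Kd → K →* H) (gr : R → H) (he : ∀ e, σ e ≠ e →
      gr (row e) * ι (kind (row e)) (pos e) = gr (row (σ e)) * ι (kind (row (σ e))) (pos (σ e))),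
      VK ⟨row, kind, σ, pos, ι, gr, hσ, he⟩ ∧
      ∀ (M : Type) [Group M] (φ : Kd → K →* M) (g : R → M), (∀ e, σ e ≠ e →
        g (row e) * φ (kind (row e)) (pos e) = g (row (σ e)) * φ (kind (row (σ e))) (pos (σ e))) →
        ∃ ψ : H →* M, ∀ a k, ψ (ι a k) = φ a k := by
  let L : R × K → R × K → Prop := Lk row σ pos
  have hr : ∀ a, L a a := fun _ => Or.inl rfl
  have hs : ∀ a b, L a b → L b a := lk_symm hσ
  let ρ : FreeMonoid (Kd × K) → FreeMonoid (Kd × K) → Prop :=
    fun w w' => Face L kind w.toList ∧ w' = 1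
  let π : FreeMonoid (Kd × K) →* (conGen ρ).Quotient := (conGen ρ).mk'
  have hπ : ∀ w w', π w = π w' ↔ ConGen.Rel ρ w w' := fun _ _ => (conGen ρ).eq
  have hπl : ∀ w : List (Kd × K), (w.map fun x => π (FreeMonoid.of x)).prod =
      π (FreeMonoid.ofList w) := fun w => by
    induction w with
    | nil => simp
    | cons x w ih => rw [List.map_cons, List.prod_cons, ih, FreeMonoid.ofList_cons, map_mul]
  have hface : ∀ w, Face L kind w → (w.map fun x => π (FreeMonoid.of x)).prod = 1 := by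
    intro w hw
    rw [hπl, (hπ (FreeMonoid.ofList w) 1).2 (ConGen.Rel.of _ _ ⟨hw, rfl⟩), map_one]
  have m1 : ∀ a : Kd, π (FreeMonoid.of (a, 1)) = 1 := by
    intro a
    obtain ⟨r, rfl⟩ := hk a
    simpa [lt] using hface _ ⟨(r, 1), [(r, 1, 1)], ⟨rfl, _, hr _, rfl⟩, rfl⟩
  have m2 : ∀ (a : Kd) (k k' : K), π (FreeMonoid.of (a, k * k')) =
      π (FreeMonoid.of (a, k)) * π (FreeMonoid.of (a, k')) := by
    intro a k k'
    obtain ⟨r, rfl⟩ := hk a
    have a1 := hface _ ⟨(r, 1), [(r, 1, k), (r, k, k * k'), (r, k * k', 1)],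
      ⟨rfl, _, hr _, rfl, _, hr _, rfl, _, hr _, rfl⟩, rfl⟩
    have a2 := hface _ ⟨(r, k * k'), [(r, k * k', 1), (r, 1, k * k')],
      ⟨rfl, _, hr _, rfl, _, hr _, rfl⟩, rfl⟩
    simp only [lt, List.map_cons, List.map_nil, List.prod_cons, List.prod_nil, mul_one, inv_one,
      one_mul, inv_mul_cancel_left] at a1 a2
    have a3 := congrArg (fun c => c * π (FreeMonoid.of (kind r, k * k'))) a1
    simp only [mul_assoc, a2, mul_one, one_mul] at a3
    exact a3.symm
  let j : Kd → K →* (conGen ρ).Quotient :=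
    fun a => ⟨⟨fun k => π (FreeMonoid.of (a, k)), m1 a⟩, m2 a⟩
  have hev : ∀ w, ((ev (fun a => (j a).toHomUnits) w : (conGen ρ).Quotientˣ) :
      (conGen ρ).Quotient) = π (FreeMonoid.ofList w) := fun w => by
    rw [← hπl, ev, ← Units.coeHom_apply, map_list_prod, List.map_map]
    rfl
  obtain ⟨g, hg⟩ := B1x.exists_rows (kind := kind) hr hs (fun a => (j a).toHomUnits)
    fun w hw => Units.ext ((hev w).trans ((hπl w).symm.trans (hface w hw)))
  have hlift : ∀ (M : Type) [Group M] (φ : Kd → K →* M) (g : R → M), (∀ e, σ e ≠ e →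
      g (row e) * φ (kind (row e)) (pos e) = g (row (σ e)) * φ (kind (row (σ e))) (pos (σ e))) →
      ∃ ψ : (conGen ρ).Quotientˣ →* M, ∀ a k, ψ ((j a).toHomUnits k) = φ a k := by
    intro M _ φ g' he
    have h1 : conGen ρ ≤ Con.ker (FreeMonoid.lift fun x : Kd × K => φ x.1 x.2) :=
      Con.conGen_le.2 fun w w' h => by
        obtain ⟨h, rfl⟩ := h
        rw [Con.ker_rel, map_one, FreeMonoid.lift_apply]
        exact face_ev (G := ⟨row, kind, σ, pos, φ, g', hσ, he⟩) h
    exact ⟨((conGen ρ).lift _ h1).comp (Units.coeHom _), fun a k =>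
      ((conGen ρ).lift_mk' h1 (FreeMonoid.of (a, k))).trans (FreeMonoid.lift_eval_of _ _)⟩
  have hrel : ∀ w, ev (fun a => (j a).toHomUnits) w = 1 → ConGen.Rel ρ (FreeMonoid.ofList w) 1 :=
    fun w hw => (hπ _ _).1 (by rw [← hev, hw, map_one, Units.val_one])
  refine ⟨_, inferInstance, fun a => (j a).toHomUnits, g,
    fun e he => hg _ _ (Or.inr ⟨e, he, rfl, rfl⟩), ⟨fun a => ?_, fun u => ?_, fun w b hw => ?_,
      fun w hw => ?_, bd_rot⟩, hlift⟩
  · obtain ⟨M, _, φ, g', h1, h2⟩ := hS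
    obtain ⟨ψ, hψ⟩ := hlift M φ g' h2
    exact fun k k' h => h1 a (by rw [← hψ, ← hψ]; exact congrArg ψ h)
  · obtain ⟨w, hw⟩ := (conGen ρ).mk'_surjective u.1
    exact ⟨w.toList, Units.ext ((hev _).trans hw)⟩
  · obtain ⟨μ, hμ⟩ := (coc_rel (G := ⟨row, kind, σ, pos, fun a => (j a).toHomUnits, g, hσ,
      fun e he => hg _ _ (Or.inr ⟨e, he, rfl, rfl⟩)⟩) hk (hrel w hw)).2
    exact ⟨_, by simpa using hμ b [] [] 0 (bd_nil b)⟩
  · obtain ⟨μ, hμ⟩ := (coc_rel (G := ⟨row, kind, σ, pos, fun a => (j a).toHomUnits, g, hσ,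
      fun e he => hg _ _ (Or.inr ⟨e, he, rfl, rfl⟩)⟩) hk (hrel w hw)).1
    exact ⟨μ, fun b m h => by simpa [ev_nil] using hμ b [] [] m (by simpa using h)⟩

end Pool.Agent.MP_434e52_an.H29
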