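import Mathlib

/-! Graph metrics: a cochain form of the linear isoperimetric inequality is equivalent to the four
point condition. -/

set_option autoImplicit false

namespace Pool.Agent.MP_434e52_an.Geo

open Finset

variable {V : Type}

/-- walks all of whose vertices satisfy `P` -/
inductive Wk (A : V → V → Prop) (P : V → Prop) : V → V → ℕ → Prop
  | nil {x : V} : P x → Wk A P x x 0
  | cons {x y z : V} {n : ℕ} : P x → A x y → Wk A P y z n → Wk A P x z (n + 1)

/-- walks with the sum of a cochain -/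
inductive Ws (A : V → V → Prop) (ω : V → V → ℤ) : V → V → ℕ → ℤ → Prop
  | nil (x : V) : Ws A ω x x 0 0
  | cons {x y z : V} {n : ℕ} {t : ℤ} : A x y → Ws A ω y z n t → Ws A ω x z (n + 1) (ω x y + t)

variable {A : V → V → Prop} {P Q : V → Prop} {ω : V → V → ℤ}

theorem Wk.fst {x y : V} {n : ℕ} (h : Wk A P x y n) : P x := by
  cases h <;> assumption

theorem Wk.trans {x y z : V} {n m : ℕ} (h : Wk A P x y n) (k : Wk A P y z m) :
    Wk A P x z (n + m) := by
  induction h with
  | nil _ => simpa using k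
  | cons a b _ ih => rw [Nat.add_right_comm]; exact .cons a b (ih k)

theorem Wk.symm (hA : ∀ x y, A x y → A y x) {x y : V} {n : ℕ} (h : Wk A P x y n) :
    Wk A P y x n := by
  induction h with
  | nil a => exact .nil a
  | cons a b c ih => exact ih.trans (.cons c.fst (hA _ _ b) (.nil a))

theorem Wk.mono (hP : ∀ x, P x → Q x) {x y : V} {n : ℕ} (h : Wk A P x y n) : Wk A Q x y n := by
  induction h with
  | nil a => exact .nil (hP _ a)
  | cons a b _ ih => exact .cons (hP _ a) b ih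

theorem Wk.zero {x y : V} (h : Wk A P x y 0) : x = y := by
  cases h; rfl

theorem Wk.ws {x y : V} {n : ℕ} (h : Wk A P x y n) : ∃ t, Ws A ω x y n t := by
  induction h with
  | nil _ => exact ⟨_, .nil _⟩
  | cons _ b _ ih => exact ih.elim fun _ h => ⟨_, .cons b h⟩

theorem Wk.exact {φ : V → ℤ} (hφ : ∀ u v, P u → P v → A u v → ω u v = φ v - φ u) {x y : V} {n : ℕ}
    (h : Wk A P x y n) : Ws A ω x y n (φ y - φ x) := by
  induction h with
  | nil _ => rw [sub_self]; exact .nil _
  | @cons x y z n a b c ih =>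
    have := Ws.cons b ih
    rwa [hφ _ _ a c.fst b, show φ y - φ x + (φ z - φ y) = φ z - φ x by ring] at this

theorem Wk.toFun {x y : V} {n : ℕ} (h : Wk A P x y n) :
    ∃ γ : ℕ → V, γ 0 = x ∧ γ n = y ∧ ∀ i < n, A (γ i) (γ (i + 1)) := by
  induction h with
  | @nil x _ => exact ⟨fun _ => x, rfl, rfl, by simp⟩
  | @cons x y z n _ b _ ih =>
    obtain ⟨γ, h0, h1, h2⟩ := ih
    refine ⟨fun i => Nat.casesOn i x γ, rfl, h1, fun i hi => ?_⟩
    cases i with
    | zero => simpa [h0] using b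
    | succ i => exact h2 i (by omega)

theorem Wk.seg {γ : ℕ → V} {n : ℕ} (h : ∀ i < n, A (γ i) (γ (i + 1))) (hP : ∀ i ≤ n, P (γ i))
    (k : ℕ) : ∀ a, a + k ≤ n → Wk A P (γ a) (γ (a + k)) k := by
  induction k with
  | zero => exact fun a ha => .nil (hP _ ha)
  | succ k ih =>
    intro a ha
    rw [show a + (k + 1) = a + 1 + k by ring]
    exact .cons (hP _ (by omega)) (h _ (by omega)) (ih _ (by omega))

theorem Ws.trans {x y z : V} {n m : ℕ} {s t : ℤ} (h : Ws A ω x y n s) (k : Ws A ω y z m t) :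
    Ws A ω x z (n + m) (s + t) := by
  induction h with
  | nil _ => simpa using k
  | cons b _ ih => rw [Nat.add_right_comm, add_assoc (ω _ _)]; exact .cons b (ih k)

theorem Ws.symm (hA : ∀ x y, A x y → A y x) (hω : ∀ x y, ω y x = -ω x y) {x y : V} {n : ℕ} {t : ℤ}
    (h : Ws A ω x y n t) : Ws A ω y x n (-t) := by
  induction h with
  | nil _ => exact .nil _
  | @cons x y z n t b _ ih =>
    have := ih.trans (.cons (hA _ _ b) (.nil _))
    rwa [hω, show -t + (-ω x y + 0) = -(ω x y + t) by ring] at this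

theorem Ws.toFun {x y : V} {n : ℕ} {t : ℤ} (h : Ws A ω x y n t) :
    ∃ γ : ℕ → V, γ 0 = x ∧ γ n = y ∧ (∀ i < n, A (γ i) (γ (i + 1))) ∧
      t = ∑ i ∈ range n, ω (γ i) (γ (i + 1)) := by
  induction h with
  | nil x => exact ⟨fun _ => x, rfl, rfl, by simp, by simp⟩
  | @cons x y z n t b _ ih =>
    obtain ⟨γ, h0, h1, h2, h3⟩ := ih
    refine ⟨fun i => Nat.casesOn i x γ, rfl, h1, fun i hi => ?_, ?_⟩
    · cases i with
      | zero => simpa [h0] using b
      | succ i => exact h2 i (by omega)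
    · rw [sum_range_succ', h3, add_comm]
      simp [h0]

theorem Ws.seg {γ : ℕ → V} {n : ℕ} (h : ∀ i < n, A (γ i) (γ (i + 1))) (k : ℕ) :
    ∀ a, a + k ≤ n → Ws A ω (γ a) (γ (a + k)) k
      (∑ i ∈ range (a + k), ω (γ i) (γ (i + 1)) - ∑ i ∈ range a, ω (γ i) (γ (i + 1))) := by
  induction k with
  | zero => intro a _; simpa using Ws.nil _
  | succ k ih =>
    intro a ha
    rw [show a + (k + 1) = a + 1 + k by ring]
    have := Ws.cons (h a (by omega)) (ih (a + 1) (by omega))
    rw [sum_range_succ (n := a)] at this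
    convert this using 1
    ring

theorem Ws.zero {x y : V} {t : ℤ} (h : Ws A ω x y 0 t) : t = 0 := by
  cases h; rfl

/-- the cochain `f dh` -/
def om (f h : V → ℤ) (x y : V) : ℤ := (f x + f y) * (h y - h x)

theorem om_symm (f h : V → ℤ) (x y : V) : om f h y x = -om f h x y := by
  unfold om; ring

/-- `1`-Lipschitz functions -/
def Lip (A : V → V → Prop) (f : V → ℤ) : Prop := ∀ x y, A x y → |f y - f x| ≤ 1

/-- the linear isoperimetric inequality in cochain form -/
def IsoA (A : V → V → Prop) (C : ℕ) : Prop :=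
  ∀ f h : V → ℤ, Lip A f → Lip A h → ∀ x n t, Ws A (om f h) x x n t → |t| ≤ C * n

theorem ws_short_aux {f h : V → ℤ} (hf : Lip A f) (hh : Lip A h) {x y : V} {n : ℕ} {t : ℤ}
    (w : Ws A (om f h) x y n t) :
    |f x - f y| ≤ n ∧ |t - 2 * f y * (h y - h x)| ≤ 2 * n * n := by
  induction w with
  | nil _ => simp
  | @cons x y z n t b _ ih =>
    obtain ⟨i1, i2⟩ := ih
    have a1 := abs_le.1 (hf _ _ b)
    have a2 := hh _ _ b
    have a3 := abs_le.1 i1
    have a4 : |f x - f z| ≤ n + 1 := abs_le.2 ⟨by linarith, by linarith⟩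
    refine ⟨by exact_mod_cast a4, ?_⟩
    have e : om f h x y + t - 2 * f z * (h z - h x) =
        ((f x - f z) + (f y - f z)) * (h y - h x) + (t - 2 * f z * (h z - h y)) := by
      unfold om; ring
    have a5 : |((f x - f z) + (f y - f z)) * (h y - h x)| ≤ (n + 1 + n) * 1 := by
      rw [abs_mul]
      exact mul_le_mul ((abs_add_le _ _).trans (add_le_add a4 i1)) a2 (abs_nonneg _)
        (by positivity)
    rw [e]
    refine (abs_add_le _ _).trans ?_
    push_cast
    have : (0 : ℤ) ≤ n := by positivity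
    nlinarith

theorem ws_short {f h : V → ℤ} (hf : Lip A f) (hh : Lip A h) {x : V} {n : ℕ} {t : ℤ}
    (w : Ws A (om f h) x x n t) : |t| ≤ 2 * n * n := by
  simpa using (ws_short_aux hf hh w).2

/-- `d` is the path metric of the connected graph `A` -/
structure Met (A : V → V → Prop) (d : V → V → ℕ) : Prop where
  symm : ∀ x y, A x y → A y x
  geo : ∀ x y, Wk A (fun _ => True) x y (d x y)
  le : ∀ x y n, Wk A (fun _ => True) x y n → d x y ≤ n

variable {d : V → V → ℕ}

theorem Met.le' (M : Met A d) {x y : V} {n : ℕ} (h : Wk A P x y n) : d x y ≤ n :=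
  M.le _ _ _ (h.mono fun _ _ => trivial)

theorem Met.self (M : Met A d) (x : V) : d x x = 0 := Nat.le_zero.1 (M.le _ _ _ (.nil trivial))

theorem Met.tri (M : Met A d) (x y z : V) : d x z ≤ d x y + d y z :=
  M.le _ _ _ ((M.geo _ _).trans (M.geo _ _))

theorem Met.comm (M : Met A d) (x y : V) : d x y = d y x :=
  le_antisymm (M.le _ _ _ ((M.geo _ _).symm M.symm)) (M.le _ _ _ ((M.geo _ _).symm M.symm))

theorem Met.adj (M : Met A d) {x y : V} (h : A x y) : d x y ≤ 1 :=
  M.le _ _ _ (.cons trivial h (.nil trivial))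

/-- the four point condition -/
def Four (d : V → V → ℕ) (δ : ℕ) : Prop :=
  ∀ w x y z, d x y + d z w ≤ max (d x z + d y w) (d y z + d x w) + δ

theorem cut (M : Met A d) {δ : ℕ} (hF : Four d δ) (hω : ∀ x y, ω y x = -ω x y) {B : ℤ}
    (hB : ∀ x n t, n ≤ 4 * (δ + 1) → Ws A ω x x n t → |t| ≤ B) (n : ℕ) :
    ∀ x t, Ws A ω x x n t → |t| ≤ B * n := by
  induction n using Nat.strong_induction_on with
  | _ n ih =>
    intro x t w
    have B0 : 0 ≤ B := by simpa using hB x 0 0 (by omega) (.nil _)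
    by_cases hn : n ≤ 4 * (δ + 1)
    · rcases Nat.eq_zero_or_pos n with rfl | n0
      · simp [w.zero]
      · refine (hB _ _ _ hn w).trans (le_mul_of_one_le_right B0 (by exact_mod_cast n0))
    obtain ⟨γ, h0, h1, h2, rfl⟩ := w.toFun
    have dk : ∀ a k, a + k ≤ n → d (γ a) (γ (a + k)) ≤ k := fun a k h =>
      M.le _ _ _ (Wk.seg h2 (fun _ _ => trivial) k a h)
    obtain ⟨a, ha, hd⟩ : ∃ a, a + 2 * (δ + 1) ≤ n ∧
        d (γ a) (γ (a + 2 * (δ + 1))) < 2 * (δ + 1) := by
      obtain ⟨i, hi, hm⟩ := exists_max_image (range (n + 1)) (fun i => d x (γ i)) ⟨0, by simp⟩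
      have hi' : i ≤ n := by simpa [Nat.lt_succ_iff] using hi
      have hm' : ∀ j ≤ n, d x (γ j) ≤ d x (γ i) := fun j hj => hm j (by simpa [Nat.lt_succ_iff])
      by_cases c : δ + 1 ≤ i ∧ i + (δ + 1) ≤ n
      · obtain ⟨a, rfl⟩ := Nat.exists_eq_add_of_le' c.1
        refine ⟨a, by omega, ?_⟩
        have e : a + 2 * (δ + 1) = a + (δ + 1) + (δ + 1) := by ring
        have f := hF x (γ a) (γ (a + 2 * (δ + 1))) (γ (a + (δ + 1)))
        have g1 := dk a (δ + 1) (by omega)
        have g2 := dk (a + (δ + 1)) (δ + 1) c.2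
        rw [← e] at g2
        have g3 := hm' a (by omega)
        have g4 := hm' (a + 2 * (δ + 1)) (by omega)
        rw [M.comm _ x, M.comm _ x, M.comm _ x, M.comm (γ (a + 2 * (δ + 1)))] at f
        omega
      · refine ⟨0, by omega, ?_⟩
        have g1 := dk 0 i (by omega)
        have g2 := dk i (n - i) (by omega)
        rw [Nat.add_sub_cancel' hi', h1, M.comm] at g2
        have g3 := hm' (0 + 2 * (δ + 1)) (by omega)
        rw [zero_add, h0] at g1
        rw [h0]
        omega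
    obtain ⟨g, hg⟩ := (M.geo (γ a) (γ (a + 2 * (δ + 1)))).ws (ω := ω)
    have w1 := Ws.seg (ω := ω) h2 a 0 (by omega)
    have w2 := Ws.seg (ω := ω) h2 (2 * (δ + 1)) a ha
    have w3 := Ws.seg (ω := ω) h2 (n - (a + 2 * (δ + 1))) (a + 2 * (δ + 1)) (by omega)
    rw [Nat.add_sub_cancel' ha, h1] at w3
    rw [zero_add, h0] at w1
    have i1 := abs_le.1 (ih _ (by omega) _ _ ((w1.trans hg).trans w3))
    have i2 := abs_le.1 (hB _ _ _ (by omega) (w2.trans (hg.symm M.symm hω)))
    have i3 : B * ((a + d (γ a) (γ (a + 2 * (δ + 1))) + (n - (a + 2 * (δ + 1))) : ℕ) : ℤ) + B ≤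
        B * n := by
      rw [← mul_add_one]
      exact mul_le_mul_of_nonneg_left (by exact_mod_cast (by omega)) B0
    simp only [sum_range_zero] at i1
    exact abs_le.2 ⟨by linarith [i1.1, i2.1], by linarith [i1.2, i2.2]⟩

theorem isoA_of_four (M : Met A d) {δ : ℕ} (hF : Four d δ) : ∃ C, IsoA A C := by
  refine ⟨2 * (4 * (δ + 1)) * (4 * (δ + 1)), fun f h hf hh x n t w => ?_⟩
  refine cut M hF (om_symm f h) (fun x n t hn w => (ws_short hf hh w).trans ?_) n x t w
  exact_mod_cast Nat.mul_le_mul (Nat.mul_le_mul_left 2 hn) hn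

/-- `T` is the vertex set of a geodesic from `p` to `q` -/
structure GS (A : V → V → Prop) (d : V → V → ℕ) (T : V → Prop) (p q : V) : Prop where
  l : T p
  r : T q
  fin : {u | T u}.Finite
  on : ∀ u, T u → d p u + d u q = d p q
  ex : ∀ j ≤ d p q, ∃ u, T u ∧ d p u = j
  ord : ∀ u w, T u → T w → d p u + d u w = d p w ∨ d p w + d u w = d p u
  wk : ∀ u w, T u → T w → Wk A T u w (d u w)

theorem GS.symm (M : Met A d) {T : V → Prop} {p q : V} (h : GS A d T p q) : GS A d T q p := by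
  refine ⟨h.r, h.l, h.fin, fun u hu => ?_, fun j hj => ?_, fun u w hu hw => ?_, h.wk⟩
  · have := h.on u hu
    rw [M.comm q u, M.comm u p, M.comm q p]
    omega
  · rw [M.comm] at hj
    obtain ⟨u, h1, h2⟩ := h.ex (d p q - j) (by omega)
    have := h.on u h1
    exact ⟨u, h1, by rw [M.comm]; omega⟩
  · have := h.on u hu
    have := h.on w hw
    have := h.ord u w hu hw
    rw [M.comm q u, M.comm q w]
    omega

theorem exists_gs (M : Met A d) (p q : V) : ∃ T, GS A d T p q := by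
  obtain ⟨γ, h0, h1, h2⟩ := (M.geo p q).toFun
  have w : ∀ a k, a + k ≤ d p q →
      Wk A (fun u => ∃ i ≤ d p q, γ i = u) (γ a) (γ (a + k)) k := fun a k h =>
    Wk.seg h2 (fun i hi => ⟨i, hi, rfl⟩) k a h
  have e : ∀ a k, a + k ≤ d p q → d (γ a) (γ (a + k)) = k := fun a k h => by
    have g1 := M.le' (w 0 a (by omega))
    have g2 := M.le' (w a k h)
    have g3 := M.le' (w (a + k) (d p q - (a + k)) (by omega))
    rw [Nat.add_sub_cancel' h, h1] at g3
    rw [zero_add, h0] at g1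
    have g4 := M.tri p (γ a) q
    have g5 := M.tri (γ a) (γ (a + k)) q
    omega
  have e0 : ∀ a ≤ d p q, d p (γ a) = a := fun a h => by
    have := e 0 a (by omega)
    rwa [zero_add, h0] at this
  refine ⟨fun u => ∃ i ≤ d p q, γ i = u, ⟨0, by omega, h0⟩, ⟨_, le_rfl, h1⟩,
    ((Set.finite_Iic (d p q)).image γ).subset fun u ⟨i, a, b⟩ => ⟨i, a, b⟩, ?_,
    fun j hj => ⟨_, ⟨j, hj, rfl⟩, e0 j hj⟩, ?_, ?_⟩
  · rintro _ ⟨i, hi, rfl⟩
    have := e i (d p q - i) (by omega)
    rw [Nat.add_sub_cancel' hi, h1] at this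
    rw [e0 i hi, this]
    omega
  · rintro _ _ ⟨i, hi, rfl⟩ ⟨j, hj, rfl⟩
    rw [e0 i hi, e0 j hj]
    rcases le_total i j with c | c
    · obtain ⟨k, rfl⟩ := Nat.exists_eq_add_of_le c
      rw [e i k hj]
      omega
    · obtain ⟨k, rfl⟩ := Nat.exists_eq_add_of_le c
      rw [M.comm, e j k hi]
      omega
  · rintro _ _ ⟨i, hi, rfl⟩ ⟨j, hj, rfl⟩
    rcases le_total i j with c | c
    · obtain ⟨k, rfl⟩ := Nat.exists_eq_add_of_le c
      rw [e i k hj]
      exact w i k hj
    · obtain ⟨k, rfl⟩ := Nat.exists_eq_add_of_le c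
      rw [M.comm (γ (j + k)), e j k hi]
      exact (w j k hi).symm M.symm

theorem rect (M : Met A d) {C : ℕ} (hI : IsoA A C) {T : V → Prop} {p q x y z : V}
    (hT : GS A d T p q) (hx : T x) (hy : T y) (hz : T z) {m r N : ℕ} (h1 : d p y + m ≤ d p x)
    (h2 : d p x + m ≤ d p z) (w : Wk A (fun u => m + r ≤ d x u) z y N) :
    4 * r * m ≤ C * (d y z + N) := by
  obtain ⟨f, hf⟩ : ∃ f : V → ℤ, ∀ u, f u = min (r : ℤ) (max 0 ((d x u : ℤ) - m)) := ⟨_, fun _ => rfl⟩
  obtain ⟨h, hh⟩ : ∃ h : V → ℤ, ∀ u, h u = max (-m : ℤ) (min (m : ℤ) ((d p u : ℤ) - d p x)) :=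
    ⟨_, fun _ => rfl⟩
  have tri : ∀ o u v, A u v → d o u ≤ d o v + 1 ∧ d o v ≤ d o u + 1 := fun o u v a => by
    have := M.adj a
    have := M.adj (M.symm _ _ a)
    have := M.tri o u v
    have := M.tri o v u
    omega
  have l1 : Lip A f := fun u v a => by
    have := tri x u v a
    rw [hf, hf, abs_le]
    omega
  have l2 : Lip A h := fun u v a => by
    have := tri p u v a
    rw [hh, hh, abs_le]
    omega
  have w1 := (hT.wk y z hy hz).exact (ω := om f h) (φ := fun _ => 0) fun u v hu hv a => by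
    have := tri p u v a
    have := hT.ord x u hx hu
    have := hT.ord x v hx hv
    have : h v - h u = 0 ∨ f u + f v = 0 := by
      rw [hf, hf, hh, hh]
      omega
    unfold om
    rcases this with e | e <;> simp [e]
  have w2 := w.exact (ω := om f h) (φ := fun u => 2 * r * h u) fun u v hu hv _ => by
    have e1 : f u = r := by rw [hf]; omega
    have e2 : f v = r := by rw [hf]; omega
    unfold om
    rw [e1, e2]
    ring
  have k := (abs_le.1 (hI f h l1 l2 _ _ _ (w1.trans w2))).1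
  have e1 : h y = -m := by rw [hh]; omega
  have e2 : h z = m := by rw [hh]; omega
  rw [e1, e2] at k
  have : (4 * r * m : ℤ) ≤ C * ((d y z + N : ℕ) : ℤ) := by linarith
  exact_mod_cast this

theorem far_walk (M : Met A d) {x u v : V} {n : ℕ} (h : d u v ≤ n) (hu : n ≤ d x u)
    (hv : n ≤ d x v) : Wk A (fun w => n ≤ 2 * d x w) u v (d u v) := by
  obtain ⟨T, hT⟩ := exists_gs M u v
  refine (hT.wk u v hT.l hT.r).mono fun w hw => ?_
  have := hT.on w hw
  have := M.tri x w u
  have := M.tri x w v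
  have := M.comm w u
  omega

theorem core (M : Met A d) {C : ℕ} (hI : IsoA A C) {Ta Tb Tc : V → Prop} {p q s x : V}
    (ha : GS A d Ta p q) (hc : GS A d Tc p s) (hb : GS A d Tb q s) (hx : Ta x) {n : ℕ}
    (fb : ∀ u, Tb u → n ≤ d x u) (fc : ∀ u, Tc u → n ≤ d x u)
    (pa : ∀ u, Ta u → ∃ v, (Tb v ∨ Tc v) ∧ d u v ≤ n)
    (pc : ∀ u, Tc u → ∃ v, (Ta v ∨ Tb v) ∧ d u v ≤ n) : n < 4 * (50 * C + 3) := by
  by_contra hn
  have done : ∀ y z N, Ta y → Ta z → d p y + n ≤ d p x → d p x + n ≤ d p z → d y z + N ≤ 40 * n →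
      Wk A (fun w => n ≤ 2 * d x w) z y N → False := fun y z N hy hz h1 h2 h3 w => by
    have k := rect M hI ha hx hy hz (m := n / 4) (r := 50 * C + 3) (by omega) (by omega)
      (w.mono fun u hu => by omega)
    have k2 : C * (d y z + N) ≤ C * (200 * (n / 4)) := Nat.mul_le_mul_left _ (by omega)
    have k3 : 0 < n / 4 := by omega
    nlinarith
  have wb : ∀ u v, Tb u → Tb v → Wk A (fun w => n ≤ 2 * d x w) u v (d u v) := fun u v hu hv =>
    (hb.wk u v hu hv).mono fun w hw => by have := fb w hw; omega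
  have wc : ∀ u v, Tc u → Tc v → Wk A (fun w => n ≤ 2 * d x w) u v (d u v) := fun u v hu hv =>
    (hc.wk u v hu hv).mono fun w hw => by have := fc w hw; omega
  have px : n ≤ d p x := by rw [M.comm]; exact fc p hc.l
  have mix : ∀ u, Tc u → d x u ≤ 3 * n →
      ∃ v N, Tb v ∧ N ≤ 7 * n ∧ Wk A (fun w => n ≤ 2 * d x w) u v N := fun u hu h3 => by
    by_contra hne
    have ne : ∀ v N, Tb v → N ≤ 7 * n → Wk A (fun w => n ≤ 2 * d x w) u v N → False :=
      fun v N a b c => hne ⟨v, N, a, b, c⟩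
    have t1 := M.tri p x u
    have t2 := M.tri p u x
    have t3 := M.comm u x
    have t4 := hc.on u hu
    obtain ⟨z, N, z1, z2, z3, z4, z5⟩ : ∃ z N, Ta z ∧ d p x + n ≤ d p z ∧ d p z ≤ d p x + 10 * n ∧
        N ≤ 7 * n ∧ Wk A (fun w => n ≤ 2 * d x w) u z N := by
      by_cases c : d p u + 6 * n ≤ d p s
      · obtain ⟨v, v1, v2⟩ := hc.ex _ c
        obtain ⟨z, z1, z2⟩ := pc v v1
        have := hc.ord u v hu v1
        have := M.tri p v z
        have := M.tri p z v
        have := M.comm z v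
        rcases z1 with z1 | z1
        · have := ha.ord x z hx z1
          exact ⟨z, _, z1, by omega, by omega, by omega,
            (wc u v hu v1).trans (far_walk M z2 (fc v v1) (by omega))⟩
        · exact (ne z _ z1 (by omega)
            ((wc u v hu v1).trans (far_walk M z2 (fc v v1) (fb z z1)))).elim
      · exact (ne s _ hb.r (by omega) (wc u s hu hc.r)).elim
    obtain ⟨y, N', y1, y2, y3, y4, y5⟩ : ∃ y N, Ta y ∧ d p y + n ≤ d p x ∧
        d p x ≤ d p y + 10 * n ∧ N ≤ 7 * n ∧ Wk A (fun w => n ≤ 2 * d x w) u y N := by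
      by_cases c : 6 * n ≤ d p u
      · obtain ⟨v, v1, v2⟩ := hc.ex (d p u - 6 * n) (by omega)
        obtain ⟨z, z1, z2⟩ := pc v v1
        have := hc.ord u v hu v1
        have := M.tri p v z
        have := M.tri p z v
        have := M.comm z v
        rcases z1 with z1 | z1
        · have := ha.ord x z hx z1
          exact ⟨z, _, z1, by omega, by omega, by omega,
            (wc u v hu v1).trans (far_walk M z2 (fc v v1) (by omega))⟩
        · exact (ne z _ z1 (by omega)
            ((wc u v hu v1).trans (far_walk M z2 (fc v v1) (fb z z1)))).elim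
      · have := M.self p
        have := M.comm u p
        exact ⟨p, _, ha.l, by omega, by omega, by omega, wc u p hu hc.l⟩
    have := ha.ord y z y1 z1
    exact done y z _ y1 z1 y2 z2 (by omega) ((z5.symm M.symm).trans y5)
  have conn : ∀ y, Ta y → d x y = 2 * n →
      ∃ v N, Tb v ∧ N ≤ 8 * n ∧ Wk A (fun w => n ≤ 2 * d x w) y v N := fun y hy e => by
    obtain ⟨v, v1, v2⟩ := pa y hy
    rcases v1 with v1 | v1
    · exact ⟨v, _, v1, by omega, far_walk M v2 (by omega) (fb v v1)⟩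
    · have := M.tri x y v
      obtain ⟨v', N, a, b, c⟩ := mix v v1 (by omega)
      exact ⟨v', _, a, by omega, (far_walk M v2 (by omega) (fc v v1)).trans c⟩
  have t0 := ha.on x hx
  obtain ⟨y, v, N, y1, y2, y3, y4, y5, y6⟩ : ∃ y v N, Ta y ∧ d p y + n ≤ d p x ∧ d x y ≤ 2 * n ∧
      Tb v ∧ N ≤ 8 * n ∧ Wk A (fun w => n ≤ 2 * d x w) y v N := by
    by_cases c : 2 * n ≤ d p x
    · obtain ⟨y, y1, y2⟩ := ha.ex (d p x - 2 * n) (by omega)
      have := ha.ord x y hx y1
      obtain ⟨v, N, a, b, e⟩ := conn y y1 (by omega)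
      exact ⟨y, v, N, y1, by omega, by omega, a, b, e⟩
    · have := M.comm x p
      have := M.self p
      obtain ⟨v, N, a, b, e⟩ := mix p hc.l (by omega)
      exact ⟨p, v, N, ha.l, by omega, by omega, a, by omega, e⟩
  obtain ⟨z, v', N', z1, z2, z3, z4, z5, z6⟩ : ∃ z v N, Ta z ∧ d p x + n ≤ d p z ∧ d x z ≤ 2 * n ∧
      Tb v ∧ N ≤ 8 * n ∧ Wk A (fun w => n ≤ 2 * d x w) z v N := by
    by_cases c : d p x + 2 * n ≤ d p q
    · obtain ⟨y, y1, y2⟩ := ha.ex _ c
      have := ha.ord x y hx y1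
      obtain ⟨v, N, a, b, e⟩ := conn y y1 (by omega)
      exact ⟨y, v, N, y1, by omega, by omega, a, b, e⟩
    · have := fb q hb.l
      exact ⟨q, q, 0, ha.r, by omega, by omega, hb.l, by omega, .nil (by omega)⟩
  have := M.le' y6
  have := M.le' z6
  have := M.tri y x z
  have := M.comm y x
  have := M.tri v' z v
  have := M.tri z y v
  have := M.comm v' z
  have := M.comm z y
  exact done y z _ y1 z1 y2 z2 (by omega)
    ((z6.trans (wb v' v z4 y4)).trans (y6.symm M.symm))

theorem slim (M : Met A d) {C : ℕ} (hI : IsoA A C) {Ta Tb Tc : V → Prop} {p q s : V}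
    (ha : GS A d Ta p q) (hc : GS A d Tc p s) (hb : GS A d Tb q s) :
    ∀ u, Ta u → ∃ v, (Tb v ∨ Tc v) ∧ d u v ≤ 4 * (50 * C + 3) := by
  classical
  have ex : ∃ n, (∀ u, Ta u → ∃ v, (Tb v ∨ Tc v) ∧ d u v ≤ n) ∧
      (∀ u, Tb u → ∃ v, (Ta v ∨ Tc v) ∧ d u v ≤ n) ∧
      (∀ u, Tc u → ∃ v, (Ta v ∨ Tb v) ∧ d u v ≤ n) := by
    refine ⟨d p q + d q s + d p s, fun u hu => ⟨q, .inl hb.l, ?_⟩, fun u hu => ⟨s, .inr hc.r, ?_⟩,
      fun u hu => ⟨s, .inr hb.r, ?_⟩⟩
    · have := ha.on u hu; omega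
    · have := hb.on u hu; omega
    · have := hc.on u hu; omega
  obtain ⟨pa, pb, pc⟩ := Nat.find_spec ex
  suffices H : Nat.find ex ≤ 4 * (50 * C + 3) from fun u hu =>
    (pa u hu).imp fun v hv => ⟨hv.1, hv.2.trans H⟩
  by_contra hn
  have hm := Nat.find_min ex (m := Nat.find ex - 1) (by omega)
  generalize Nat.find ex = n at *
  simp only [not_and_or, not_forall, not_exists, not_le] at hm
  have sw : ∀ {T T1 T2 : V → Prop}, (∀ u, T u → ∃ v, (T1 v ∨ T2 v) ∧ d u v ≤ n) →
      ∀ u, T u → ∃ v, (T2 v ∨ T1 v) ∧ d u v ≤ n := fun h u hu =>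
    (h u hu).imp fun v hv => ⟨hv.1.symm, hv.2⟩
  rcases hm with ⟨x, hx, h⟩ | ⟨x, hx, h⟩ | ⟨x, hx, h⟩
  · have := core M hI ha hc hb hx (n := n) (fun u hu => by have := h u; grind)
      (fun u hu => by have := h u; grind) pa pc
    omega
  · have := core M hI hb (ha.symm M) (hc.symm M) hx (n := n) (fun u hu => by have := h u; grind)
      (fun u hu => by have := h u; grind) (sw pb) pa
    omega
  · have := core M hI hc ha (hb.symm M) hx (n := n) (fun u hu => by have := h u; grind)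
      (fun u hu => by have := h u; grind) (sw pc) (sw pa)
    omega

theorem four_of_isoA (M : Met A d) {C : ℕ} (hI : IsoA A C) : ∃ δ, Four d δ := by
  obtain ⟨δ, hδ⟩ : ∃ δ, δ = 4 * (50 * C + 3) := ⟨_, rfl⟩
  have near : ∀ {T1 T2 : V → Prop} {w x z u v : V}, GS A d T1 w x → GS A d T2 w z → T1 u → T2 v →
      d w u = d w v → 2 * (d w u + δ) + d x z < d w x + d w z → d u v ≤ 2 * δ := by
    intro T1 T2 w x z u v h1 h2 hu hv e l
    obtain ⟨T3, h3⟩ := exists_gs M x z
    obtain ⟨a, a1, a2⟩ := slim M hI h1 h2 h3 u hu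
    rw [← hδ] at a2
    have := M.tri w u a
    rcases a1 with a1 | a1
    · have := h3.on a a1
      have := M.tri w a x
      have := M.tri w a z
      have := M.comm a x
      omega
    · have := h2.ord a v a1 hv
      have := M.tri w a u
      have := M.comm a u
      have := M.tri u a v
      omega
  refine ⟨6 * δ + 4, fun w x y z => ?_⟩
  obtain ⟨T1, h1⟩ := exists_gs M w x
  obtain ⟨T2, h2⟩ := exists_gs M w y
  obtain ⟨T3, h3⟩ := exists_gs M w z
  rw [M.comm z w, M.comm y w, M.comm x w]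
  have := M.tri x w y
  have := M.tri w x z
  have := M.tri w y z
  have := M.tri w z x
  have := M.tri w z y
  have := M.comm x w
  have := M.comm z x
  have := M.comm z y
  by_contra hn
  obtain ⟨t, ht⟩ : ∃ t, t = min (d w x + d w z - d x z) (d w y + d w z - d y z) / 2 - δ - 1 :=
    ⟨_, rfl⟩
  obtain ⟨u1, a1, b1⟩ := h1.ex t (by omega)
  obtain ⟨u2, a2, b2⟩ := h2.ex t (by omega)
  obtain ⟨u3, a3, b3⟩ := h3.ex t (by omega)
  have := near h1 h3 a1 a3 (by omega) (by omega)
  have := near h2 h3 a2 a3 (by omega) (by omega)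
  have := h1.on u1 a1
  have := h2.on u2 a2
  have := M.tri x u1 y
  have := M.tri u1 u3 y
  have := M.tri u3 u2 y
  have := M.comm x u1
  have := M.comm u3 u2
  omega

end Pool.Agent.MP_434e52_an.Geo
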