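import Pool.Agent.MP_434e52_an.TDefs
import Pool.Agent.MP_434e52_an.HG.Geo1

/-! Word metrics: cochain isoperimetric inequality, hyperbolicity from relative hyperbolicity,
finite subgroups. -/

set_option autoImplicit false

namespace Pool.Agent.MP_434e52_an.Geo

open Finset

variable {G : Type} [Group G]

/-- edges of the Cayley graph -/
def Ad (S : Set G) (x y : G) : Prop := x⁻¹ * y ∈ S ∨ y⁻¹ * x ∈ S

/-- the linear isoperimetric inequality in cochain form -/
def Iso (S : Set G) (C : ℕ) : Prop :=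
  ∀ f h : G → ℤ, (∀ x, ∀ s ∈ S, |f (x * s) - f x| ≤ 1) → (∀ x, ∀ s ∈ S, |h (x * s) - h x| ≤ 1) →
    ∀ (n : ℕ) (γ : ℕ → G), γ n = γ 0 → (∀ i < n, Ad S (γ i) (γ (i + 1))) →
      |∑ i ∈ range n, (f (γ i) + f (γ (i + 1))) * (h (γ (i + 1)) - h (γ i))| ≤ C * n

variable {S : Set G}

theorem Ad.symm {x y : G} (h : Ad S x y) : Ad S y x := Or.symm h

theorem Ad.mul {x y : G} (g : G) (h : Ad S x y) : Ad S (g * x) (g * y) := by
  simpa [Ad, mul_assoc] using h

theorem Ad.mono {T : Set G} (hS : S ⊆ T) {x y : G} (h : Ad S x y) : Ad T x y :=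
  h.imp (fun a => hS a) fun a => hS a

theorem lip_iff {f : G → ℤ} : Lip (Ad S) f ↔ ∀ x, ∀ s ∈ S, |f (x * s) - f x| ≤ 1 := by
  refine ⟨fun h x s hs => h _ _ (.inl (by simpa using hs)), fun h x y a => ?_⟩
  rcases a with a | a
  · simpa using h x _ a
  · rw [abs_sub_comm]
    simpa using h y _ a

theorem iso_iff {C : ℕ} : Iso S C ↔ IsoA (Ad S) C := by
  constructor
  · intro H f h hf hh x n t w
    obtain ⟨γ, h0, h1, h2, rfl⟩ := w.toFun
    exact H f h (lip_iff.1 hf) (lip_iff.1 hh) n γ (h1.trans h0.symm) h2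
  · intro H f h hf hh n γ h0 h1
    have := Ws.seg (ω := om f h) h1 n 0 (by omega)
    rw [zero_add, h0, sum_range_zero, sub_zero] at this
    exact H f h (lip_iff.2 hf) (lip_iff.2 hh) _ _ _ this

theorem wk_list (l : List G) (hl : ∀ s ∈ l, s ∈ S ∨ s⁻¹ ∈ S) (x : G) :
    Wk (Ad S) (fun _ => True) x (x * l.prod) l.length := by
  induction l generalizing x with
  | nil => simpa using Wk.nil trivial
  | cons a l ih =>
    rw [List.prod_cons, ← mul_assoc]
    exact .cons trivial (by simpa [Ad] using hl a (by simp))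
      (ih (fun s hs => hl s (by simp [hs])) _)

theorem list_wk {P : G → Prop} {x y : G} {n : ℕ} (h : Wk (Ad S) P x y n) :
    ∃ l : List G, l.length = n ∧ (∀ s ∈ l, s ∈ S ∨ s⁻¹ ∈ S) ∧ l.prod = x⁻¹ * y := by
  induction h with
  | nil _ => exact ⟨[], rfl, by simp, by simp⟩
  | @cons x y z n _ b _ ih =>
    obtain ⟨l, h1, h2, h3⟩ := ih
    refine ⟨x⁻¹ * y :: l, by simp [h1], fun s hs => ?_, by simp [h3, mul_assoc]⟩
    rcases List.mem_cons.1 hs with rfl | hs
    · simpa [Ad] using b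
    · exact h2 s hs

theorem met (hS : Subgroup.closure S = ⊤) : Met (Ad S) fun x y => wordLen S (x⁻¹ * y) := by
  refine ⟨fun _ _ => Ad.symm, fun x y => ?_, fun x y n h => Nat.sInf_le (list_wk h)⟩
  have ne : {n | ∃ l : List G, l.length = n ∧ (∀ s ∈ l, s ∈ S ∨ s⁻¹ ∈ S) ∧
      l.prod = x⁻¹ * y}.Nonempty := by
    have h : x⁻¹ * y ∈ (Subgroup.closure S).toSubmonoid := by rw [hS]; trivial
    rw [Subgroup.closure_toSubmonoid] at h
    obtain ⟨l, h1, h2⟩ := Submonoid.exists_list_of_mem_closure h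
    exact ⟨_, l, rfl, fun s hs => by simpa using h1 s hs, h2⟩
  obtain ⟨l, h1, h2, h3⟩ := Nat.sInf_mem ne
  have := wk_list l h2 x
  rwa [h3, h1, mul_inv_cancel_left] at this

theorem four_of_iso (hS : Subgroup.closure S = ⊤) {C : ℕ} (h : Iso S C) : FourPoint S :=
  four_of_isoA (met hS) (iso_iff.1 h)

theorem iso_of_four (hS : Subgroup.closure S = ⊤) (h : FourPoint S) : ∃ C, Iso S C := by
  obtain ⟨δ, h⟩ := h
  exact (isoA_of_four (met hS) (δ := δ) h).imp fun _ => iso_iff.2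

theorem hyp_of_iso {S : Finset G} (hS : Subgroup.closure (S : Set G) = ⊤) {C : ℕ}
    (h : Iso (S : Set G) C) : Hyperbolic G := ⟨S, hS, four_of_iso hS h⟩

theorem ball_finite (hS : S.Finite) (n : ℕ) :
    {g : G | Wk (Ad S) (fun _ => True) g 1 n}.Finite := by
  induction n with
  | zero => exact (Set.finite_singleton 1).subset fun g hg => Wk.zero hg
  | succ n ih =>
    refine ((ih.prod (hS.union hS.inv)).image fun p => p.1 * p.2).subset fun g hg => ?_
    cases hg with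
    | @cons _ y _ _ _ b c =>
      refine ⟨(y, y⁻¹ * g), ⟨c, ?_⟩, by simp⟩
      rcases b with b | b
      · exact .inr (by simpa using b)
      · exact .inl b

theorem fin_bdd (h : Hyperbolic G) : ∃ b : ℕ, ∀ K : Subgroup G, Finite K → Nat.card K ≤ b := by
  classical
  obtain ⟨S, hS, δ, hF⟩ := h
  have M := met hS
  obtain ⟨d, hd⟩ : ∃ d : G → G → ℕ, d = fun x y => wordLen (S : Set G) (x⁻¹ * y) := ⟨_, rfl⟩
  have hF' : Four d δ := hd ▸ hF
  have hl : ∀ g x y, d (g * x) (g * y) = d x y := fun g x y => by simp [hd, mul_assoc]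
  rw [← hd] at M
  have fin : {g : G | d g 1 ≤ 2 * δ + 1}.Finite :=
    ((Set.finite_Iic (2 * δ + 1)).biUnion fun n _ => ball_finite S.finite_toSet n).subset
      fun g hg => Set.mem_biUnion hg (M.geo g 1)
  refine ⟨{g : G | d g 1 ≤ 2 * δ + 1}.ncard, fun K hK => ?_⟩
  have ex : ∃ r, ∃ c, ∀ b ∈ K, d c b ≤ r := by
    obtain ⟨r, hr⟩ := (Set.finite_range fun b : K => d 1 b).bddAbove
    exact ⟨r, 1, fun b hb => hr ⟨⟨b, hb⟩, rfl⟩⟩
  obtain ⟨c, hc⟩ := Nat.find_spec ex
  have key : ∀ a ∈ K, d c (a * c) ≤ 2 * δ + 1 := fun a ha => by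
    by_contra hn
    obtain ⟨T, hT⟩ := exists_gs M c (a * c)
    obtain ⟨m, m1, m2⟩ := hT.ex (d c (a * c) / 2) (by omega)
    have m3 := hT.on m m1
    have k : ∀ b ∈ K, d m b + 1 ≤ Nat.find ex := fun b hb => by
      have f := hF' (a * c) m b c
      have g1 := hc b hb
      have g2 := hc _ (K.mul_mem (K.inv_mem ha) hb)
      rw [← hl a, mul_inv_cancel_left] at g2
      rw [M.comm m c, M.comm b (a * c), M.comm b c] at f
      omega
    have := k 1 K.one_mem
    exact Nat.find_min ex (m := Nat.find ex - 1) (by omega)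
      ⟨m, fun b hb => by have := k b hb; omega⟩
  rw [← Nat.card_coe_set_eq]
  have := fin.to_subtype
  refine Nat.card_le_card_of_injective
    (fun a : K => (⟨c⁻¹ * a * c, ?_⟩ : {g : G | d g 1 ≤ 2 * δ + 1})) fun a b e => ?_
  · have := key a a.2
    rw [← hl c⁻¹, inv_mul_cancel, M.comm, ← mul_assoc] at this
    exact this
  · simpa using e

/-- walks with short edges and `k` long edges inside cosets of `H` -/
inductive Wc (A : G → G → Prop) (H : Subgroup G) (ω : G → G → ℤ) (φ : G → ℤ) :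
    G → G → ℕ → ℕ → ℤ → Prop
  | nil (x : G) : Wc A H ω φ x x 0 0 0
  | sh {x y z : G} {n k : ℕ} {t : ℤ} : A x y → Wc A H ω φ y z n k t →
      Wc A H ω φ x z (n + 1) k (ω x y + t)
  | lg {x y z : G} {n k : ℕ} {t : ℤ} : x⁻¹ * y ∈ H → Wc A H ω φ y z n k t →
      Wc A H ω φ x z (n + 1) (k + 1) (φ y - φ x + t)

section
variable {A : G → G → Prop} {H : Subgroup G} {ω : G → G → ℤ} {φ : G → ℤ}

theorem Wc.trans {x y z : G} {n m k j : ℕ} {s t : ℤ} (h : Wc A H ω φ x y n k s)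
    (g : Wc A H ω φ y z m j t) : Wc A H ω φ x z (n + m) (k + j) (s + t) := by
  induction h with
  | nil _ => simpa using g
  | sh b _ ih => rw [Nat.add_right_comm, add_assoc (ω _ _)]; exact .sh b (ih g)
  | lg b _ ih =>
    rw [Nat.add_right_comm, Nat.add_right_comm _ 1 j, add_assoc (φ _ - φ _)]; exact .lg b (ih g)

theorem Ws.wc {x y : G} {n : ℕ} {t : ℤ} (h : Ws A ω x y n t) : Wc A H ω φ x y n 0 t := by
  induction h with
  | nil _ => exact .nil _
  | cons b _ ih => exact .sh b ih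

theorem Wc.split {x y : G} {n k : ℕ} {t : ℤ} (h : Wc A H ω φ x y n k t) :
    Ws A ω x y n t ∨ ∃ a b n1 n2 k1 k2 t1 t2, Wc A H ω φ x a n1 k1 t1 ∧ a⁻¹ * b ∈ H ∧
      Wc A H ω φ b y n2 k2 t2 ∧ n1 + n2 + 1 = n ∧ k1 + k2 + 1 = k ∧ t = t1 + (φ b - φ a) + t2 := by
  induction h with
  | nil _ => exact .inl (.nil _)
  | sh b _ ih =>
    rcases ih with ih | ⟨a, b', n1, n2, k1, k2, t1, t2, h1, h2, h3, h4, h5, h6⟩
    · exact .inl (.cons b ih)
    · exact .inr ⟨a, b', _, n2, k1, k2, _, t2, .sh b h1, h2, h3, by omega, h5, by rw [h6]; ring⟩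
  | lg b c _ => exact .inr ⟨_, _, 0, _, 0, _, 0, _, .nil _, b, c, by omega, by omega, by ring⟩

end

/-- admissible paths relative to the coset of `c` -/
inductive Adm (S : Set G) (H : Subgroup G) (c : G) : G → G → ℕ → Prop
  | nil (x : G) : Adm S H c x x 0
  | cons {x y z : G} {n : ℕ} : Ad S x y ∨ (x⁻¹ * y ∈ H ∧ c⁻¹ * x ∉ H) → Adm S H c y z n →
      Adm S H c x z (n + 1)

theorem Adm.toFun {H : Subgroup G} {c x y : G} {n : ℕ} (h : Adm S H c x y n) :
    ∃ γ : ℕ → G, γ 0 = x ∧ γ n = y ∧ ∀ i < n,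
      Ad S (γ i) (γ (i + 1)) ∨ ((γ i)⁻¹ * γ (i + 1) ∈ H ∧ c⁻¹ * γ i ∉ H) := by
  induction h with
  | nil x => exact ⟨fun _ => x, rfl, rfl, by simp⟩
  | @cons x y z n b _ ih =>
    obtain ⟨γ, h0, h1, h2⟩ := ih
    refine ⟨fun i => Nat.casesOn i x γ, rfl, h1, fun i hi => ?_⟩
    cases i with
    | zero => simpa [h0] using b
    | succ i => exact h2 i (by omega)

theorem loops {H : Subgroup G} {T : Set G} (hT : T ⊆ H) {C : ℕ} {m : ℕ → ℕ}
    (hm : ∀ c x y n N, c⁻¹ * x ∈ H → c⁻¹ * y ∈ H → n ≤ N → Adm S H c x y n →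
      ∃ l ≤ m N, Wk (Ad T) (fun _ => True) y x l) (hm1 : ∀ N, 1 ≤ m N) (j : ℕ) :
    ∀ N, ∃ B : ℤ, ∀ f h φ : G → ℤ, Lip (Ad (S ∪ T)) f → Lip (Ad (S ∪ T)) h →
      (∀ x y, Ad T x y → |om f h x y - (φ y - φ x)| ≤ C) → ∀ x n k t, n ≤ N → k ≤ j →
        Wc (Ad (S ∪ T)) H (om f h) φ x x n k t → |t| ≤ B := by
  have sh : ∀ {N n : ℕ} {f h : G → ℤ} {x : G} {t : ℤ}, Lip (Ad (S ∪ T)) f → Lip (Ad (S ∪ T)) h →
      n ≤ N → Ws (Ad (S ∪ T)) (om f h) x x n t → |t| ≤ 2 * N * N := fun hf hh hn w =>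
    (ws_short hf hh w).trans (by exact_mod_cast Nat.mul_le_mul (Nat.mul_le_mul_left 2 hn) hn)
  induction j with
  | zero =>
    refine fun N => ⟨2 * N * N, fun f h φ hf hh _ x n k t hn hk w => ?_⟩
    rcases w.split with w | ⟨a, b, n1, n2, k1, k2, t1, t2, -, -, -, -, h5, -⟩
    · exact sh hf hh hn w
    · omega
  | succ j ih =>
    intro N
    obtain ⟨B, hB⟩ := ih (N + m N)
    obtain ⟨B', hB'⟩ : ∃ B' : ℤ, B' = |B| + C * m N := ⟨_, rfl⟩
    have B0 : 0 ≤ B' := by rw [hB']; positivity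
    refine ⟨2 * N * N + N * B', fun f h φ hf hh hφ x n k t hn hk w => ?_⟩
    have tw : ∀ {x y l}, Wk (Ad T) (fun _ => True) x y l →
        ∃ t, Ws (Ad (S ∪ T)) (om f h) x y l t ∧ |t - (φ y - φ x)| ≤ C * l := by
      intro x y l w
      induction w with
      | nil _ => exact ⟨0, .nil _, by simp⟩
      | @cons x y z l _ b _ ih =>
        obtain ⟨t, h1, h2⟩ := ih
        refine ⟨_, .cons (b.mono Set.subset_union_right) h1, ?_⟩
        have h3 := abs_le.1 (hφ _ _ b)
        have h4 := abs_le.1 h2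
        push_cast
        exact abs_le.2 ⟨by linarith [h3.1, h4.1], by linarith [h3.2, h4.2]⟩
    have tH : ∀ {x y}, Ad T x y → x⁻¹ * y ∈ H := fun {x y} a => by
      rcases a with a | a
      · exact hT a
      · simpa using H.inv_mem (hT a)
    have D : ∀ {c z x' n k t}, Wc (Ad (S ∪ T)) H (om f h) φ z x' n k t → c⁻¹ * x' ∈ H → n ≤ N →
        k ≤ j → ∃ y' n1 k1 t1, c⁻¹ * y' ∈ H ∧ Wc (Ad (S ∪ T)) H (om f h) φ z y' n1 k1 t1 ∧
          n1 ≤ n ∧ k1 ≤ k ∧ Adm S H c z y' n1 ∧ (c⁻¹ * z ∈ H → y' = z ∧ t1 = 0) ∧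
            |t - t1 - (φ x' - φ y')| ≤ n * B' := by
      intro c z x' n k t w hx
      induction w with
      | nil x => exact fun _ _ => ⟨x, 0, 0, 0, hx, .nil _, le_rfl, le_rfl, .nil _,
          fun _ => ⟨rfl, rfl⟩, by simp⟩
      | @sh z0 z x' n k t b _ ih =>
        intro hn hk
        obtain ⟨y', n1, k1, t1, a1, a2, a3, a4, a5, a6, a7⟩ := ih hx (by omega) hk
        have a8 := abs_le.1 a7
        have b' : Ad S z0 z ∨ Ad T z0 z := by
          rcases b with (b | b) | (b | b)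
          exacts [.inl (.inl b), .inr (.inl b), .inl (.inr b), .inr (.inr b)]
        by_cases c0 : c⁻¹ * z0 ∈ H
        · obtain ⟨l, l1, l2⟩ : ∃ l ≤ m N, Wk (Ad T) (fun _ => True) y' z0 l := by
            rcases b' with b' | b'
            · exact hm c _ _ _ N c0 a1 (by omega) (.cons (.inl b') a5)
            · obtain ⟨rfl, -⟩ := a6 (by simpa [mul_assoc] using H.mul_mem c0 (tH b'))
              exact ⟨1, hm1 N, .cons trivial b'.symm (.nil trivial)⟩
          obtain ⟨s, s1, s2⟩ := tw l2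
          have s3 := abs_le.1 ((hB f h φ hf hh hφ _ _ _ _ (by omega) (by omega)
            ((Wc.sh b a2).trans s1.wc)).trans (le_abs_self B))
          have s4 := abs_le.1 s2
          have s5 : (C : ℤ) * l ≤ C * m N := by exact_mod_cast Nat.mul_le_mul_left C l1
          refine ⟨z0, 0, 0, 0, c0, .nil _, by omega, by omega, .nil _, fun _ => ⟨rfl, rfl⟩, ?_⟩
          push_cast
          exact abs_le.2 ⟨by linarith [a8.1, s3.1, s4.2], by linarith [a8.2, s3.2, s4.1]⟩
        · refine ⟨y', _, k1, _, a1, .sh b a2, by omega, a4,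
            .cons (b'.imp id fun e => ⟨tH e, c0⟩) a5, fun e => (c0 e).elim, ?_⟩
          push_cast
          exact abs_le.2 ⟨by linarith [a8.1], by linarith [a8.2]⟩
      | @lg z0 z x' n k t b _ ih =>
        intro hn hk
        obtain ⟨y', n1, k1, t1, a1, a2, a3, a4, a5, a6, a7⟩ := ih hx (by omega) (by omega)
        have a8 := abs_le.1 a7
        by_cases c0 : c⁻¹ * z0 ∈ H
        · obtain ⟨rfl, rfl⟩ := a6 (by simpa [mul_assoc] using H.mul_mem c0 b)
          refine ⟨z0, 0, 0, 0, c0, .nil _, by omega, by omega, .nil _, fun _ => ⟨rfl, rfl⟩, ?_⟩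
          push_cast
          exact abs_le.2 ⟨by linarith [a8.1], by linarith [a8.2]⟩
        · refine ⟨y', _, _, _, a1, .lg b a2, by omega, by omega,
            .cons (.inr ⟨b, c0⟩) a5, fun e => (c0 e).elim, ?_⟩
          push_cast
          exact abs_le.2 ⟨by linarith [a8.1], by linarith [a8.2]⟩
    have NB : 0 ≤ (N : ℤ) * B' := by positivity
    rcases w.split with w | ⟨a, b, n1, n2, k1, k2, t1, t2, h1, h2, h3, h4, h5, rfl⟩
    · exact (sh hf hh hn w).trans (by linarith)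
    · obtain ⟨y', n', k', t', -, -, -, -, -, a6, a7⟩ := D (c := a) (h3.trans h1) (by simp)
        (by omega) (by omega)
      obtain ⟨rfl, rfl⟩ := a6 h2
      have a8 := abs_le.1 a7
      have a9 : ((n2 + n1 : ℕ) : ℤ) * B' ≤ N * B' :=
        mul_le_mul_of_nonneg_right (by exact_mod_cast (by omega)) B0
      have : (0 : ℤ) ≤ 2 * N * N := by positivity
      exact abs_le.2 ⟨by linarith [a8.1], by linarith [a8.2]⟩

theorem potential {H : Subgroup G} {T : Set H} (hT : Subgroup.closure T = ⊤) {C : ℕ}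
    (hI : IsoA (Ad T) C) {f h : G → ℤ} (hf : Lip (Ad ((↑) '' T : Set G)) f)
    (hh : Lip (Ad ((↑) '' T : Set G)) h) :
    ∃ φ : G → ℤ, ∀ x y, Ad ((↑) '' T : Set G) x y → |om f h x y - (φ y - φ x)| ≤ C := by
  have M := met hT
  have up : ∀ (c : G) {a b : H}, Ad T a b → Ad ((↑) '' T : Set G) (c * a) (c * b) :=
    fun c a b e => Ad.mul c (e.imp (fun e => ⟨_, e, by simp⟩) fun e => ⟨_, e, by simp⟩)
  have key : ∀ c : G, ∃ ψ : H → ℤ, ∀ a b, Ad T a b →
      ψ b ≤ ψ a + om (fun u : H => f (c * u)) (fun u : H => h (c * u)) a b + C := fun c => by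
    have l1 : Lip (Ad T) fun u : H => f (c * u) := fun a b e => hf _ _ (up c e)
    have l2 : Lip (Ad T) fun u : H => h (c * u) := fun a b e => hh _ _ (up c e)
    have ex : ∀ a : H, ∃ v : ℤ, (∃ n t, Ws (Ad T) (om (fun u : H => f (c * u))
        (fun u : H => h (c * u))) 1 a n t ∧ v = t + C * n) ∧ ∀ v' : ℤ, (∃ n t, Ws (Ad T)
        (om (fun u : H => f (c * u)) (fun u : H => h (c * u))) 1 a n t ∧ v' = t + C * n) →
        v ≤ v' := fun a => by
      obtain ⟨t0, w0⟩ := (M.geo a 1).ws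
        (ω := om (fun u : H => f (c * u)) (fun u : H => h (c * u)))
      obtain ⟨t1, w1⟩ := (M.geo 1 a).ws
        (ω := om (fun u : H => f (c * u)) (fun u : H => h (c * u)))
      refine Int.exists_least_of_bdd ⟨-t0 - C * wordLen T (a⁻¹ * 1), ?_⟩ ⟨_, _, _, w1, rfl⟩
      rintro _ ⟨n, t, w, rfl⟩
      have := (abs_le.1 (hI _ _ l1 l2 _ _ _ (w.trans w0))).1
      push_cast at this
      linarith
    choose ψ h1 h2 using ex
    refine ⟨ψ, fun a b e => ?_⟩
    obtain ⟨n, t, w, e1⟩ := h1 a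
    have := h2 b _ ⟨_, _, w.trans (.cons e (.nil _)), rfl⟩
    push_cast at this
    linarith
  choose ψ hψ using key
  have mem : ∀ g : G, ((g : G ⧸ H).out)⁻¹ * g ∈ H := fun g =>
    QuotientGroup.eq.1 (QuotientGroup.out_eq' _)
  refine ⟨fun g => ψ (g : G ⧸ H).out ⟨_, mem g⟩, ?_⟩
  have one : ∀ x y, Ad ((↑) '' T : Set G) x y → ψ (y : G ⧸ H).out ⟨_, mem y⟩ ≤
      ψ (x : G ⧸ H).out ⟨_, mem x⟩ + om f h x y + C := fun x y e => by
    have e0 : (y : G ⧸ H) = x := by
      rcases e with ⟨u, -, e⟩ | ⟨u, -, e⟩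
      · exact (QuotientGroup.eq.2 (e ▸ u.2)).symm
      · exact QuotientGroup.eq.2 (e ▸ u.2)
    have my : ((x : G ⧸ H).out)⁻¹ * y ∈ H := e0 ▸ mem y
    have e1 : Ad T ⟨_, mem x⟩ ⟨_, my⟩ := by
      refine e.imp ?_ ?_ <;> rintro ⟨u, hu, e⟩ <;> convert hu <;> ext <;> simp [e, mul_assoc]
    have := hψ (x : G ⧸ H).out _ _ e1
    simp only [om, mul_inv_cancel_left] at this
    have e2 : ψ (y : G ⧸ H).out ⟨_, mem y⟩ = ψ (x : G ⧸ H).out ⟨_, my⟩ := by
      congr 1
      · rw [e0]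
      · ext; simp [e0]
    rw [e2]
    exact this
  intro x y e
  have a := one x y e
  have b := one y x e.symm
  rw [om_symm] at b
  exact abs_le.2 ⟨by linarith, by linarith⟩

theorem hyp_of_rel {H : Subgroup G} (h : RelHyperbolic G H) (hH : Hyperbolic H) :
    Hyperbolic G := by
  classical
  obtain ⟨S, hS, ⟨δ, hF⟩, hA⟩ := h
  obtain ⟨T, hT, hTF⟩ := hH
  obtain ⟨C, hC⟩ := iso_of_four hT hTF
  have hI := iso_iff.1 hC
  have MT := met hT
  have TH : ((↑) '' (T : Set H) : Set G) ⊆ H := by rintro _ ⟨u, -, rfl⟩; exact u.2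
  have up : ∀ (c : G) {a b : H} {n}, Wk (Ad (T : Set H)) (fun _ => True) a b n →
      Wk (Ad ((↑) '' (T : Set H) : Set G)) (fun _ => True) (c * a) (c * b) n := by
    intro c a b n w
    induction w with
    | nil _ => exact .nil trivial
    | cons _ e _ ih =>
      exact .cons trivial
        (Ad.mul c (e.imp (fun e => ⟨_, e, by simp⟩) fun e => ⟨_, e, by simp⟩)) ih
  have bd : ∀ N : ℕ, ∃ m : ℕ, 1 ≤ m ∧ ∀ c x y n, c⁻¹ * x ∈ H → c⁻¹ * y ∈ H → n ≤ N →
      Adm (S : Set G) H c x y n →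
        ∃ l ≤ m, Wk (Ad ((↑) '' (T : Set H) : Set G)) (fun _ => True) y x l := fun N => by
    have f1 := ((Set.finite_Iic N).biUnion fun n _ => hA n).preimage
      (f := ((↑) : H → G)) Subtype.val_injective.injOn
    obtain ⟨m, hm⟩ := (f1.image fun u : H => wordLen (T : Set H) (u⁻¹ * 1)).bddAbove
    refine ⟨m + 1, by omega, fun c x y n hx hy hn w => ?_⟩
    obtain ⟨γ, h0, h1, h2⟩ := w.toFun
    have xy : x⁻¹ * y ∈ H := by simpa [mul_assoc] using H.mul_mem (H.inv_mem hx) hy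
    refine ⟨_, (hm ⟨⟨_, xy⟩, Set.mem_biUnion hn ⟨xy, fun i => x⁻¹ * γ i, by simp [h0],
      by simp [h1], fun i hi => ?_⟩, rfl⟩).trans m.le_succ, ?_⟩
    · rcases h2 i hi with (e | e) | ⟨e, e'⟩
      · exact .inl (by simpa [mul_assoc] using e)
      · exact .inr (.inl (by simpa [mul_assoc] using e))
      · exact .inr (.inr ⟨by simpa [mul_assoc] using e, fun g =>
          e' (by simpa [mul_assoc] using H.mul_mem hx g)⟩)
    · simpa using up x (MT.geo ⟨_, xy⟩ 1)
  choose m hm1 hm using bd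
  obtain ⟨B, hB⟩ := loops (S := S) (C := C) TH
    (fun c x y n N a b e w => hm N c x y n a b e w) hm1 (4 * (δ + 1)) (4 * (δ + 1))
  have e : ((S ∪ T.image ((↑) : H → G) : Finset G) : Set G) =
      (S : Set G) ∪ ((↑) : H → G) '' (T : Set H) := by simp
  refine hyp_of_iso (S := S ∪ T.image ((↑) : H → G)) ?_ (C := B.natAbs) (iso_iff.2 ?_)
  · rw [e, eq_top_iff, ← hS, Subgroup.closure_le]
    rintro g (hg | hg)
    · exact Subgroup.subset_closure (.inl hg)
    · have : (⟨g, hg⟩ : H) ∈ Subgroup.closure (T : Set H) := by rw [hT]; trivial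
      have := Subgroup.mem_map_of_mem H.subtype this
      rw [MonoidHom.map_closure] at this
      exact Subgroup.closure_mono Set.subset_union_right this
  · rw [e]
    intro f h hf hh x n t w
    obtain ⟨φ, hφ⟩ := potential hT hI (fun x y a => hf x y (a.mono Set.subset_union_right))
      (fun x y a => hh x y (a.mono Set.subset_union_right))
    obtain ⟨ω, hω⟩ : ∃ ω : G → G → ℤ, ∀ x y, ω x y =
      if Ad ((S : Set G) ∪ (↑) '' (T : Set H)) x y then om f h x y else φ y - φ x :=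
      ⟨_, fun _ _ => rfl⟩
    have c1 : ∀ {x y n t}, Ws (Ad ((S : Set G) ∪ H)) ω x y n t →
        ∃ k ≤ n, Wc (Ad ((S : Set G) ∪ (↑) '' (T : Set H))) H (om f h) φ x y n k t := by
      intro x y n t w
      induction w with
      | nil _ => exact ⟨0, le_rfl, .nil _⟩
      | @cons x y z n t b _ ih =>
        obtain ⟨k, k1, k2⟩ := ih
        rw [hω]
        split_ifs with c
        · exact ⟨k, by omega, .sh c k2⟩
        · refine ⟨k + 1, by omega, .lg ?_ k2⟩
          rcases b with (b | b) | (b | b)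
          · exact (c (.inl (.inl b))).elim
          · exact b
          · exact (c (.inr (.inl b))).elim
          · simpa using H.inv_mem b
    have c2 : ∀ {x y n t}, Ws (Ad ((S : Set G) ∪ (↑) '' (T : Set H))) (om f h) x y n t →
        Ws (Ad ((S : Set G) ∪ H)) ω x y n t := by
      intro x y n t w
      induction w with
      | nil _ => exact .nil _
      | @cons x y z n t b _ ih =>
        have := Ws.cons (b.mono (Set.union_subset_union_right _ TH)) ih
        rwa [hω, if_pos b] at this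
    refine (cut (met hS) (δ := δ) hF (ω := ω) (B := B) (fun x y => ?_) (fun x n t hn w => ?_)
      n x t (c2 w)).trans ?_
    · rw [hω, hω]
      by_cases c : Ad ((S : Set G) ∪ (↑) '' (T : Set H)) x y
      · rw [if_pos c, if_pos c.symm, om_symm]
      · rw [if_neg c, if_neg fun a => c a.symm, neg_sub]
    · obtain ⟨k, k1, k2⟩ := c1 w
      exact hB f h φ hf hh hφ x n k t hn (k1.trans hn) k2
    · exact mul_le_mul_of_nonneg_right (Int.le_natAbs) (by positivity)

end Pool.Agent.MP_434e52_an.Geo
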