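import Pool.Agent.MP_434e52_an.HG.Loc31
import Pool.Agent.MP_434e52_an.HG.Geo2

/-!
The twin triangles over a vertex group generated by two copies of a coded abelian group.
-/

set_option autoImplicit false
set_option linter.unusedSectionVars false

namespace Pool.Agent.MP_434e52_an

namespace T31

open Dev Code SemidirectProduct

noncomputable section

section code

variable {F : Type} [Field F] {A : Type} [CommGroup A] [Fintype A]

/-- polynomial functions of bounded total degree on a power of a finite group of units -/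
def polyCod (z : A →* F) (hz : Function.Injective z) (m : ℕ) : Cod F (Fin m → A) where
  Lam d f := ∃ P : MvPolynomial (Fin m) F, P.totalDegree ≤ d ∧
    ∀ y, f y = MvPolynomial.eval (fun i => z (y i)) P
  const d c := ⟨MvPolynomial.C c, by simp, fun y => by simp⟩
  add := by
    rintro d f f' ⟨P, p, q⟩ ⟨P', p', q'⟩
    exact ⟨P + P', (MvPolynomial.totalDegree_add _ _).trans (max_le p p'), fun y => by
      simp [q, q']⟩
  mul := by
    rintro d d' e f f' ⟨P, p, q⟩ ⟨P', p', q'⟩ he
    exact ⟨P * P', (MvPolynomial.totalDegree_mul _ _).trans (by omega), fun y => by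
      simp [q, q']⟩
  shift := by
    rintro d f y ⟨P, p, q⟩
    refine ⟨∑ s ∈ P.support, MvPolynomial.monomial s
      (P.coeff s * ∏ i, z (y i) ^ s i), ?_, fun t => ?_⟩
    · refine (MvPolynomial.totalDegree_finset_sum _ _).trans (Finset.sup_le fun s hs => ?_)
      exact (MvPolynomial.totalDegree_monomial_le _ _).trans
        ((MvPolynomial.le_totalDegree hs).trans p)
    · beta_reduce
      rw [q, MvPolynomial.eval_eq', map_sum]
      refine Finset.sum_congr rfl fun s _ => ?_
      rw [MvPolynomial.eval_monomial, Finsupp.prod_fintype _ _ fun i => pow_zero _, mul_assoc,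
        ← Finset.prod_mul_distrib]
      congr 1
      refine Finset.prod_congr rfl fun i _ => ?_
      rw [Pi.mul_apply, map_mul, mul_pow, mul_comm]
  sep := by
    intro y y' h
    obtain ⟨i, hi⟩ := Function.ne_iff.1 h
    have h0 : z (y i) - z (y' i) ≠ 0 := sub_ne_zero.2 (hz.ne hi)
    refine ⟨fun t => (z (y i) - z (y' i))⁻¹ * (z (t i) - z (y' i)),
      ⟨MvPolynomial.C (z (y i) - z (y' i))⁻¹ * (MvPolynomial.X i - MvPolynomial.C (z (y' i))),
        ?_, fun t => by simp⟩, inv_mul_cancel₀ h0, by simp⟩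
    refine (MvPolynomial.totalDegree_mul _ _).trans ?_
    rw [MvPolynomial.totalDegree_C, zero_add]
    refine (MvPolynomial.totalDegree_sub _ _).trans (max_le ?_ ?_) <;> simp
  k := 4 * Fintype.card A ^ m / Fintype.card A
  zero := by
    classical
    rintro f ⟨P, p, q⟩ T hT h
    by_cases hP : P = 0
    · funext y
      rw [q, hP, map_zero]
      rfl
    exfalso
    have c0 : 0 < Fintype.card A := Fintype.card_pos
    have hS : (Finset.univ.image z).card = Fintype.card A := by
      rw [Finset.card_image_of_injective _ hz, Finset.card_univ]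
    have sz := MvPolynomial.schwartz_zippel_totalDegree hP (Finset.univ.image z)
    rw [hS] at sz
    have h1 : T.card ≤ ({g ∈ Fintype.piFinset fun _ : Fin m => Finset.univ.image z |
        MvPolynomial.eval g P = 0} : Finset (Fin m → F)).card := by
      refine Finset.card_le_card_of_injOn (fun y i => z (y i)) (fun y hy => ?_) ?_
      · simp only [Finset.coe_filter, Fintype.mem_piFinset, Set.mem_setOf_eq]
        exact ⟨fun i => Finset.mem_image_of_mem _ (Finset.mem_univ _),
          (q y).symm.trans (h y hy)⟩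
      · intro y _ y' _ e
        funext i
        exact hz (congrFun e i)
    have c1 : (0 : ℚ≥0) < Fintype.card A := by exact_mod_cast c0
    rw [div_le_div_iff₀ (pow_pos c1 _) c1] at sz
    have h2 : ({g ∈ Fintype.piFinset fun _ : Fin m => Finset.univ.image z |
        MvPolynomial.eval g P = 0} : Finset (Fin m → F)).card * Fintype.card A ≤
        P.totalDegree * Fintype.card A ^ m := by exact_mod_cast sz
    have h3 : T.card * Fintype.card A ≤ 4 * Fintype.card A ^ m :=
      (Nat.mul_le_mul_right _ h1).trans (h2.trans (Nat.mul_le_mul_right _ p))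
    exact absurd ((Nat.le_div_iff_mul_le c0).2 h3) (not_le.2 hT)

theorem polyCod_k (z : A →* F) (hz : Function.Injective z) (m : ℕ) (hA : 64 ≤ Fintype.card A) :
    16 * (polyCod z hz m).k ≤ Fintype.card (Fin m → A) := by
  change 16 * (4 * Fintype.card A ^ m / Fintype.card A) ≤ _
  rw [Fintype.card_fun, Fintype.card_fin]
  have h1 : 4 * Fintype.card A ^ m / Fintype.card A ≤ 4 * Fintype.card A ^ m / 64 :=
    Nat.div_le_div_left hA (by norm_num)
  omega

end code

section gap

variable {E : Type} [NormedAddCommGroup E] [InnerProductSpace ℂ E] [CompleteSpace E]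

theorem gap3e {p q r : E →L[ℂ] E} (hp : IsStarProjection p) (hq : IsStarProjection q)
    (hr : IsStarProjection r) {e c : ℝ} (h1 : Ang (1 / 4) p q) (h2 : Ang (1 / 4) p r)
    (h3 : Ang e q r) (hc : 0 < c) (c1 : c ≤ 1 / 2) (c2 : c ≤ 3 / 4 - e) (v : E) :
    ∃ η, p η = η ∧ q η = η ∧ r η = η ∧
      c * ‖v - η‖ ^ 2 ≤ ‖v - p v‖ ^ 2 + ‖v - q v‖ ^ 2 + ‖v - r v‖ ^ 2 := by
  set T : E →L[ℂ] E := (1 - p) + (1 - q) + (1 - r) with hT
  have Ta : ∀ u, T u = (u - p u) + (u - q u) + (u - r u) := fun u => rfl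
  have o : ∀ {a : E →L[ℂ] E}, IsStarProjection a → ∀ u, ri (u - a u) u = ‖u - a u‖ ^ 2 :=
    fun ha u => by
      simp only [← ri_self, ri_sub, sub_ri, pr_ri ha, pr_pr ha]
      ring
  have Q : ∀ u, ri (T u) u = ‖u - p u‖ ^ 2 + ‖u - q u‖ ^ 2 + ‖u - r u‖ ^ 2 := fun u => by
    rw [Ta, add_ri, add_ri, o hp, o hq, o hr]
  have Ts : ∀ u w, ri (T u) w = ri u (T w) := fun u w => by
    simp only [Ta, ri_sub, sub_ri, ri_add, add_ri, pr_ri hp, pr_ri hq, pr_ri hr]
  have T2 : ∀ u, c * ri (T u) u ≤ ‖T u‖ ^ 2 := fun u => by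
    have a1 := h1 u
    have a2 := h2 u
    have a3 := h3 u
    rw [Q, Ta]
    generalize u - p u = x at *
    generalize u - q u = y at *
    generalize u - r u = z at *
    have b1 := mul_le_mul_of_nonneg_right c1 (sq_nonneg ‖x‖)
    have b2 := mul_le_mul_of_nonneg_right c2 (sq_nonneg ‖y‖)
    have b3 := mul_le_mul_of_nonneg_right c2 (sq_nonneg ‖z‖)
    simp only [← ri_self] at *
    simp only [ri_add, add_ri, ri_comm y x, ri_comm z y, ri_comm z x]
    nlinarith
  let K : Submodule ℂ E := (LinearMap.range (T : E →ₗ[ℂ] E))ᗮ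
  have g : ∀ w ∈ Kᗮ, c * ‖w‖ ^ 2 ≤ ri (T w) w := by
    intro w hw
    rw [Submodule.orthogonal_orthogonal_eq_closure] at hw
    refine closure_minimal (t := {w | c * ‖w‖ ^ 2 ≤ ri (T w) w}) ?_
      (isClosed_le (by fun_prop) (by unfold ri; fun_prop)) hw
    rintro _ ⟨u, rfl⟩
    change c * ‖T u‖ ^ 2 ≤ ri (T (T u)) (T u)
    have a1 : 0 ≤ ri (T (T u - (c : ℂ) • u)) (T u - (c : ℂ) • u) := by
      rw [Q]; positivity
    have a2 := mul_le_mul_of_nonneg_left (T2 u) hc.le
    rw [map_sub, map_smul] at a1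
    simp only [ri_sub, sub_ri, ri_smul, smul_ri, Ts (T u) u, ri_self] at a1
    linarith
  have hη := K.starProjection_apply_mem v
  have hw := K.sub_starProjection_mem_orthogonal v
  generalize K.starProjection v = η at hη hw
  have f : ri (T η) η = 0 := congrArg Complex.re (hη _ ⟨η, rfl⟩)
  rw [Q] at f
  have z : ∀ x : E, ‖η - x‖ ^ 2 ≤ 0 → x = η := fun x h =>
    (sub_eq_zero.1 (norm_eq_zero.1 (pow_eq_zero_iff two_ne_zero |>.1
      (h.antisymm (sq_nonneg _))))).symm
  have s1 := sq_nonneg ‖η - p η‖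
  have s2 := sq_nonneg ‖η - q η‖
  have s3 := sq_nonneg ‖η - r η‖
  have f1 := z (p η) (by linarith)
  have f2 := z (q η) (by linarith)
  have f3 := z (r η) (by linarith)
  refine ⟨η, f1, f2, f3, (g _ hw).trans_eq ?_⟩
  rw [Q]
  simp only [map_sub, f1, f2, f3, sub_sub_sub_cancel_right]

end gap

/-- The common vertex group with its two edge groups. -/
structure Bas (Y : Type) [CommGroup Y] where
  H : Type
  [gH : Group H]
  ι1 : Y →* H
  ι2 : Y →* H
  g2 : Gi2 ι1 ι2
  g4 : Gi4 ι1 ι2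
  gen : ι1.range ⊔ ι2.range = ⊤
  inf : Infinite H

attribute [instance] Bas.gH

variable {F Y : Type} [Field F] [Fintype F] [CommGroup Y] [Fintype Y] [DecidableEq Y]
  (L : Cod F Y) (B : Bas Y) (r : Bool)

/-- vertex groups -/
def tP : I → Type
  | .i0 => B.H
  | .i1 => PP L r
  | .i2 => PP L r

/-- edge groups -/
def tX (F Y : Type) [Field F] (r : Bool) : I → Type
  | .i0 => AddChar (Ex r F) ℂ
  | .i1 => Y
  | .i2 => Y

instance : ∀ k, Group (tP L B r k)
  | .i0 => B.gH
  | .i1 => inferInstanceAs (Group (PP L r))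
  | .i2 => inferInstanceAs (Group (PP L r))

instance : ∀ k, Group (tX F Y r k)
  | .i0 => inferInstanceAs (Group (AddChar (Ex r F) ℂ))
  | .i1 => inferInstanceAs (Group Y)
  | .i2 => inferInstanceAs (Group Y)

/-- edge maps -/
def tι : ∀ i k, tX F Y r i →* tP L B r k
  | .i0, .i0 => 1
  | .i0, .i1 => iX L r
  | .i0, .i2 => iX L r
  | .i1, .i0 => B.ι1
  | .i1, .i1 => 1
  | .i1, .i2 => (inr : Y →* PP L r)
  | .i2, .i0 => B.ι2
  | .i2, .i1 => (inr : Y →* PP L r)
  | .i2, .i2 => 1

/-- the triangle -/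
def tri : Tri where
  P := tP L B r
  X := tX F Y r
  ι := tι L B r
  g2 d := dis_ind (Q := fun i j k => Gi2 (tι L B r i k) (tι L B r j k)) B.g2 B.g2.symm
    (g2 (n := L)) (g2 (n := L)).symm (g2 (n := L)) (g2 (n := L)).symm d
  g4 d := dis_ind (Q := fun i j k => Gi4 (tι L B r i k) (tι L B r j k)) B.g4 B.g4.symm
    (g4 (n := L)) (g4 (n := L)).symm (g4 (n := L)) (g4 (n := L)).symm d

/-- the colimit group -/
abbrev GG : Type := G (tri L B r).ι

theorem finP : Finite (PP L r) := Finite.of_equiv _ SemidirectProduct.equivProd.symm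

theorem tri_vn : VNIso (GG L B false) (GG L B true) := by
  refine vnIso_of_tri (tri L B false) (tri L B true)
    (fun k => match k with
      | .i0 => Tw.refl B.H
      | .i1 => twP L
      | .i2 => twP L)
    (fun i => match i with
      | .i0 => twX F
      | .i1 => Tw.refl Y
      | .i2 => Tw.refl Y) ?_
  intro i k h x
  cases i <;> cases k <;> first
    | exact absurd rfl h
    | exact tw_iX (n := L) x
    | exact (tw_iY (n := L) x).trans MonoidAlgebra.mapDomain_single.symm
    | exact MonoidAlgebra.mapDomain_single.symm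

variable [CharP F 2]

theorem tri_free : FreeInNormal (GG L B r) := by
  refine (tri L B r).freeInNormal nontrivX (inferInstanceAs (Finite Y))
    (inferInstanceAs (Finite Y)) ?_
  generalize 24 * _ = n
  have := B.inf
  obtain ⟨W, hW⟩ := Infinite.exists_subset_card_eq B.H (n + 1)
  exact ⟨W, lt_of_lt_of_eq (Nat.lt_succ_self n) hW.symm⟩

/-- the three edge groups generate -/
theorem tri_gen {S : Subgroup (GG L B r)} (h : ∀ i, (ofX (tri L B r).ι i).range ≤ S) : S = ⊤ := by
  have key : ∀ i j k, Dis i j k →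
      ((tri L B r).ι i k).range ⊔ ((tri L B r).ι j k).range = ⊤ → ∀ p, of (tri L B r).ι k p ∈ S := by
    intro i j k d e p
    have : (⊤ : Subgroup ((tri L B r).P k)) ≤ S.comap (of (tri L B r).ι k) := by
      rw [← e, sup_le_iff]
      constructor <;> rintro _ ⟨x, rfl⟩
      · rw [Subgroup.mem_comap, of_ι d.2.1]; exact h i ⟨x, rfl⟩
      · rw [Subgroup.mem_comap, of_ι d.2.2]; exact h j ⟨x, rfl⟩
    exact this (Subgroup.mem_top p)
  rw [eq_top_iff]
  intro g _
  induction g using G_ind with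
  | h1 => exact S.one_mem
  | hm g k p ih =>
    refine S.mul_mem (ih trivial) ?_
    cases k
    · exact key .i1 .i2 .i0 (by decide) B.gen p
    · exact key .i0 .i2 .i1 (by decide) (gen (n := L)) p
    · exact key .i0 .i1 .i2 (by decide) (gen (n := L)) p

theorem tri_propT (hk : 16 * L.k ≤ Fintype.card Y) {e : ℝ} (he : e < 3 / 4)
    (ha : ∀ (E : Type) [NormedAddCommGroup E] [InnerProductSpace ℂ E] [CompleteSpace E]
      (π : B.H →* (E →L[ℂ] E)), (∀ g, π g ∈ unitary (E →L[ℂ] E)) →
        Ang e (av π B.ι1) (av π B.ι2)) : PropT (GG L B r) := by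
  classical
  let T := tri L B r
  let f0 : AddChar (Ex r F) ℂ →* GG L B r := ofX T.ι .i0
  let f1 : Y →* GG L B r := ofX T.ι .i1
  let f2 : Y →* GG L B r := ofX T.ι .i2
  let o0 : B.H →* GG L B r := of T.ι .i0
  let o1 : PP L r →* GG L B r := of T.ι .i1
  let o2 : PP L r →* GG L B r := of T.ι .i2
  have e02 : o2.comp (iX L r) = f0 := of_comp T (i := .i0) (k := .i2) (by decide)
  have e12 : o2.comp inr = f1 := of_comp T (i := .i1) (k := .i2) (by decide)
  have e01 : o1.comp (iX L r) = f0 := of_comp T (i := .i0) (k := .i1) (by decide)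
  have e21 : o1.comp inr = f2 := of_comp T (i := .i2) (k := .i1) (by decide)
  have e10 : o0.comp B.ι1 = f1 := of_comp T (i := .i1) (k := .i0) (by decide)
  have e20 : o0.comp B.ι2 = f2 := of_comp T (i := .i2) (k := .i0) (by decide)
  have hc : 0 < min (1 / 2) (3 / 4 - e) := lt_min (by norm_num) (by linarith)
  have c1 := min_le_left (1 / 2 : ℝ) (3 / 4 - e)
  have c2 := min_le_right (1 / 2 : ℝ) (3 / 4 - e)
  generalize min (1 / 2 : ℝ) (3 / 4 - e) = c at hc c1 c2
  refine ⟨Finset.univ.image f0 ∪ Finset.univ.image f1 ∪ Finset.univ.image f2, c / 3,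
    by positivity, ?_⟩
  rintro E _ _ _ π hu ⟨v, hv, hs⟩
  have a01 : Ang (1 / 4) (av π f0) (av π f1) := by
    rw [← e02, ← e12]
    exact ang (π.comp o2) (fun g => hu _) hk
  have a02 : Ang (1 / 4) (av π f0) (av π f2) := by
    rw [← e01, ← e21]
    exact ang (π.comp o1) (fun g => hu _) hk
  have a12 : Ang e (av π f1) (av π f2) := by
    rw [← e10, ← e20]
    exact ha E (π.comp o0) fun g => hu _
  obtain ⟨η, h0, h1, h2, h3⟩ := gap3e (Kaz.avg_pr hu f0) (Kaz.avg_pr hu f1) (Kaz.avg_pr hu f2)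
    a01 a02 a12 hc c1 c2 v
  refine ⟨η, ?_, fun g => ?_⟩
  · rintro rfl
    have b0 := pow_le_pow_left₀ (norm_nonneg _) (Kaz.avg_near (π := π) f0 (v := v) (d := c / 3)
      fun x => (hs _ (by simp)).le) 2
    have b1 := pow_le_pow_left₀ (norm_nonneg _) (Kaz.avg_near (π := π) f1 (v := v) (d := c / 3)
      fun x => (hs _ (by simp)).le) 2
    have b2 := pow_le_pow_left₀ (norm_nonneg _) (Kaz.avg_near (π := π) f2 (v := v) (d := c / 3)
      fun x => (hs _ (by simp)).le) 2
    rw [sub_zero, hv] at h3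
    nlinarith
  · let S : Subgroup (GG L B r) := Subgroup.closure {g | π g η = η}
    have : S = ⊤ := tri_gen L B r fun i => by
      rintro _ ⟨x, rfl⟩
      refine Subgroup.subset_closure ?_
      cases i
      · exact Kaz.avg_fix f0 h0 x
      · exact Kaz.avg_fix f1 h1 x
      · exact Kaz.avg_fix f2 h2 x
    exact Kaz.fix_closure (s := {g | π g η = η}) (fun g h => h) (show g ∈ S by rw [this]; trivial)

theorem tri_lv : ∃ V : Lv (GG L B r), (∀ k, V.P k = (of (tri L B r).ι k).range) ∧ V.Thin ∧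
    ⨆ k, V.P k = ⊤ ∧ ∀ k, Finite ((tri L B r).P k) → Finite (V.P k) := by
  obtain ⟨V, h1, h2⟩ := (tri L B r).exists_lv
  refine ⟨V, h1, h2 fun j k d => ?_, ?_, fun k _ => ?_⟩
  · cases j <;> cases k <;> first | exact absurd d (by decide) | exact g6 (n := L)
  · refine tri_gen L B r fun i => ?_
    refine le_trans ?_ (le_iSup V.P (nx i))
    rintro _ ⟨x, rfl⟩
    rw [h1]
    exact ⟨_, rfl⟩
  · rw [h1]
    exact Finite.of_surjective _ (of (tri L B r).ι k).rangeRestrict_surjective

theorem tri_relHyp : RelHyperbolic (GG L B r) (of (tri L B r).ι .i0).range := by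
  obtain ⟨V, h1, h2, h3, h4⟩ := tri_lv L B r
  rw [← h1]
  refine V.relHyp h2 (fun k hk => h4 k ?_) h3
  cases k
  exacts [absurd rfl hk, finP L r, finP L r]

theorem tri_infinite : Infinite (GG L B r) :=
  @Infinite.of_injective _ _ B.inf _ ((tri L B r).npc.of_inj .i0)

/-- the retraction onto the base group -/
theorem exists_retr : ∃ ρ : GG L B r →* B.H, ∀ p, ρ (of (tri L B r).ι .i0 p) = p := by
  let f : ∀ k, (tri L B r).P k →* B.H := fun k => match k with
    | .i0 => MonoidHom.id _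
    | .i1 => B.ι2.comp (rightHom : PP L r →* Y)
    | .i2 => B.ι1.comp (rightHom : PP L r →* Y)
  have hf : ∀ i j k x, i ≠ j → i ≠ k →
      f j ((tri L B r).ι i j x) = f k ((tri L B r).ι i k x) := by
    intro i j k x h1 h2
    have e1 : B.ι1 1 = B.ι2 1 := by rw [map_one, map_one]
    cases i <;> cases j <;> cases k <;> first
      | exact absurd rfl h1
      | exact absurd rfl h2
      | rfl
      | exact e1
      | exact e1.symm
  exact ⟨lift f hf, fun p => lift_of f hf .i0 p⟩

theorem tri_not_virt (hY : Odd (Fintype.card Y)) {y : Y} (hy : y ≠ 1)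
    (hN : ∀ N : Subgroup B.H, N.Normal → N.FiniteIndex → B.ι1 y ∈ N)
    {K : Subgroup B.H} (k1 : K.Normal) (k2 : K.FiniteIndex)
    (k3 : ∀ h ∈ K, h ^ 4 = 1 → h ^ 2 = 1) : ¬ VirtIso (GG L B false) (GG L B true) := by
  intro h
  obtain ⟨Γ, _, f, f', i1, i2, n1, n2⟩ :=
    emb_of_virt (tri_free L B false).icc (tri_free L B true).icc h
  obtain ⟨ρ, hρ⟩ := exists_retr L B false
  -- no element of order four over `K`
  have hG : ∀ g : GG L B false, ρ g ∈ K → g ^ 4 = 1 → g ^ 2 = 1 := by
    intro g hg h4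
    by_contra h2
    obtain ⟨V, v1, -⟩ := (tri L B false).exists_lv
    obtain ⟨k, t, ht⟩ := V.tor g h4 h2
    rw [v1] at ht
    obtain ⟨p, hp⟩ := ht
    have e : ∀ n : ℕ, of (tri L B false).ι k (p ^ n) = t⁻¹ * g ^ n * t := fun n => by
      rw [map_pow, hp]
      simpa using (conj_pow (i := n) (a := t⁻¹) (b := g))
    have p4 : p ^ 4 = 1 := (tri L B false).npc.of_inj k (by rw [e, h4, map_one]; group)
    have p2 : p ^ 2 = 1 := by
      cases k
      · refine k3 p ?_ p4
        rw [← hρ p, hp, map_mul, map_mul, map_inv]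
        exact k1.conj_mem' _ hg _
      · exact no4 hY p p4
      · exact no4 hY p p4
    have := e 2
    rw [p2, map_one] at this
    apply h2
    calc g ^ 2 = t * (t⁻¹ * g ^ 2 * t) * t⁻¹ := by group
      _ = 1 := by rw [← this]; group
  -- a finite index normal subgroup of the second group
  have fi : ∀ {A C : Type} [Group A] [Group C] (S : Subgroup C) (φ : A →* C), S.FiniteIndex →
      (S.comap φ).FiniteIndex := fun S φ _ =>
    ⟨by rw [Subgroup.index_comap]; exact Subgroup.FiniteIndex.index_ne_zero⟩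
  let Γ1 : Subgroup Γ := K.comap (ρ.comp f)
  have : Γ1.FiniteIndex := fi _ _ k2
  have : (Γ1.map f').FiniteIndex := ⟨by
    rw [Subgroup.index_map_of_injective _ i2]
    exact mul_ne_zero Subgroup.FiniteIndex.index_ne_zero n2.index_ne_zero⟩
  let N := (Γ1.map f').normalCore
  let o0 : B.H →* GG L B true := of (tri L B true).ι .i0
  let o2 : PP L true →* GG L B true := of (tri L B true).ι .i2
  have hy' : o0 (B.ι1 y) ∈ N := hN (N.comap o0) inferInstance (fi _ _ inferInstance)
  have e1 : o0 (B.ι1 y) = o2 (inr y) :=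
    (of_ι (ι := (tri L B true).ι) (i := .i1) (k := .i0) (by decide) y).trans
      (of_ι (ι := (tri L B true).ι) (i := .i1) (k := .i2) (by decide) y).symm
  obtain ⟨x, x4, x2⟩ := ord4 (n := L) y hy
  have hc : o2 ((inr y : PP L true) * iX L true x * ((inr y : PP L true))⁻¹ * (iX L true x)⁻¹) ∈ N := by
    rw [e1] at hy'
    have := N.mul_mem hy' ((inferInstance : N.Normal).conj_mem _ (N.inv_mem hy')
      (o2 (iX L true x)))
    simpa only [map_mul, map_inv, mul_assoc] using this
  obtain ⟨γ, g1, g2⟩ := (Γ1.map f').normalCore_le hc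
  have γ4 : γ ^ 4 = 1 := i2 (by rw [map_pow, g2, ← map_pow, x4, map_one, map_one])
  have γ2 : γ ^ 2 = 1 := i1 (by
    rw [map_pow, map_one]
    exact hG _ g1 (by rw [← map_pow, γ4, map_one]))
  have o2i : Function.Injective o2 := (tri L B true).npc.of_inj .i2
  exact x2 (o2i (by rw [map_pow, ← g2, ← map_pow, γ2, map_one, map_one]))

theorem hyp_of_equiv {H K : Type} [Group H] [Group K] (e : H ≃* K) (h : Hyperbolic H) :
    Hyperbolic K := by
  classical
  obtain ⟨S, hS, hF⟩ := h
  obtain ⟨C, hC⟩ := Geo.iso_of_four hS hF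
  refine Geo.hyp_of_iso (S := S.image e) ?_ (C := C) fun f h hf hh n γ h0 hγ => ?_
  · rw [Finset.coe_image, ← MonoidHom.coe_coe e, ← MonoidHom.map_closure, hS]
    exact Subgroup.map_top_of_surjective _ e.surjective
  · have m : ∀ s ∈ (S : Set H), e s ∈ ((S.image e : Finset K) : Set K) := fun s hs =>
      Finset.mem_coe.2 (Finset.mem_image_of_mem _ hs)
    have m' : ∀ a b : K, a⁻¹ * b ∈ ((S.image e : Finset K) : Set K) →
        (e.symm a)⁻¹ * e.symm b ∈ (S : Set H) := fun a b hs => by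
      obtain ⟨s, hs, es⟩ := Finset.mem_image.1 (Finset.mem_coe.1 hs)
      rw [← map_inv, ← map_mul, ← es, e.symm_apply_apply]
      exact hs
    have := hC (fun x => f (e x)) (fun x => h (e x))
      (fun x s hs => by simpa only [map_mul] using hf (e x) _ (m s hs))
      (fun x s hs => by simpa only [map_mul] using hh (e x) _ (m s hs)) n (fun i => e.symm (γ i))
      (by simp only [h0]) fun i hi => (hγ i hi).imp (m' _ _) (m' _ _)
    simpa only [e.apply_symm_apply] using this

theorem rel {H : Type} [Group H] (G : Type) [Group G] (f : H →* G) (hf : Function.Injective f)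
    (h : RelHyperbolic G f.range) (hH : Hyperbolic H) : Hyperbolic G :=
  Geo.hyp_of_rel h (hyp_of_equiv (MonoidHom.ofInjective hf) hH)

theorem tri_res {y : Y} (hy : y ≠ 1)
    (hN : ∀ N : Subgroup B.H, N.Normal → N.FiniteIndex → B.ι1 y ∈ N) :
    ∃ g : GG L B r, g ≠ 1 ∧ ∀ S : Subgroup (GG L B r), S.FiniteIndex → g ∈ S := by
  let o0 : B.H →* GG L B r := of (tri L B r).ι .i0
  refine ⟨o0 (B.ι1 y), fun e => hy ?_, fun S hS => S.normalCore_le ?_⟩
  · have h1 : B.ι1 y = 1 := (tri L B r).npc.of_inj .i0 (e.trans (map_one o0).symm)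
    exact (B.g2 y 1 (h1.trans (map_one _).symm)).1
  · exact hN (S.normalCore.comap o0) inferInstance
      ⟨by rw [Subgroup.index_comap]; exact Subgroup.FiniteIndex.index_ne_zero⟩

theorem twins_cod (hY : Odd (Fintype.card Y)) (hk : 16 * L.k ≤ Fintype.card Y) {e : ℝ}
    (he : e < 3 / 4)
    (ha : ∀ (E : Type) [NormedAddCommGroup E] [InnerProductSpace ℂ E] [CompleteSpace E]
      (π : B.H →* (E →L[ℂ] E)), (∀ g, π g ∈ unitary (E →L[ℂ] E)) →
        Ang e (av π B.ι1) (av π B.ι2))
    {y : Y} (hy : y ≠ 1) (hN : ∀ N : Subgroup B.H, N.Normal → N.FiniteIndex → B.ι1 y ∈ N)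
    (h4 : ∀ h : B.H, h ^ 4 = 1 → h ^ 2 = 1) (hH : Hyperbolic B.H) :
    ∃ (G G' : Type) (_ : Group G) (_ : Group G'),
      Hyperbolic G ∧ Hyperbolic G' ∧ Infinite G ∧ Infinite G' ∧ ICC G ∧ ICC G' ∧
        PropT G ∧ PropT G' ∧ VNIso G G' ∧ ¬ VirtIso G G' ∧ FreeInNormal G ∧ FreeInNormal G' ∧
        (∃ g : G, g ≠ 1 ∧ ∀ S : Subgroup G, S.FiniteIndex → g ∈ S) ∧
        ∃ g : G', g ≠ 1 ∧ ∀ S : Subgroup G', S.FiniteIndex → g ∈ S :=
  ⟨GG L B false, GG L B true, _, _,
    rel _ _ ((tri L B _).npc.of_inj .i0) (tri_relHyp L B _) hH,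
    rel _ _ ((tri L B _).npc.of_inj .i0) (tri_relHyp L B _) hH,
    tri_infinite L B _, tri_infinite L B _, (tri_free L B _).icc, (tri_free L B _).icc,
    tri_propT L B _ hk he ha, tri_propT L B _ hk he ha, tri_vn L B,
    tri_not_virt L B hY hy hN (K := ⊤) inferInstance inferInstance fun h _ => h4 h,
    tri_free L B _, tri_free L B _, tri_res L B _ hy hN, tri_res L B _ hy hN⟩

end

end T31

open T31 in
/-- Twins over a hyperbolic vertex group generated by two copies of a power of a finite group of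
units in characteristic two. -/
theorem twins {F A H : Type} [Field F] [Fintype F] [CharP F 2] [CommGroup A] [Fintype A] [Group H]
    (z : A →* F) (hz : Function.Injective z) (hA : 64 ≤ Fintype.card A) {m : ℕ}
    (i1 i2 : (Fin m → A) →* H) (g2 : Gi2 i1 i2) (g4 : Gi4 i1 i2) (gen : i1.range ⊔ i2.range = ⊤)
    (inf : Infinite H) {e : ℝ} (he : e < 3 / 4)
    (ha : ∀ (E : Type) [NormedAddCommGroup E] [InnerProductSpace ℂ E] [CompleteSpace E]
      (π : H →* (E →L[ℂ] E)), (∀ g, π g ∈ unitary (E →L[ℂ] E)) → Ang e (av π i1) (av π i2))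
    {y : Fin m → A} (hy : y ≠ 1)
    (hN : (∀ N : Subgroup H, N.Normal → N.FiniteIndex → i1 y ∈ N) ∨
      ∀ N : Subgroup H, N.Normal → N.FiniteIndex → i2 y ∈ N)
    (h4 : ∀ h : H, h ^ 4 = 1 → h ^ 2 = 1) (hH : Hyperbolic H) :
    ∃ (G G' : Type) (_ : Group G) (_ : Group G'),
      Hyperbolic G ∧ Hyperbolic G' ∧ Infinite G ∧ Infinite G' ∧ ICC G ∧ ICC G' ∧
        PropT G ∧ PropT G' ∧ VNIso G G' ∧ ¬ VirtIso G G' ∧ FreeInNormal G ∧ FreeInNormal G' ∧
        (∃ g : G, g ≠ 1 ∧ ∀ S : Subgroup G, S.FiniteIndex → g ∈ S) ∧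
        ∃ g : G', g ≠ 1 ∧ ∀ S : Subgroup G', S.FiniteIndex → g ∈ S := by
  classical
  have hY : Odd (Fintype.card (Fin m → A)) := by
    rw [Fintype.card_fun]
    refine Odd.pow (Nat.not_even_iff_odd.1 fun h2 => ?_)
    have : Fact (Nat.Prime 2) := ⟨Nat.prime_two⟩
    obtain ⟨a, ha⟩ := exists_prime_orderOf_dvd_card (G := A) 2 h2.two_dvd
    have h1 : z a * z a = 1 := by rw [← map_mul, ← sq, ← ha, pow_orderOf_eq_one, map_one]
    have h3 : z a = z 1 := by
      rw [map_one]
      rcases mul_self_eq_one_iff.1 h1 with h | h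
      · exact h
      · rw [h, CharTwo.neg_eq]
    rw [hz h3, orderOf_one] at ha
    omega
  rcases hN with hN | hN
  · exact twins_cod (polyCod z hz m) ⟨H, i1, i2, g2, g4, gen, inf⟩ hY (polyCod_k z hz m hA) he ha
      hy hN h4 hH
  · exact twins_cod (polyCod z hz m) ⟨H, i2, i1, g2.symm, g4.symm, (sup_comm _ _).trans gen, inf⟩
      hY (polyCod_k z hz m hA) he (fun E _ _ _ π hu => (ha E π hu).symm) hy hN h4 hH

/-- The case of the full unit group. -/
theorem twins_units {F H : Type} [Field F] [Fintype F] [DecidableEq F] [CharP F 2] [Group H]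
    (hF : 65 ≤ Fintype.card F) {m : ℕ}
    (i1 i2 : (Fin m → Fˣ) →* H) (g2 : Gi2 i1 i2) (g4 : Gi4 i1 i2) (gen : i1.range ⊔ i2.range = ⊤)
    (inf : Infinite H) {e : ℝ} (he : e < 3 / 4)
    (ha : ∀ (E : Type) [NormedAddCommGroup E] [InnerProductSpace ℂ E] [CompleteSpace E]
      (π : H →* (E →L[ℂ] E)), (∀ g, π g ∈ unitary (E →L[ℂ] E)) → Ang e (av π i1) (av π i2))
    {y : Fin m → Fˣ} (hy : y ≠ 1)
    (hN : (∀ N : Subgroup H, N.Normal → N.FiniteIndex → i1 y ∈ N) ∨
      ∀ N : Subgroup H, N.Normal → N.FiniteIndex → i2 y ∈ N)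
    (h4 : ∀ h : H, h ^ 4 = 1 → h ^ 2 = 1) (hH : Hyperbolic H) :
    ∃ (G G' : Type) (_ : Group G) (_ : Group G'),
      Hyperbolic G ∧ Hyperbolic G' ∧ Infinite G ∧ Infinite G' ∧ ICC G ∧ ICC G' ∧
        PropT G ∧ PropT G' ∧ VNIso G G' ∧ ¬ VirtIso G G' ∧ FreeInNormal G ∧ FreeInNormal G' ∧
        (∃ g : G, g ≠ 1 ∧ ∀ S : Subgroup G, S.FiniteIndex → g ∈ S) ∧
        ∃ g : G', g ≠ 1 ∧ ∀ S : Subgroup G', S.FiniteIndex → g ∈ S :=
  twins (Units.coeHom F) Units.val_injective (by rw [Fintype.card_units]; omega) i1 i2 g2 g4 gen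
    inf he ha hy hN h4 hH

end Pool.Agent.MP_434e52_an
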