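import Pool.Agent.MP_434e52_an.HG.DDefs
import Pool.Agent.MP_434e52_an.HG.Tri31

/-! From the properties of the universal group of the graph to the twins. -/

namespace Pool.Agent.MP_434e52_an.H29

open Pool.Agent.MP_434e52_an

section
variable {R E K : Type} [Group K] {row : E → R} {kind : R → Bool} {σ : E → E} {pos : E → K}
  {H : Type} [Group H] {ι : Bool → K →* H} {gr : R → H}

theorem Pack.gi2 (hP : Pack row kind σ pos H ι gr) : Gi2 (ι true) (ι false) := by
  intro x y e
  by_cases hx : x = 1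
  · refine ⟨hx, hP.inj false ?_⟩
    rw [← e, hx, map_one, map_one]
  by_cases hy : y = 1
  · exact absurd (hP.inj true (by rw [e, hy, map_one, map_one])) hx
  refine absurd ?_ (hP.short 1 ![(true, x), (false, y⁻¹)] (by norm_num) ?_ (Or.inr ?_))
  · simp [ev, e]
  · intro i
    fin_cases i
    · exact hx
    · exact inv_ne_one.2 hy
  · intro i
    fin_cases i <;> simp

theorem Pack.gi4 (hP : Pack row kind σ pos H ι gr) : Gi4 (ι true) (ι false) := by
  intro x y x' y' e
  by_contra hn
  simp only [not_or] at hn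
  refine absurd ?_ (hP.short 3 ![(true, x), (false, y), (true, x'), (false, y')] (by norm_num) ?_
    (Or.inr ?_))
  · rw [← e]
    simp [ev, List.ofFn_succ, mul_assoc]
  · intro i
    fin_cases i
    · exact hn.1
    · exact hn.2.1
    · exact hn.2.2.1
    · exact hn.2.2.2
  · intro i
    fin_cases i <;> simp

theorem Pack.gen2 (hP : Pack row kind σ pos H ι gr) :
    (ι true).range ⊔ (ι false).range = ⊤ := by
  rw [← hP.gen, iSup_bool_eq]

theorem Pack.hyp [Finite K] (hP : Pack row kind σ pos H ι gr) : Hyperbolic H := by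
  obtain ⟨C, hC⟩ := hP.iso
  have fin : (⋃ a, ((ι a).range : Set H)).Finite :=
    Set.finite_iUnion fun a => by
      rw [MonoidHom.coe_range]
      exact Set.finite_range _
  refine Geo.hyp_of_iso (S := fin.toFinset) (C := C) ?_ ?_
  · rw [Set.Finite.coe_toFinset, Subgroup.closure_iUnion]
    simp only [Subgroup.closure_eq]
    exact hP.gen
  · rw [Set.Finite.coe_toFinset]
    exact hC

theorem Pack.inf (hP : Pack row kind σ pos H ι gr) {a : Bool} {y : K} (hy : y ≠ 1)
    (hN : ∀ N : Subgroup H, N.Normal → N.FiniteIndex → ι a y ∈ N) : Infinite H := by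
  by_contra hf
  rw [not_infinite_iff_finite] at hf
  have := hN ⊥ inferInstance inferInstance
  rw [Subgroup.mem_bot, ← map_one (ι a)] at this
  exact hy (hP.inj a this)

end

theorem odd_card_units (F : Type) [Field F] [Fintype F] [CharP F 2] (n : ℕ) :
    Odd (Nat.card (Fin n → Fˣ)) := by
  rw [Nat.card_fun]
  refine Odd.pow ?_
  obtain ⟨k, -, hk⟩ := FiniteField.card F 2
  rw [Nat.card_units, Nat.card_eq_fintype_card, hk]
  exact Nat.Even.sub_odd (Nat.one_le_pow _ _ two_pos)
    ((Nat.even_pow' k.ne_zero).2 even_two) odd_one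

theorem twins_of_pack {F : Type} [Field F] [Fintype F] [DecidableEq F] [CharP F 2]
    (hF : 65 ≤ Fintype.card F) {n : ℕ} {R E : Type} {row : E → R} {kind : R → Bool} {σ : E → E}
    {pos : E → Fin n → Fˣ} {H : Type} [Group H] {ι : Bool → (Fin n → Fˣ) →* H} {gr : R → H}
    (hP : Pack row kind σ pos H ι gr)
    (hres : ∃ a y, y ≠ 1 ∧ ∀ N : Subgroup H, N.Normal → N.FiniteIndex → ι a y ∈ N)
    (ha : ∀ (V : Type) [NormedAddCommGroup V] [InnerProductSpace ℂ V] [CompleteSpace V]
      (π : H →* (V →L[ℂ] V)), (∀ g, π g ∈ unitary (V →L[ℂ] V)) →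
        Ang (1 / 2) (av π (ι true)) (av π (ι false))) :
    ∃ (G G' : Type) (_ : Group G) (_ : Group G'),
      Hyperbolic G ∧ Hyperbolic G' ∧ Infinite G ∧ Infinite G' ∧ ICC G ∧ ICC G' ∧
        PropT G ∧ PropT G' ∧ VNIso G G' ∧ ¬ VirtIso G G' ∧ FreeInNormal G ∧ FreeInNormal G' ∧
        (∃ g : G, g ≠ 1 ∧ ∀ S : Subgroup G, S.FiniteIndex → g ∈ S) ∧
        ∃ g : G', g ≠ 1 ∧ ∀ S : Subgroup G', S.FiniteIndex → g ∈ S := by
  obtain ⟨a, y, hy, hN⟩ := hres
  refine twins_units hF (ι true) (ι false) hP.gi2 hP.gi4 hP.gen2 (hP.inf hy hN) (by norm_num) ha hy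
    ?_ (fun h e => hP.noinv (odd_card_units F n) _ (by rw [← pow_mul]; exact e)) hP.hyp
  cases a
  · exact Or.inr hN
  · exact Or.inl hN

end Pool.Agent.MP_434e52_an.H29
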