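import Pool.Agent.Results.MP_434e52_an.HyperbolicTwins

/-! The statement on hyperbolic twins contains the two earlier statements. -/

set_option autoImplicit false

namespace Pool.Agent.MP_434e52_an.H29

theorem wordLen_one {G : Type} [Group G] (S : Set G) (g : G) :
    wordLen (S ∪ (⊥ : Subgroup G)) g = wordLen S g := by
  classical
  have a : ∀ n ∈ {n | ∃ l : List G, l.length = n ∧ (∀ s ∈ l, s ∈ S ∨ s⁻¹ ∈ S) ∧ l.prod = g},
      n ∈ {n | ∃ l : List G, l.length = n ∧ (∀ s ∈ l, s ∈ S ∪ (⊥ : Subgroup G) ∨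
        s⁻¹ ∈ S ∪ (⊥ : Subgroup G)) ∧ l.prod = g} := by
    rintro n ⟨l, h1, h2, h3⟩
    exact ⟨l, h1, fun s hs => (h2 s hs).imp Or.inl Or.inl, h3⟩
  have b : ∀ n ∈ {n | ∃ l : List G, l.length = n ∧ (∀ s ∈ l, s ∈ S ∪ (⊥ : Subgroup G) ∨
        s⁻¹ ∈ S ∪ (⊥ : Subgroup G)) ∧ l.prod = g},
      ∃ m ∈ {n | ∃ l : List G, l.length = n ∧ (∀ s ∈ l, s ∈ S ∨ s⁻¹ ∈ S) ∧ l.prod = g}, m ≤ n := by
    rintro n ⟨l, h1, h2, h3⟩
    refine ⟨_, ⟨l.filter (· ≠ 1), rfl, fun s hs => ?_, ?_⟩, h1 ▸ List.length_filter_le _ _⟩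
    · have := List.mem_filter.1 hs
      have h0 : s ≠ 1 := by simpa using this.2
      rcases h2 s this.1 with (h | h) | (h | h)
      · exact Or.inl h
      · exact absurd (by simpa using h) h0
      · exact Or.inr h
      · exact absurd (by simpa using h) h0
    · rw [← h3]
      clear h1 h2 h3
      induction l with
      | nil => rfl
      | cons x l ih =>
        by_cases hx : x = 1
        · simpa [hx] using ih
        · simpa [hx] using ih
  unfold wordLen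
  rcases Set.eq_empty_or_nonempty
    {n | ∃ l : List G, l.length = n ∧ (∀ s ∈ l, s ∈ S ∨ s⁻¹ ∈ S) ∧ l.prod = g} with e | e
  · rw [e]
    refine congrArg sInf (Set.eq_empty_of_forall_notMem fun n hn => ?_)
    obtain ⟨m, hm, -⟩ := b n hn
    rw [e] at hm
    exact hm
  · refine le_antisymm (Nat.sInf_le (a _ (Nat.sInf_mem e))) ?_
    obtain ⟨m, hm, h⟩ := b _ (Nat.sInf_mem ⟨_, a _ e.choose_spec⟩)
    exact (Nat.sInf_le hm).trans h

theorem rel_of_hyp {G : Type} [Group G] (h : Hyperbolic G) (hi : Infinite G) :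
    Countable G ∧ ∃ H : Subgroup G, H ≠ ⊤ ∧ RelHyperbolic G H := by
  obtain ⟨S, hS, δ, hδ⟩ := h
  refine ⟨?_, ⊥, bot_ne_top, S, ?_, ⟨δ, ?_⟩, fun n => ?_⟩
  · refine Function.Surjective.countable (f := FreeGroup.lift ((↑) : S → G)) ?_
    rw [← MonoidHom.range_eq_top, FreeGroup.range_lift_eq_closure, ← hS]
    simp
  · exact top_le_iff.1 (hS ▸ Subgroup.closure_mono Set.subset_union_left)
  · simpa only [wordLen_one] using hδ
  · exact (Set.finite_singleton (1 : G)).subset fun x hx => by simpa using hx.1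

/-- the statement of the earlier hand-in on relatively hyperbolic groups -/
theorem old_rel : ∃ (G G' : Type) (_ : Group G) (_ : Group G'),
    Countable G ∧ Countable G' ∧ (∃ H : Subgroup G, H ≠ ⊤ ∧ RelHyperbolic G H) ∧
      (∃ H' : Subgroup G', H' ≠ ⊤ ∧ RelHyperbolic G' H') ∧ FreeInNormal G ∧ FreeInNormal G' ∧
      ICC G ∧ ICC G' ∧ PropT G ∧ PropT G' ∧ VNIso G G' ∧ ¬ VirtIso G G' := by
  obtain ⟨G, G', _, _, h1, h2, h3, h4, h⟩ := Results.MP_434e52_an.HyperbolicTwins.result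
  exact ⟨G, G', _, _, (rel_of_hyp h1 h3).1, (rel_of_hyp h2 h4).1, (rel_of_hyp h1 h3).2,
    (rel_of_hyp h2 h4).2, h⟩

/-- the statement of the earlier hand-in on hyperbolic groups -/
theorem old_hyp : ∃ (G G' : Type) (_ : Group G) (_ : Group G'),
    Hyperbolic G ∧ Hyperbolic G' ∧ Infinite G ∧ Infinite G' ∧ ICC G ∧ ICC G' ∧
      PropT G ∧ PropT G' ∧ VNIso G G' ∧ IsEmpty (G ≃* G') := by
  obtain ⟨G, G', _, _, h1, h2, h3, h4, -, -, h5, h6, h7, h8, h9, h⟩ :=
    Results.MP_434e52_an.HyperbolicTwins.result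
  refine ⟨G, G', _, _, h1, h2, h3, h4, h5, h6, h7, h8, h9, ⟨fun e => h ?_⟩⟩
  exact ⟨⊥, ⊥, inferInstance, inferInstance, inferInstance, inferInstance, ⊤, ⊤, by simp, by simp,
    ⟨Subgroup.topEquiv.trans (QuotientGroup.quotientBot.trans (e.trans
      (QuotientGroup.quotientBot.symm.trans Subgroup.topEquiv.symm)))⟩⟩

end Pool.Agent.MP_434e52_an.H29
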