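import Pool.Agent.MP_434e52_an.HG.DDefs
import Pool.Agent.MP_c6eade_gt.H41.D1

/-! All quotients different and large girth give the linear bound for reduced diagrams. -/

namespace Pool.Agent.MP_434e52_an.H29

open Equiv Finset Pool.Agent.MP_c6eade_gt.H41
open scoped Classical

/-- A quotient of two positions of one row determines the two half-edges, given the kind. -/
def Uniq {R E Kd K : Type} [Group K] (row : E → R) (kind : R → Kd) (pos : E → K) : Prop :=
  ∀ a b a' b', row a = row b → row a' = row b' → kind (row a) = kind (row a') → a ≠ b →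
    (pos a)⁻¹ * pos b = (pos a')⁻¹ * pos b' → a = a' ∧ b = b'

theorem lin_of_uniq {R E Kd K : Type} [Group K] {row : E → R} {kind : R → Kd} {σ : E → E}
    {pos : E → K} (hk : ∀ e, σ e ≠ e → kind (row (σ e)) ≠ kind (row e)) {g : ℕ} (h36 : 36 ≤ g)
    (hg : Girth row σ g) (hu : Uniq row kind pos) : Lin row kind σ pos 6 g := by
  intro H _ G j hj D _ X
  have df : ∀ x, x ∉ X.T → X.f x = x := fun x hx => (X.dead x hx).1
  have dh : ∀ x, x ∉ X.T → X.h x = x := fun x hx => (X.dead x hx).2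
  have ps : ∀ i x, (X.f ^ (i + 1)) x = X.f ((X.f ^ i) x) := fun i x => by
    rw [pow_succ', Perm.mul_apply]
  have nbw : ∀ x ∈ X.T, ∀ k, NBW row σ (fun i => X.o ((X.f ^ i) x)) k := fun x hx k =>
    ⟨fun i _ => (X.cross _ (D1x.mem_pow df hx i)).1, fun i _ => by
      simp only [ps]
      exact (X.cross _ (D1x.mem_pow df hx i)).2⟩
  have h1 : ∀ x ∈ X.T, ∀ i, 0 < i → i < g → (X.f ^ i) x ≠ x := by
    intro x hx i h0 h1 e
    obtain ⟨k, rfl⟩ : ∃ k, i = k + 1 := ⟨i - 1, by omega⟩
    have := hg _ k h1 (nbw x hx _)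
    rw [← (X.cross _ (D1x.mem_pow df hx k)).2.1, ← ps, e] at this
    exact this rfl
  have hin : ∀ x ∈ X.T, row (X.o x) = row (σ (X.o (X.f⁻¹ x))) ∧ X.o x ≠ σ (X.o (X.f⁻¹ x)) :=
    fun x hx => by simpa using (X.cross _ (D1x.mem_inv df hx)).2
  have hv : ∀ x ∈ X.T, X.h (X.f x) ≠ x := fun x hx e => by
    have k1 := X.kind_eq _ (D1x.mem_step df hx)
    rw [e, (X.cross x hx).2.1] at k1
    exact hk _ (X.cross x hx).1 k1.symm
  have hfix : ∀ x ∈ X.T, X.h x = x → x ∈ X.Df := fun x hx e => by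
    by_contra hn
    have k1 := X.rel x hx hn
    rw [e, mul_right_inj, ← (hin x hx).1, mul_right_inj] at k1
    have k2 := hu _ _ (X.o x) (X.o x) (hin x hx).1.symm rfl (by rw [← (hin x hx).1])
      (hin x hx).2.symm (by rw [hj _ k1])
    exact (hin x hx).2 k2.1.symm
  have htwo : ∀ x ∈ X.T, X.h (X.h x) = x → x ∈ X.Df ∨ X.h x ∈ X.Df := fun x hx e => by
    by_contra hn
    rw [not_or] at hn
    have hx' := D1x.mem_step dh hx
    have ne : x ≠ X.h x := fun h => hn.1 (hfix x hx h.symm)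
    have k1 := X.rel x hx hn.1
    have k2 := X.rel _ hx' hn.2
    have k3 := X.kind_eq x hx
    rw [← (hin x hx).1, k3] at k1
    rw [e, ← (hin _ hx').1, k3] at k2
    have k4 : (pos (σ (X.o (X.f⁻¹ x))))⁻¹ * pos (X.o x) =
        (pos (X.o (X.h x)))⁻¹ * pos (σ (X.o (X.f⁻¹ (X.h x)))) := by
      apply hj (kind (row (X.o x)))
      rw [map_mul, map_mul, map_inv, map_inv]
      calc _ = (X.u x * (G (row (X.o x)) * j (kind (row (X.o x))) (pos (σ (X.o (X.f⁻¹ x))))))⁻¹ *
            (X.u x * (G (row (X.o x)) * j (kind (row (X.o x))) (pos (X.o x)))) := by group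
        _ = _ := by rw [k1, ← k2]; group
    have k5 := hu _ _ _ _ (hin x hx).1.symm (hin _ hx').1 (by rw [← (hin x hx).1, k3])
      (hin x hx).2.symm k4
    have k6 : row (X.o x) = row (X.o (X.h x)) := by rw [(hin x hx).1, k5.1]
    refine X.red x hx _ hx' ⟨1, by simp⟩ ne k6 ?_
    rw [k5.1, k6] at k1
    exact mul_right_cancel k1
  have c3 : #{x ∈ X.T | X.h x = x} ≤ #X.Df :=
    card_le_card fun x hx => hfix x (mem_filter.1 hx).1 (mem_filter.1 hx).2
  have c4 := euler_count X.T g X.planar X.dead h1 hv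
  have c5 : #{x ∈ X.T | ¬ X.h (X.h x) ≠ x} ≤ 2 * #X.Df := by
    calc _ ≤ #(X.Df ∪ X.Df.image fun y => X.h⁻¹ y) := card_le_card fun x hx => by
          obtain ⟨a, b⟩ := mem_filter.1 hx
          rcases htwo x a (not_not.1 b) with h | h
          · exact mem_union_left _ h
          · exact mem_union_right _ (mem_image.2 ⟨_, h, by simp⟩)
      _ ≤ #X.Df + #X.Df := (card_union_le _ _).trans (Nat.add_le_add_left card_image_le _)
      _ = _ := by ring
  have c6 := card_filter_add_card_filter_not (s := X.T) fun x => X.h (X.h x) ≠ x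
  refine ⟨?_, fun ⟨x, hx⟩ => ?_⟩
  · have b1 := Nat.mul_le_mul_left (3 * g) c3
    have b2 := Nat.mul_le_mul_left g (show #X.T ≤ #{x ∈ X.T | X.h (X.h x) ≠ x} +
      #{x ∈ X.T | X.h (X.f (X.h (X.f x))) ≠ x} + 2 * #X.Df by omega)
    have b3 := Nat.mul_le_mul_right #X.T h36
    refine Nat.le_of_mul_le_mul_left (c := 5 * g) ?_ (by omega)
    nlinarith
  · have c2 : g * #({x} : Finset D) ≤ #X.T :=
      D1x.spacing df (singleton_subset_iff.2 hx) fun y hy i a b hz => by
        rw [mem_singleton] at hy hz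
        exact h1 y (hy ▸ hx) i a b (hz.trans hy.symm)
    simpa using c2

end Pool.Agent.MP_434e52_an.H29
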