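import Pool.Agent.MP_434e52_an.TriC

/-!
Local twins over an arbitrary finite abelian group with a polynomial code, and the twin triangles
over a vertex group generated by two copies of it.
-/

set_option autoImplicit false
set_option linter.unusedSectionVars false

namespace Pool.Agent.MP_434e52_an

namespace T31

open MonoidAlgebra Polynomial Code

noncomputable section

/-- A filtration of functions on `Y` by degree. -/
structure Cod (F Y : Type) [Field F] [CommGroup Y] where
  Lam : ℕ → (Y → F) → Prop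
  const : ∀ d c, Lam d fun _ => c
  add : ∀ {d f f'}, Lam d f → Lam d f' → Lam d (f + f')
  mul : ∀ {d d' e f f'}, Lam d f → Lam d' f' → d + d' ≤ e → Lam e (f * f')
  shift : ∀ {d f} (y : Y), Lam d f → Lam d fun t => f (t * y)
  sep : ∀ {y y' : Y}, y ≠ y' → ∃ f, Lam 1 f ∧ f y = 1 ∧ f y' = 0
  k : ℕ
  zero : ∀ {f}, Lam 4 f → ∀ T : Finset Y, k < T.card → (∀ t ∈ T, f t = 0) → f = 0

variable {F Y : Type} [Field F] [CommGroup Y] {n : Cod F Y} {r : Bool}

theorem Cod.neg (n : Cod F Y) {d : ℕ} {f : Y → F} (h : n.Lam d f) : n.Lam d (-f) := by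
  have := n.mul (n.const 0 (-1)) h (e := d) (by omega)
  rwa [show ((fun _ : Y => (-1 : F)) * f) = -f from _root_.funext fun y => by simp] at this

theorem Cod.mono (n : Cod F Y) {d e : ℕ} {f : Y → F} (h : n.Lam d f) (he : d ≤ e) : n.Lam e f := by
  have := n.mul (n.const 0 1) h (e := e) (by omega)
  rwa [show ((fun _ : Y => (1 : F)) * f) = f from _root_.funext fun y => by simp] at this

theorem Cod.cond (n : Cod F Y) {f f' : Y → F} (h : n.Lam 2 f) (h' : n.Lam 2 f') :
    n.Lam 4 (cond r (f * f') 0) := by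
  cases r
  · exact n.const 4 0
  · exact n.mul h h' le_rfl

/-- the code -/
def Cd (n : Cod F Y) (r : Bool) : AddSubgroup (Ex r (Y → F)) where
  carrier := {c | n.Lam 2 c.l ∧ n.Lam 4 c.m}
  zero_mem' := ⟨n.const 2 0, n.const 4 0⟩
  add_mem' h h' := ⟨n.add h.1 h'.1, n.add (n.add h.2 h'.2) (n.cond h.1 h'.1)⟩
  neg_mem' h := ⟨n.neg h.1, n.add (n.neg h.2) (n.cond h.1 h.1)⟩

/-- evaluation of a word -/
def ev (y : Y) : Cd n r →+ Ex r F := (Ex.map (Pi.evalRingHom _ y)).comp (Cd n r).subtype

/-- translation of a word -/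
def sh (y : Y) : Cd n r →+ Cd n r where
  toFun c := ⟨⟨fun t => c.1.l (t * y), fun t => c.1.m (t * y)⟩, n.shift y c.2.1, n.shift y c.2.2⟩
  map_zero' := rfl
  map_add' _ _ := by cases r <;> rfl

theorem sh_one (c : Cd n r) : sh 1 c = c := by
  ext <;> simp [sh]

theorem sh_mul (y z : Y) (c : Cd n r) : sh (y * z) c = sh z (sh y c) := by
  ext <;> simp [sh, mul_comm, mul_left_comm]

theorem ev_sh (y z : Y) (c : Cd n r) : ev z (sh y c) = ev (z * y) c := rfl

theorem sep {y y' y'' : Y} (h : y ≠ y') (h' : y ≠ y'') (s : Ex r F) :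
    ∃ c : Cd n r, ev y c = s ∧ ev y' c = 0 ∧ ev y'' c = 0 := by
  obtain ⟨f, p, q, q'⟩ := n.sep h
  obtain ⟨g, u, v, v'⟩ := n.sep h'
  have k := n.mul p u le_rfl
  refine ⟨⟨⟨_, _⟩, n.mul (n.const 0 s.l) k le_rfl, n.mul (n.const 0 s.m) k (by norm_num)⟩,
    ?_, ?_, ?_⟩ <;> ext <;> simp [ev, Ex.map, q, q', v, v']

theorem many (c : Cd n r) (T : Finset Y) (hT : n.k < T.card) (h : ∀ t ∈ T, ev t c = 0) (t : Y) :
    ev t c = 0 := by
  ext
  · exact congrFun (n.zero (n.mono c.2.1 (by norm_num)) T hT fun t ht => congrArg Ex.l (h t ht)) t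
  · exact congrFun (n.zero c.2.2 T hT fun t ht => congrArg Ex.m (h t ht)) t

/-- the action on characters -/
def act (n : Cod F Y) (r : Bool) : Y →* MulAut (AddChar (Cd n r) ℂ) where
  toFun y :=
    { toFun := fun d => d.compAddMonoidHom (sh y)
      invFun := fun d => d.compAddMonoidHom (sh y⁻¹)
      left_inv := fun d => by ext c; simp [← sh_mul, sh_one]
      right_inv := fun d => by ext c; simp [← sh_mul, sh_one]
      map_mul' := fun _ _ => rfl }
  map_one' := by ext d c; simp [sh_one]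
  map_mul' y z := by ext d c; exact congrArg d (sh_mul y z c)

theorem act_apply (y : Y) (d : AddChar (Cd n r) ℂ) (c : Cd n r) : act n r y d c = d (sh y c) := rfl

/-- the vertex group -/
abbrev PP (n : Cod F Y) (r : Bool) : Type := AddChar (Cd n r) ℂ ⋊[act n r] Y

/-- characters that factor through one coordinate -/
def at1 (y : Y) : AddChar (Ex r F) ℂ →* AddChar (Cd n r) ℂ where
  toFun χ := χ.compAddMonoidHom (ev y)
  map_one' := rfl
  map_mul' _ _ := rfl

theorem at1_apply (y : Y) (χ : AddChar (Ex r F) ℂ) (c : Cd n r) : at1 y χ c = χ (ev y c) := rfl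

/-- the first edge group -/
def iX (n : Cod F Y) (r : Bool) : AddChar (Ex r F) ℂ →* PP n r := SemidirectProduct.inl.comp (at1 1)

open SemidirectProduct

theorem conj_iX (y : Y) (χ : AddChar (Ex r F) ℂ) :
    inr y * iX n r χ * (inr y)⁻¹ = inl (at1 y χ) := by
  rw [iX, MonoidHom.comp_apply, ← map_inv, ← inl_aut]
  congr 1
  ext c
  rw [act_apply, at1_apply, ev_sh, one_mul, at1_apply]

theorem word {y y' : Y} (h : y ≠ 1) (h' : y' ≠ 1) {χ χ' χ'' : AddChar (Ex r F) ℂ}
    (e : at1 1 χ * at1 y χ' * at1 y' χ'' = (1 : AddChar (Cd n r) ℂ)) : χ = 1 := by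
  ext s
  obtain ⟨c, p, q, q'⟩ := sep h.symm h'.symm s
  simpa [at1_apply, p, q, q'] using DFunLike.congr_fun e c

theorem g6 : Gi6 (iX n r) (inr : Y →* PP n r) := by
  intro x y x' y' x'' y'' h
  by_contra! c
  have e : iX n r x * inr y * iX n r x' * inr y' * iX n r x'' * inr y'' =
      inl (at1 1 x * at1 y x' * at1 (y * y') x'') * inr (y * y' * y'') := by
    simp only [map_mul, ← conj_iX, map_one]
    group
  rw [e] at h
  have h1 : y * y' * y'' = 1 := by simpa using congrArg right h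
  refine c.1 (word c.2.1 (fun z => c.2.2.2.2.2 ?_) (by simpa using congrArg left h))
  rwa [z, one_mul] at h1

theorem g4 : Gi4 (iX n r) (inr : Y →* PP n r) := by
  intro x y x' y' h
  by_contra! c
  have e : iX n r x * inr y * iX n r x' * inr y' = inl (at1 1 x * at1 y x') * inr (y * y') := by
    simp only [map_mul, ← conj_iX, map_one]
    group
  rw [e] at h
  exact c.1 (word (χ'' := 1) c.2.1 c.2.1 (by simpa using congrArg left h))

theorem g2 : Gi2 (iX n r) (inr : Y →* PP n r) := by
  intro x y h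
  refine ⟨?_, by simpa [iX] using (congrArg right h).symm⟩
  have h1 : at1 1 x = (1 : AddChar (Cd n r) ℂ) := by simpa [iX] using congrArg left h
  ext s
  have := DFunLike.congr_fun h1 ⟨⟨fun _ => s.l, fun _ => s.m⟩, n.const _ _, n.const _ _⟩
  exact this

variable [Fintype F] [Fintype Y] [DecidableEq Y]

instance : Fintype (Cd n r) := Fintype.ofFinite _

instance : Fintype (AddChar (Ex r F) ℂ) := Fintype.ofFinite _

omit [DecidableEq Y] in
theorem gen : (iX n r).range ⊔ (inr : Y →* PP n r).range = ⊤ := by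
  refine eq_top_iff.2 fun p _ => ?_
  have m : ∀ y : Y, (inr y : PP n r) ∈ (iX n r).range ⊔ (inr : Y →* PP n r).range := fun y =>
    Subgroup.mem_sup_right ⟨y, rfl⟩
  rw [← inl_left_mul_inr_right p]
  refine mul_mem (Subgroup.mem_comap.1 (dual_mem _ _ fun c h => ?_)) (m _)
  have k : ∀ y, ev y c = 0 := fun y => AddChar.forall_apply_eq_zero.1 fun χ =>
    h (at1 y χ) (by
      rw [Subgroup.mem_comap, ← conj_iX]
      exact mul_mem (mul_mem (m _) (Subgroup.mem_sup_left ⟨χ, rfl⟩)) (inv_mem (m _)))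
  have : c = 0 := by
    ext y
    · exact congrArg Ex.l (k y)
    · exact congrArg Ex.m (k y)
  rw [this, AddChar.map_zero_eq_one]

omit [DecidableEq Y] in
theorem ang {E : Type} [NormedAddCommGroup E] [InnerProductSpace ℂ E] [CompleteSpace E]
    (π : PP n r →* (E →L[ℂ] E)) (hu : ∀ g, π g ∈ unitary (E →L[ℂ] E))
    (hk : 16 * n.k ≤ Fintype.card Y) :
    Ang (1 / 4) (av π (iX n r)) (av π (inr : Y →* PP n r)) := by
  refine Kaz.ang_conj_vec hu (iX n r) inr (fun b a a' => ?_) (k := n.k) (fun S hS v h b a => ?_)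
    (by norm_num) (by norm_num) ?_
  · rw [conj_iX]
    exact (Commute.all _ _).map inl
  · rw [conj_iX]
    refine Kaz.fix_closure (s := {g | ∃ b ∈ S, ∃ a, g = inr b * iX n r a * (inr b)⁻¹}) ?_
      (Subgroup.mem_comap.1 (dual_mem _ _ fun w hw => ?_))
    · rintro _ ⟨b, hb, a, rfl⟩
      exact h b hb a
    · rw [at1_apply, many w S hS ?_, AddChar.map_zero_eq_one]
      intro t ht
      exact AddChar.forall_apply_eq_zero.1 fun χ => hw (at1 t χ)
        (Subgroup.subset_closure ⟨t, ht, χ, (conj_iX _ _).symm⟩)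
  · have : (16 : ℝ) * n.k ≤ Fintype.card Y := by exact_mod_cast hk
    linarith

/-- the two codes have the same words -/
def sw (n : Cod F Y) (r : Bool) : Cd n false ≃ Cd n r :=
  ⟨fun c => ⟨⟨c.1.l, c.1.m⟩, c.2⟩, fun c => ⟨⟨c.1.l, c.1.m⟩, c.2⟩, fun _ => rfl, fun _ => rfl⟩

/-- the crossed product in its regular representation -/
def cp (y : Y) : (Cd n false → ℂ) →ₗ[ℂ] Matrix (Y) (Y) (Cd n false → ℂ) where
  toFun f := Matrix.of fun s t => if s = y * t then f ∘ sh s⁻¹ else 0
  map_add' f g := by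
    ext s t c
    by_cases h : s = y * t <;> simp [h]
  map_smul' a f := by
    ext s t c
    by_cases h : s = y * t <;> simp [h]

/-- the trace of the crossed product -/
def cpSt (n : Cod F Y) : St (Matrix (Y) (Y) (Cd n false → ℂ)) where
  τ := (mean _).τ ∘ₗ Matrix.entryLinearMap ℂ _ 1 1
  one := by simpa using (mean _).one
  st a := (mean _).st (a 1 1)

/-- the model of the vertex group -/
def cpMo (n : Cod F Y) (r : Bool) : Mo (PP n r) (cpSt n) where
  ρ :=
    { toFun := fun p => cp p.right (fn (sw n r) p.left)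
      map_one' := by
        ext s t c
        by_cases h : s = t <;> simp [cp, h, Matrix.one_apply]
      map_mul' := fun p q => by
        ext s t c
        rw [Matrix.mul_apply, Finset.sum_eq_single (q.right * t) (fun u _ h => by simp [cp, h])
          (by simp)]
        by_cases h : s = p.right * (q.right * t)
        · have : sh (r := false) (q.right * t)⁻¹ c = sh p.right (sh s⁻¹ c) := by
            rw [← sh_mul, h]; congr 2; group
          simp only [cp, LinearMap.coe_mk, AddHom.coe_mk, Matrix.of_apply, mul_right, mul_assoc,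
            if_pos h, if_true, Pi.mul_apply, Function.comp_apply, this]
          rfl
        · simp [cp, mul_assoc, h] }
  st p := by
    ext s t c
    by_cases h : t = p.right * s
    · have : sh (r := false) t⁻¹ c = sh p.right⁻¹ (sh s⁻¹ c) := by
        rw [← sh_mul, h, mul_inv_rev]
      have h' : s = p.right⁻¹ * t := by rw [h, inv_mul_cancel_left]
      simp only [cp, MonoidHom.coe_mk, OneHom.coe_mk, LinearMap.coe_mk, AddHom.coe_mk,
        Matrix.of_apply, Matrix.star_apply, inv_right, if_pos h, if_pos h', Pi.star_apply,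
        Function.comp_apply, this]
      exact congrFun (fn_inv (sw n r) p.left) (sh p.right⁻¹ (sh s⁻¹ c))
    · have h' : s ≠ p.right⁻¹ * t := fun e => h (by rw [e, mul_inv_cancel_left])
      simp [cp, h, h', Matrix.star_apply]
  tr p h := by
    by_cases e : p.right = 1
    · have := mean_fn (sw n r) (χ := p.left) fun z => h (SemidirectProduct.ext z e)
      refine Eq.trans (congrArg (mean _).τ (?_ : cp p.right (fn (sw n r) p.left) 1 1 = _)) this
      funext c
      simp [cp, e, sh_one]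
    · refine Eq.trans (congrArg (mean _).τ (?_ : cp p.right (fn (sw n r) p.left) 1 1 = 0))
        (map_zero _)
      simp [cp, Ne.symm e]

theorem cp_span (r r' : Bool) (p : PP n r) :
    (cpMo n r).ρ p ∈ Submodule.span ℂ (Set.range (cpMo n r').ρ) := by
  have := Submodule.mem_map_of_mem (f := cp p.right) (fn_span (sw n r') (fn (sw n r) p.left))
  rw [Submodule.map_span] at this
  refine Submodule.span_mono ?_ this
  rintro _ ⟨_, ⟨d, rfl⟩, rfl⟩
  exact ⟨⟨d, p.right⟩, rfl⟩

/-- twin edge groups -/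
def twX (F : Type) [Field F] [Fintype F] : Tw (AddChar (Ex false F) ℂ) (AddChar (Ex true F) ℂ) :=
  (chMo (Ex.eqv false F)).tw (chMo (Ex.eqv true F)) (fun _ => fn_span _ _) fun _ => fn_span _ _

/-- twin vertex groups -/
def twP (n : Cod F Y) : Tw (PP n false) (PP n true) :=
  (cpMo n false).tw (cpMo n true) (cp_span _ _) (cp_span _ _)

theorem tw_iX (x : AddChar (Ex false F) ℂ) :
    (twP n).th (iX n false x) = mapDomain (iX n true) ((twX F).th x) := by
  let j := cp (n := n) 1 ∘ₗ LinearMap.funLeft ℂ ℂ fun c : Cd n false => (c.1.l 1, c.1.m 1)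
  have k : ∀ a, lift ℂ _ _ (cpMo n true).ρ (mapDomain (iX n true) a) =
      j (lift ℂ _ _ (chMo (Ex.eqv true F)).ρ a) := fun a => by
    induction a using MonoidAlgebra.induction_linear with
    | zero => simp
    | add a b h h' => rw [mapDomain_add, map_add, h, h', map_add, map_add]
    | single x c => rw [mapDomain_single, lift_single, lift_single, map_smul]; rfl
  refine (cpMo n true).inj ?_
  rw [k]
  have e1 : lift ℂ _ _ (cpMo n true).ρ ((twP n).th (iX n false x)) =
      j ((chMo (Ex.eqv false F)).ρ x) := Mo.th_spec (cpMo n false) (cpMo n true) (cp_span _ _) _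
  have e2 : lift ℂ _ _ (chMo (Ex.eqv true F)).ρ ((twX F).th x) = (chMo (Ex.eqv false F)).ρ x :=
    Mo.th_spec (chMo (Ex.eqv false F)) (chMo (Ex.eqv true F)) (fun _ => fn_span _ _) x
  rw [e1, e2]

theorem tw_iY (y : Y) : (twP n).th (inr y) = single (inr y) 1 :=
  (cpMo n true).inj ((Mo.th_spec _ _ (cp_span _ _) _).trans (by rw [lift_single, one_smul]; rfl))

variable [CharP F 2]

theorem sq_false {A : AddSubgroup (Ex false (Y → F))} (d : AddChar A ℂ) : d ^ 2 = 1 := by
  ext c
  have : c + c = 0 := Subtype.ext (dbl (_root_.funext fun _ => CharTwo.two_eq_zero) c.1)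
  rw [sq, AddChar.mul_apply, ← AddChar.map_add_eq_mul, this]
  simp

theorem four (d : AddChar (Cd n r) ℂ) : d ^ 4 = 1 := by
  ext c
  have t : (2 : Y → F) = 0 := _root_.funext fun _ => CharTwo.two_eq_zero
  have : c + c + (c + c) = 0 := Subtype.ext (by
    change c.1 + c.1 + (c.1 + c.1) = 0
    rw [dbl t, dbl t c.1]
    ext <;> cases r <;> simp)
  rw [show 4 = 2 + 2 from rfl, pow_add, sq, AddChar.mul_apply, AddChar.mul_apply,
    ← AddChar.map_add_eq_mul, ← AddChar.map_add_eq_mul, this]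
  simp

theorem ex_chi : ∃ χ : AddChar (Ex true F) ℂ, χ ⟨1, 0⟩ ^ 2 = -1 := by
  obtain ⟨χ, h⟩ := (AddChar.exists_apply_ne_zero (a := (⟨0, 1⟩ : Ex true F))).2
    fun e => one_ne_zero (congrArg Ex.m e)
  have e : χ ⟨1, 0⟩ ^ 2 = χ ⟨0, 1⟩ := by
    rw [sq, ← AddChar.map_add_eq_mul, dbl CharTwo.two_eq_zero]; simp
  have e' : χ ⟨0, 1⟩ * χ ⟨0, 1⟩ = 1 := by
    rw [← AddChar.map_add_eq_mul, dbl CharTwo.two_eq_zero, ← χ.map_zero_eq_one]
    congr 1
    ext <;> simp
  exact ⟨χ, e.trans ((mul_self_eq_one_iff.1 e').resolve_left h)⟩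

theorem no4 (hY : Odd (Fintype.card Y)) (g : PP n false) (h : g ^ 4 = 1) : g ^ 2 = 1 := by
  have h1 : g.right = 1 := by
    have := congrArg rightHom h
    rw [map_pow, map_one] at this
    have p : g.right ^ Fintype.card Y = 1 := pow_card_eq_one
    have c : Nat.gcd 4 (Fintype.card Y) = 1 :=
      Nat.Coprime.pow_left 2 ((Nat.coprime_two_left).2 hY)
    rw [← pow_one g.right, ← c]
    exact pow_gcd_eq_one.2 ⟨this, p⟩
  rw [← inl_left_mul_inr_right g, h1, map_one, mul_one, ← map_pow, sq_false, map_one]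

theorem ord4 (y : Y) (hy : y ≠ 1) : ∃ x : AddChar (Ex true F) ℂ,
    ((inr y : PP n true) * iX n true x * (inr y)⁻¹ * (iX n true x)⁻¹) ^ 4 = 1 ∧
    ((inr y : PP n true) * iX n true x * (inr y)⁻¹ * (iX n true x)⁻¹) ^ 2 ≠ 1 := by
  obtain ⟨χ, h⟩ := ex_chi (F := F)
  refine ⟨χ, ?_⟩
  rw [conj_iX, iX, MonoidHom.comp_apply, ← map_inv, ← map_mul, ← map_pow, ← map_pow, four, map_one]
  refine ⟨rfl, fun e => ?_⟩
  obtain ⟨c, p, q, -⟩ := sep (n := n) hy hy (⟨1, 0⟩ : Ex true F)
  have := DFunLike.congr_fun (inl_injective (e.trans (map_one _).symm)) c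
  rw [AddChar.pow_apply, AddChar.mul_apply, AddChar.inv_apply, at1_apply, at1_apply, map_neg, p, q,
    neg_zero, AddChar.map_zero_eq_one, mul_one, h] at this
  norm_num at this

theorem nontrivX : Nontrivial (AddChar (Ex r F) ℂ) := by
  obtain ⟨χ, h⟩ := (AddChar.exists_apply_ne_zero (a := (⟨0, 1⟩ : Ex r F))).2
    fun e => one_ne_zero (congrArg Ex.m e)
  exact ⟨χ, 1, fun e => h (by rw [e]; rfl)⟩

end

end T31

end Pool.Agent.MP_434e52_an
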